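import Mathlib

/-!
# The sum over the primes
-/

set_option autoImplicit false

open Finset

namespace Pool.Agent.U429.UF

theorem sum_le_log {n : ℕ} (hn : n ≠ 0) (S : Finset ℕ) (hSp : ∀ p ∈ S, p.Prime) :
    ∑ p ∈ S, (padicValNat p n : ℝ) * Real.log p ≤ Real.log n := by
  classical
  rw [Real.log_nat_eq_sum_factorization, Finsupp.sum, Nat.support_factorization]
  have h1 : ∑ p ∈ S, (padicValNat p n : ℝ) * Real.log p =
      ∑ p ∈ S ∩ n.primeFactors, (n.factorization p : ℝ) * Real.log p := by
    rw [← Finset.sum_subset (Finset.inter_subset_left (s₁ := S) (s₂ := n.primeFactors))]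
    · refine Finset.sum_congr rfl fun p hp => ?_
      rw [Nat.factorization_def _ (hSp p (Finset.mem_inter.1 hp).1)]
    · intro p hp hp2
      have h2 : ¬ p ∣ n := by
        intro hd
        apply hp2
        rw [Finset.mem_inter]
        exact ⟨hp, (Nat.mem_primeFactors_of_ne_zero hn).2 ⟨hSp p hp, hd⟩⟩
      rw [padicValNat.eq_zero_of_not_dvd h2]
      simp
  rw [h1]
  refine Finset.sum_le_sum_of_subset_of_nonneg Finset.inter_subset_right fun p _ _ => ?_
  exact mul_nonneg (Nat.cast_nonneg _) (Real.log_natCast_nonneg p)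

theorem log_eq_sum {n : ℕ} (S : Finset ℕ) (hS : n.primeFactors ⊆ S) (hSp : ∀ p ∈ S, p.Prime) :
    Real.log n = ∑ p ∈ S, (padicValNat p n : ℝ) * Real.log p := by
  rw [Real.log_nat_eq_sum_factorization, Finsupp.sum, Nat.support_factorization]
  rw [Finset.sum_subset hS]
  · refine Finset.sum_congr rfl fun p hp => ?_
    rw [Nat.factorization_def _ (hSp p hp)]
  · intro p _ hp2
    rw [← Nat.support_factorization, Finsupp.notMem_support_iff] at hp2
    rw [hp2]
    simp

theorem theta_nat (L : ℕ) : Chebyshev.theta (L : ℝ) =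
    ∑ p ∈ (Ioc 0 L).filter Nat.Prime, Real.log p := by
  rw [Chebyshev.theta, Nat.floor_natCast]

theorem theta_diff {N' L : ℕ} (h : N' ≤ L) :
    ∑ p ∈ (Ioc 0 L).filter Nat.Prime, (if N' < p then Real.log p else 0) =
      Chebyshev.theta (L : ℝ) - Chebyshev.theta (N' : ℝ) := by
  rw [theta_nat, theta_nat, eq_sub_iff_add_eq]
  have h1 : ∑ p ∈ (Ioc 0 N').filter Nat.Prime, Real.log p =
      ∑ p ∈ (Ioc 0 L).filter Nat.Prime, (if N' < p then 0 else Real.log p) := by
    rw [← Finset.sum_filter_not]
    refine Finset.sum_congr ?_ fun _ _ => rfl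
    ext p
    simp only [Finset.mem_filter, Finset.mem_Ioc, not_lt]
    constructor
    · rintro ⟨⟨h1, h2⟩, h3⟩
      exact ⟨⟨⟨h1, by omega⟩, h3⟩, h2⟩
    · rintro ⟨⟨⟨h1, h2⟩, h3⟩, h4⟩
      exact ⟨⟨h1, h4⟩, h3⟩
  rw [h1, ← Finset.sum_add_distrib]
  refine Finset.sum_congr rfl fun p _ => ?_
  split_ifs <;> simp
where
  Finset.sum_filter_not {s : Finset ℕ} {N' : ℕ} : ∑ p ∈ s.filter (fun p => ¬ N' < p), Real.log p =
      ∑ p ∈ s, (if N' < p then 0 else Real.log p) := by
    rw [Finset.sum_filter]
    refine Finset.sum_congr rfl fun p _ => ?_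
    split_ifs <;> simp_all

theorem theta_small (y L : ℕ) :
    ∑ p ∈ (Ioc 0 L).filter Nat.Prime, (if p ≤ y then Real.log p else 0) ≤
      Chebyshev.theta (y : ℝ) := by
  rw [theta_nat, ← Finset.sum_filter]
  refine Finset.sum_le_sum_of_subset_of_nonneg ?_ fun p _ _ => Real.log_natCast_nonneg p
  intro p
  simp only [Finset.mem_filter, Finset.mem_Ioc]
  rintro ⟨⟨⟨h1, h2⟩, h3⟩, h4⟩
  exact ⟨⟨h1, h4⟩, h3⟩

theorem lower {N' r L y m d D W : ℕ} (hy : 1 ≤ y) (hd : d ≠ 0) (hD : D ≠ 0) (hW : W ≠ 0)
    (hNL : N' ≤ L) (hL2 : L < 2 * (N' + 1))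
    (hA : ∀ p : ℕ, p.Prime → m * padicValNat p L.factorial ≤
      padicValNat p W + 8 * r * (padicValNat p d + 1) * m)
    (hB : ∀ p : ℕ, p.Prime → y < p → p ≤ N' → ¬ p ∣ d →
      m * (L / p) ≤ padicValNat p W + padicValNat p D * (L / p))
    (hC : ∀ p : ℕ, p.Prime → y < p → padicValNat p L.factorial = L / p) :
    m * Real.log L.factorial ≤ Real.log W +
      m * (8 * r * (Chebyshev.theta (y : ℝ) + 2 * Real.log d)) +
      ((L : ℝ) / y) * Real.log D +
      m * (Chebyshev.theta (L : ℝ) - Chebyshev.theta (N' : ℝ)) := by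
  classical
  set S := (Ioc 0 L).filter Nat.Prime with hS
  have hSp : ∀ p ∈ S, p.Prime := fun p hp => (Finset.mem_filter.1 hp).2
  have hy0 : (0 : ℝ) < y := by exact_mod_cast hy
  have key : ∀ p ∈ S, (m : ℝ) * (padicValNat p L.factorial * Real.log p) ≤
      (padicValNat p W : ℝ) * Real.log p +
      m * (8 * r * ((if p ≤ y then Real.log p else 0) +
        2 * ((padicValNat p d : ℝ) * Real.log p))) +
      ((L : ℝ) / y) * ((padicValNat p D : ℝ) * Real.log p) +
      m * (if N' < p then Real.log p else 0) := by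
    intro p hp
    have hpp := hSp p hp
    have hpL : p ≤ L := (Finset.mem_Ioc.1 (Finset.mem_filter.1 hp).1).2
    have hlog : 0 ≤ Real.log p := Real.log_natCast_nonneg p
    set w := padicValNat p d with hw
    have t1 : 0 ≤ (padicValNat p W : ℝ) * Real.log p := by positivity
    have t2 : 0 ≤ (m : ℝ) * (8 * r * ((if p ≤ y then Real.log p else 0) +
        2 * ((w : ℝ) * Real.log p))) := by
      split_ifs <;> positivity
    have t3 : 0 ≤ ((L : ℝ) / y) * ((padicValNat p D : ℝ) * Real.log p) := by positivity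
    have t4 : 0 ≤ (m : ℝ) * (if N' < p then Real.log p else 0) := by
      split_ifs <;> positivity
    by_cases hbad : p ≤ y ∨ p ∣ d
    · have h1 := hA p hpp
      have h2 : (m : ℝ) * padicValNat p L.factorial ≤
          padicValNat p W + 8 * r * (w + 1) * m := by exact_mod_cast h1
      have h3 : ((w : ℝ) + 1) * Real.log p ≤
          (if p ≤ y then Real.log p else 0) + 2 * ((w : ℝ) * Real.log p) := by
        have hw0 : 0 ≤ (w : ℝ) * Real.log p := by positivity
        split_ifs with h4
        · linarith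
        · have h5 : p ∣ d := hbad.resolve_left h4
          have : Fact p.Prime := ⟨hpp⟩
          have h6 : 1 ≤ w := one_le_padicValNat_of_dvd hd h5
          have h7 : (1 : ℝ) ≤ w := by exact_mod_cast h6
          have h8 : 1 * Real.log p ≤ (w : ℝ) * Real.log p := mul_le_mul_of_nonneg_right h7 hlog
          linarith
      have h4 : (m : ℝ) * (8 * r * (((w : ℝ) + 1) * Real.log p)) ≤
          (m : ℝ) * (8 * r * ((if p ≤ y then Real.log p else 0) +
            2 * ((w : ℝ) * Real.log p))) := by
        apply mul_le_mul_of_nonneg_left _ (by positivity)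
        exact mul_le_mul_of_nonneg_left h3 (by positivity)
      have h5 := mul_le_mul_of_nonneg_right h2 hlog
      have h6 : (padicValNat p W + 8 * r * ((w : ℝ) + 1) * m) * Real.log p =
          (padicValNat p W : ℝ) * Real.log p + m * (8 * r * (((w : ℝ) + 1) * Real.log p)) := by ring
      rw [h6] at h5
      linarith
    · push Not at hbad
      obtain ⟨h1, h2⟩ := hbad
      rw [hC p hpp h1]
      rcases Nat.lt_or_ge N' p with h3 | h3
      · have h4 : L / p ≤ 1 := by
          have : L / p < 2 := Nat.div_lt_of_lt_mul (by nlinarith)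
          omega
        have h5 : ((L / p : ℕ) : ℝ) ≤ 1 := by exact_mod_cast h4
        have h6 : (m : ℝ) * (((L / p : ℕ) : ℝ) * Real.log p) ≤ m * (1 * Real.log p) := by gcongr
        rw [if_pos h3] at *
        linarith
      · have h4 := hB p hpp h1 h3 h2
        have h5 : (m : ℝ) * ((L / p : ℕ) : ℝ) ≤
            padicValNat p W + padicValNat p D * ((L / p : ℕ) : ℝ) := by exact_mod_cast h4
        have h6 : ((L / p : ℕ) : ℝ) ≤ (L : ℝ) / y := by
          refine Nat.cast_div_le.trans ?_
          have : (y : ℝ) ≤ p := by exact_mod_cast h1.le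
          gcongr
        have h7 : (padicValNat p D : ℝ) * ((L / p : ℕ) : ℝ) ≤
            padicValNat p D * ((L : ℝ) / y) := by gcongr
        have h8 : ((m : ℝ) * ((L / p : ℕ) : ℝ)) * Real.log p ≤
            (padicValNat p W + padicValNat p D * ((L : ℝ) / y)) * Real.log p := by
          apply mul_le_mul_of_nonneg_right _ hlog
          linarith
        have h9 : (padicValNat p W + padicValNat p D * ((L : ℝ) / y)) * Real.log p =
            (padicValNat p W : ℝ) * Real.log p +
              ((L : ℝ) / y) * ((padicValNat p D : ℝ) * Real.log p) := by ring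
        rw [h9] at h8
        linarith
  have hsum := Finset.sum_le_sum key
  rw [← Finset.mul_sum, Finset.sum_add_distrib, Finset.sum_add_distrib, Finset.sum_add_distrib,
    ← Finset.mul_sum, ← Finset.mul_sum, Finset.sum_add_distrib, ← Finset.mul_sum, ← Finset.mul_sum,
    ← Finset.mul_sum, theta_diff hNL] at hsum
  have e1 : Real.log (L.factorial : ℝ) =
      ∑ p ∈ S, (padicValNat p L.factorial : ℝ) * Real.log p := by
    apply log_eq_sum S _ hSp
    intro p hp
    rw [Nat.mem_primeFactors] at hp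
    rw [hS, Finset.mem_filter, Finset.mem_Ioc]
    exact ⟨⟨hp.1.pos, (hp.1.dvd_factorial).1 hp.2.1⟩, hp.1⟩
  rw [← e1] at hsum
  have e2 := sum_le_log hW S hSp
  have e3 := sum_le_log hd S hSp
  have e4 := sum_le_log hD S hSp
  have e5 := theta_small y L
  have f1 : (m : ℝ) * (8 * r * (∑ p ∈ S, (if p ≤ y then Real.log p else 0) +
      2 * ∑ p ∈ S, (padicValNat p d : ℝ) * Real.log p)) ≤
      m * (8 * r * (Chebyshev.theta (y : ℝ) + 2 * Real.log d)) := by
    apply mul_le_mul_of_nonneg_left _ (by positivity)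
    apply mul_le_mul_of_nonneg_left _ (by positivity)
    linarith
  have f2 : ((L : ℝ) / y) * ∑ p ∈ S, (padicValNat p D : ℝ) * Real.log p ≤
      ((L : ℝ) / y) * Real.log D := mul_le_mul_of_nonneg_left e4 (by positivity)
  linarith

end Pool.Agent.U429.UF
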