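import Pool.Agent.U429.UF.Newton

/-!
# Large primes: the number of the classes of the Chern roots and the discriminant
-/

set_option autoImplicit false

open Finset Polynomial

namespace Pool.Agent.U429.UF

open Pool.Agent.N17.HC

variable {Γ : Type} [LinearOrderedCommGroupWithZero Γ] {v : Valuation ℂ Γ} {p : ℕ}

theorem Above.dvd_of_lt (h : Above v p) {z : ℤ} (hz : v (z : ℂ) < 1) : (p : ℤ) ∣ z := by
  by_contra hcon
  have h1 : ¬ p ∣ z.natAbs := fun hd => hcon (Int.natCast_dvd.2 hd)
  have h2 := h.eq_one h1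
  have h3 : v (z : ℂ) = v ((z.natAbs : ℕ) : ℂ) := by
    rcases Int.natAbs_eq z with h0 | h0
    · conv_lhs => rw [h0]
      simp
    · conv_lhs => rw [h0]
      simp [Valuation.map_neg]
  rw [h3, h2] at hz
  exact lt_irrefl _ hz

theorem Above.le_of_dvd (h : Above v p) {z : ℤ} (hz : (p : ℤ) ∣ z) : v (z : ℂ) ≤ v (p : ℂ) := by
  obtain ⟨y, rfl⟩ := hz
  push_cast
  rw [map_mul]
  calc v (p : ℂ) * v (y : ℂ) ≤ v (p : ℂ) * 1 := mul_le_mul' le_rfl (h.le y)
    _ = _ := mul_one _

theorem coeff_le {ι : Type} [DecidableEq ι] (F : Finset ι) (z : ι → ℂ)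
    (hz : ∀ i ∈ F, v (z i) ≤ 1) : ∀ j, v ((∏ i ∈ F, (X - C (z i))).coeff j) ≤ 1 := by
  induction F using Finset.induction_on with
  | empty =>
    intro j
    rw [Finset.prod_empty, coeff_one]
    split_ifs
    · rw [map_one]
    · rw [map_zero]; exact zero_le_one
  | insert a F ha ih =>
    intro j
    have ih' := ih fun i hi => hz i (Finset.mem_insert_of_mem hi)
    have hza := hz a (Finset.mem_insert_self a F)
    rw [Finset.prod_insert ha, mul_comm]
    cases j with
    | zero =>
      rw [mul_coeff_zero, map_mul, coeff_sub, coeff_X_zero, coeff_C_zero, zero_sub,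
        Valuation.map_neg]
      exact mul_le_one' (ih' 0) hza
    | succ j =>
      rw [coeff_mul_X_sub_C]
      refine (v.map_sub _ _).trans (max_le (ih' j) ?_)
      rw [map_mul]
      exact mul_le_one' (ih' _) hza

theorem coeff_lt {ι : Type} [DecidableEq ι] (F : Finset ι) (z : ι → ℂ)
    (hz : ∀ i ∈ F, v (z i) < 1) : ∀ j < F.card, v ((∏ i ∈ F, (X - C (z i))).coeff j) < 1 := by
  induction F using Finset.induction_on with
  | empty =>
    intro j hj
    simp at hj
  | insert a F ha ih =>
    intro j hj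
    have ih' := ih fun i hi => hz i (Finset.mem_insert_of_mem hi)
    have ih2 := coeff_le (v := v) F z fun i hi => (hz i (Finset.mem_insert_of_mem hi)).le
    have hza := hz a (Finset.mem_insert_self a F)
    rw [Finset.card_insert_of_notMem ha] at hj
    rw [Finset.prod_insert ha, mul_comm]
    cases j with
    | zero =>
      rw [mul_coeff_zero, map_mul, coeff_sub, coeff_X_zero, coeff_C_zero, zero_sub,
        Valuation.map_neg]
      refine lt_of_le_of_lt (mul_le_mul' (ih2 0) le_rfl) ?_
      rw [one_mul]; exact hza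
    | succ j =>
      rw [coeff_mul_X_sub_C]
      refine (v.map_sub _ _).trans_lt (max_lt (ih' j (by omega)) ?_)
      rw [map_mul]
      refine lt_of_le_of_lt (mul_le_mul' (ih2 _) le_rfl) ?_
      rw [one_mul]; exact hza

theorem class_bound (h : Above v p) {m : ℕ} (x : Fin m → ℂ) (R : ℤ[X])
    (hR : R.map (Int.castRingHom ℂ) = ∏ i, (X - C (x i))) (F : Finset (Fin m))
    (hF : ∀ i ∈ F, v (x i) < 1) (hF' : ∀ i ∉ F, v (x i) = 1) (hn : F.Nonempty) {y : ℂ}
    (hy : v y < 1) (hRy : aeval y R = 0) :
    v (aeval y (derivative R)) ^ F.card ≤ v (p : ℂ) ^ (F.card - 1) := by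
  classical
  set n := F.card with hnc
  have hn1 : 1 ≤ n := hn.card_pos
  have hcoef : ∀ j, ((R.coeff j : ℤ) : ℂ) = ((∏ i ∈ F, (X - C (x i))) *
      ∏ i ∈ Fᶜ, (X - C (x i))).coeff j := by
    intro j
    rw [Finset.prod_mul_prod_compl, ← hR, coeff_map]
    rfl
  have hAlt := coeff_lt (v := v) F x hF
  have hBle := coeff_le (v := v) Fᶜ x fun i hi => (hF' i (Finset.mem_compl.1 hi)).le
  have hlt : ∀ j < n, v ((R.coeff j : ℤ) : ℂ) < 1 := by
    intro j hj
    rw [hcoef, coeff_mul]
    refine v.map_sum_lt one_ne_zero fun ab hab => ?_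
    have hab := Finset.HasAntidiagonal.mem_antidiagonal.1 hab
    rw [map_mul]
    refine lt_of_le_of_lt (mul_le_mul' le_rfl (hBle _)) ?_
    rw [mul_one]
    exact hAlt _ (by omega)
  have hle : ∀ j < n, v ((R.coeff j : ℤ) : ℂ) ≤ v (p : ℂ) :=
    fun j hj => h.le_of_dvd (h.dvd_of_lt (hlt j hj))
  have hAn : (∏ i ∈ F, (X - C (x i))).coeff n = 1 := by
    have h1 : (∏ i ∈ F, (X - C (x i))).Monic := monic_prod_of_monic _ _ fun i _ => monic_X_sub_C _
    have h2 : (∏ i ∈ F, (X - C (x i))).natDegree = n := by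
      rw [natDegree_prod_of_monic _ _ fun i _ => monic_X_sub_C _]
      simp [hnc]
    rw [← h2]
    exact h1.coeff_natDegree
  have hB0 : v ((∏ i ∈ Fᶜ, (X - C (x i))).coeff 0) = 1 := by
    rw [coeff_zero_eq_eval_zero, eval_prod, map_prod]
    refine Finset.prod_eq_one fun i hi => ?_
    rw [eval_sub, eval_X, eval_C, zero_sub, Valuation.map_neg]
    exact hF' i (Finset.mem_compl.1 hi)
  have hcn : v ((R.coeff n : ℤ) : ℂ) = 1 := by
    refine le_antisymm (h.le _) ?_
    by_contra hcon
    push Not at hcon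
    have h1 : ((R.coeff n : ℤ) : ℂ) = (∏ i ∈ Fᶜ, (X - C (x i))).coeff 0 +
        ∑ ab ∈ (Finset.HasAntidiagonal.antidiagonal n).erase (n, 0),
          (∏ i ∈ F, (X - C (x i))).coeff ab.1 * (∏ i ∈ Fᶜ, (X - C (x i))).coeff ab.2 := by
      rw [hcoef, coeff_mul, ← Finset.add_sum_erase _ _
        (Finset.HasAntidiagonal.mem_antidiagonal.2 (add_zero n) : (n, 0) ∈ _), hAn, one_mul]
    have h2 : v (∑ ab ∈ (Finset.HasAntidiagonal.antidiagonal n).erase (n, 0),
          (∏ i ∈ F, (X - C (x i))).coeff ab.1 * (∏ i ∈ Fᶜ, (X - C (x i))).coeff ab.2) < 1 := by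
      refine v.map_sum_lt one_ne_zero fun ab hab => ?_
      rw [Finset.mem_erase] at hab
      obtain ⟨hab1, hab2⟩ := hab
      have hab2 := Finset.HasAntidiagonal.mem_antidiagonal.1 hab2
      have hab3 : ab.1 < n := by
        rcases Nat.lt_or_ge ab.1 n with h0 | h0
        · exact h0
        · exfalso
          apply hab1
          exact Prod.ext (by simp; omega) (by simp; omega)
      rw [map_mul]
      refine lt_of_le_of_lt (mul_le_mul' le_rfl (hBle _)) ?_
      rw [mul_one]
      exact hAlt _ hab3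
    have h3 : v ((∏ i ∈ Fᶜ, (X - C (x i))).coeff 0) < 1 := by
      have h4 : (∏ i ∈ Fᶜ, (X - C (x i))).coeff 0 = ((R.coeff n : ℤ) : ℂ) -
        ∑ ab ∈ (Finset.HasAntidiagonal.antidiagonal n).erase (n, 0),
          (∏ i ∈ F, (X - C (x i))).coeff ab.1 * (∏ i ∈ Fᶜ, (X - C (x i))).coeff ab.2 := by
        rw [h1]; ring
      rw [h4]
      exact (v.map_sub _ _).trans_lt (max_lt hcon h2)
    rw [hB0] at h3
    exact lt_irrefl _ h3
  have hdeg : R.natDegree = m := by
    have h1 := congrArg natDegree hR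
    rw [natDegree_map_eq_of_injective (RingHom.injective_int _),
      natDegree_prod_of_monic _ _ fun i _ => monic_X_sub_C _] at h1
    simpa using h1
  have hnm : n ≤ m := by
    rw [hnc]
    exact (Finset.card_le_univ F).trans (by simp)
  -- the root
  have hyn : v y ^ n ≤ v (p : ℂ) := by
    by_contra hcon
    push Not at hcon
    have hy0 : 0 < v y := by
      rw [zero_lt_iff]
      intro h0
      rw [h0, zero_pow (by omega)] at hcon
      exact absurd hcon (not_lt.2 zero_le)
    rw [aeval_eq_sum_range, hdeg, ← Finset.add_sum_erase _ _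
      (Finset.mem_range.2 (by omega) : n ∈ range (m + 1))] at hRy
    have h1 : R.coeff n • y ^ n = -∑ j ∈ (range (m + 1)).erase n, R.coeff j • y ^ j := by
      linear_combination hRy
    have h2 : v (R.coeff n • y ^ n) = v y ^ n := by
      rw [zsmul_eq_mul, map_mul, hcn, one_mul, map_pow]
    have h3 : v (R.coeff n • y ^ n) < v y ^ n := by
      rw [h1, Valuation.map_neg]
      refine v.map_sum_lt (pow_pos hy0 n).ne' fun j hj => ?_
      rw [Finset.mem_erase] at hj
      rw [zsmul_eq_mul, map_mul, map_pow]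
      rcases lt_or_gt_of_ne hj.1 with h0 | h0
      · refine lt_of_le_of_lt (mul_le_mul' (hle j h0) (pow_le_one' hy.le j)) ?_
        rw [mul_one]; exact hcon
      · refine lt_of_le_of_lt (mul_le_mul' (h.le _) le_rfl) ?_
        rw [one_mul]
        exact pow_lt_pow_right_of_lt_one₀ hy0 hy h0
    rw [h2] at h3
    exact lt_irrefl _ h3
  -- the derivative
  by_contra hcon
  push Not at hcon
  set S := aeval y (derivative R) with hS
  have hS0 : v S ≠ 0 := by
    intro h0
    rw [h0, zero_pow (by omega)] at hcon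
    exact absurd hcon (not_lt.2 zero_le)
  have h1 : v S < v S := by
    conv_lhs => rw [hS, aeval_eq_sum_range]
    refine v.map_sum_lt hS0 fun j _ => ?_
    rw [zsmul_eq_mul, map_mul, map_pow]
    have h2 : (v (((derivative R).coeff j : ℤ) : ℂ) * v y ^ j) ^ n ≤ v (p : ℂ) ^ (n - 1) := by
      have h3 : v (((derivative R).coeff j : ℤ) : ℂ) ≤ v ((R.coeff (j + 1) : ℤ) : ℂ) := by
        rw [coeff_derivative]
        push_cast
        rw [map_mul]
        calc v (R.coeff (j + 1) : ℂ) * v ((j : ℂ) + 1) ≤ v (R.coeff (j + 1) : ℂ) * 1 := by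
              refine mul_le_mul' le_rfl ?_
              have := h.nat_le (j + 1)
              push_cast at this
              exact this
          _ = _ := mul_one _
      rcases Nat.lt_or_ge (j + 1) n with h0 | h0
      · have h4 : v (((derivative R).coeff j : ℤ) : ℂ) * v y ^ j ≤ v (p : ℂ) := by
          refine (mul_le_mul' (h3.trans (hle _ h0)) (pow_le_one' hy.le j)).trans ?_
          rw [mul_one]
        exact (pow_le_pow_left' h4 n).trans (h.pow_le (by omega))
      · have h4 : v (((derivative R).coeff j : ℤ) : ℂ) * v y ^ j ≤ v y ^ (n - 1) := by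
          refine (mul_le_mul' (h.le _) (pow_le_pow_right_of_le_one' hy.le
            (by omega : n - 1 ≤ j))).trans ?_
          rw [one_mul]
        refine (pow_le_pow_left' h4 n).trans ?_
        rw [← pow_mul, mul_comm, pow_mul]
        exact pow_le_pow_left' hyn _
    have h5 := h2.trans_lt hcon
    exact lt_of_pow_lt_pow_left' n h5
  exact lt_irrefl _ h1

/-- the number of the classes -/
noncomputable def ncl (p : ℕ) (Q : ℤ[X]) (c : ℤ) : ℕ :=
  ((range p).filter fun t : ℕ => (p : ℤ) ∣ Q.eval (c + (t : ℤ))).card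

theorem disc_val (h : Above v p) {m : ℕ} (x : Fin m → ℂ) (Q : ℤ[X])
    (hQ : Q.map (Int.castRingHom ℂ) = ∏ i, (X - C (x i))) (hint : ∀ i, v (x i) ≤ 1) (c : ℤ)
    (cl : Fin m → ℕ) (hcl : ∀ i, cl i < p) (hx : ∀ i, v (x i - (c + cl i)) < 1) :
    v (∏ i, aeval (x i) (derivative Q)) ≤ v (p : ℂ) ^ (m - ncl p Q c) := by
  classical
  rw [map_prod, ← Finset.prod_fiberwise_of_maps_to (t := range p) (g := cl)
    (fun i _ => Finset.mem_range.2 (hcl i))]
  have hint2 : ∀ (i : Fin m) (a : ℕ), v (x i - (c + a)) ≤ 1 := by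
    intro i a
    refine (v.map_sub _ _).trans (max_le (hint i) ((v.map_add _ _).trans
      (max_le (h.le c) (h.nat_le a))))
  have hroot : ∀ y : ℂ, aeval y Q = ∏ i, (y - x i) := by
    intro y
    have h1 : aeval y Q = (Q.map (Int.castRingHom ℂ)).eval y := by
      rw [eval_map]; rfl
    rw [h1, hQ, eval_prod]
    simp
  have key : ∀ a ∈ range p, ∏ i ∈ univ.filter (fun i => cl i = a),
      v (aeval (x i) (derivative Q)) ≤
      v (p : ℂ) ^ ((univ.filter (fun i => cl i = a)).card - 1) := by
    intro a ha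
    rw [Finset.mem_range] at ha
    rcases (univ.filter (fun i => cl i = a)).eq_empty_or_nonempty with h0 | h0
    · rw [h0]; simp
    set F := univ.filter (fun i => cl i = a) with hF
    set R : ℤ[X] := Q.comp (X + C (c + a)) with hR
    have hRm : R.map (Int.castRingHom ℂ) = ∏ i, (X - C (x i - (c + a))) := by
      rw [hR, Polynomial.map_comp, hQ, Polynomial.prod_comp]
      refine Finset.prod_congr rfl fun i _ => ?_
      simp only [Polynomial.map_add, map_X, map_C, sub_comp, X_comp, C_comp]
      simp only [map_sub, map_add, eq_intCast, Int.cast_add, Int.cast_natCast, map_natCast]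
      ring
    have hder : ∀ i, aeval (x i - (c + a)) (derivative R) = aeval (x i) (derivative Q) := by
      intro i
      rw [hR, derivative_comp]
      simp only [derivative_add, derivative_X, derivative_C, add_zero, one_mul, aeval_comp,
        map_add, aeval_X]
      congr 1
      simp
    have hR0 : ∀ i, aeval (x i - (c + a)) R = 0 := by
      intro i
      rw [hR, aeval_comp]
      have h1 : aeval (x i - (c + a)) (X + C (c + a) : ℤ[X]) = x i := by
        simp
      rw [h1, hroot]
      exact Finset.prod_eq_zero (Finset.mem_univ i) (sub_self _)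
    have hb : ∀ i ∈ F, v (aeval (x i) (derivative Q)) ^ F.card ≤ v (p : ℂ) ^ (F.card - 1) := by
      intro i hi
      have hlt : ∀ i ∈ F, v (x i - (c + a)) < 1 := by
        intro i hi
        rw [hF, Finset.mem_filter] at hi
        have := hx i
        rw [hi.2] at this
        exact this
      rw [← hder]
      refine class_bound h _ R hRm F hlt ?_ h0 (hlt i hi) (hR0 i)
      intro i hi
      refine le_antisymm (hint2 i a) ?_
      by_contra hcon
      push Not at hcon
      have h1 : v ((((cl i : ℤ) - a : ℤ)) : ℂ) < 1 := by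
        have h2 : ((((cl i : ℤ) - a : ℤ)) : ℂ) = (x i - (c + a)) - (x i - (c + cl i)) := by
          push_cast; ring
        rw [h2]
        exact (v.map_sub _ _).trans_lt (max_lt hcon (hx i))
      have h2 := h.dvd_of_lt h1
      have h3 : (cl i : ℤ) - a = 0 := by
        apply Int.eq_zero_of_abs_lt_dvd h2
        rw [abs_lt]
        have := hcl i
        constructor <;> omega
      apply hi
      rw [hF, Finset.mem_filter]
      exact ⟨Finset.mem_univ _, by omega⟩
    have h1 : (∏ i ∈ F, v (aeval (x i) (derivative Q))) ^ F.card ≤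
        (v (p : ℂ) ^ (F.card - 1)) ^ F.card := by
      rw [← Finset.prod_pow]
      exact Finset.prod_le_pow_card F _ _ hb
    exact (pow_le_pow_iff_left₀ zero_le zero_le h0.card_pos.ne').1 h1
  refine (Finset.prod_le_prod' key).trans ?_
  rw [Finset.prod_pow_eq_pow_sum]
  apply h.pow_le
  have h1 : m = ∑ a ∈ range p, (univ.filter (fun i => cl i = a)).card := by
    have := Finset.card_eq_sum_card_fiberwise (s := (univ : Finset (Fin m))) (f := cl)
      (t := range p) (fun i _ => Finset.mem_coe.2 (Finset.mem_range.2 (hcl i)))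
    simpa using this
  have h2 : ∑ a ∈ range p, (univ.filter (fun i => cl i = a)).card ≤
      ∑ a ∈ range p, (((univ.filter (fun i => cl i = a)).card - 1) +
        if (p : ℤ) ∣ Q.eval (c + (a : ℤ)) then 1 else 0) := by
    refine Finset.sum_le_sum fun a ha => ?_
    rcases (univ.filter (fun i => cl i = a)).eq_empty_or_nonempty with h0 | h0
    · rw [h0]; simp
    · obtain ⟨i, hi⟩ := h0
      have hc := Finset.card_pos.2 ⟨i, hi⟩
      rw [Finset.mem_filter] at hi
      have h3 : (p : ℤ) ∣ Q.eval (c + (a : ℤ)) := by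
        apply h.dvd_of_lt
        have h4 : ((Q.eval (c + (a : ℤ)) : ℤ) : ℂ) = ∏ i, ((c + a : ℂ) - x i) := by
          rw [← hroot]
          have := Polynomial.aeval_algebraMap_apply ℂ (c + (a : ℤ)) Q
          simp only [algebraMap_int_eq, eq_intCast] at this
          rw [coe_aeval_eq_eval] at this
          rw [← this]
          push_cast
          rfl
        rw [h4, map_prod, ← Finset.mul_prod_erase _ _ (Finset.mem_univ i)]
        refine lt_of_le_of_lt (mul_le_mul' le_rfl (Finset.prod_le_one' fun j _ => ?_)) ?_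
        · rw [Valuation.map_sub_swap]; exact hint2 j a
        · rw [mul_one, Valuation.map_sub_swap]
          have := hx i
          rw [hi.2] at this
          exact this
      rw [if_pos h3]
      omega
  rw [Finset.sum_add_distrib] at h2
  have h3 : ∑ a ∈ range p, (if (p : ℤ) ∣ Q.eval (c + (a : ℤ)) then 1 else 0) = ncl p Q c := by
    rw [ncl, Finset.card_filter]
  rw [h3] at h2
  omega

/-- the divisibility of the product of the values -/
theorem count_val (hp : p.Prime) (Q : ℤ[X]) (c : ℤ) (L : ℕ)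
    (hW : ∏ t ∈ range L, Q.eval (c + (t : ℤ)) ≠ 0) :
    ncl p Q c * (L / p) ≤ padicValNat p (∏ t ∈ range L, Q.eval (c + (t : ℤ))).natAbs := by
  classical
  have : Fact p.Prime := ⟨hp⟩
  set T := (range L).filter fun t : ℕ => (p : ℤ) ∣ Q.eval (c + (t : ℤ)) with hT
  have h1 : ncl p Q c * (L / p) ≤ T.card := by
    rw [ncl, ← Finset.card_range (L / p), mul_comm, ← Finset.card_product]
    refine Finset.card_le_card_of_injOn (fun st => p * st.1 + st.2) ?_ ?_
    · rintro ⟨s, t⟩ hst
      simp only [Finset.coe_product, Set.mem_prod, Finset.mem_coe, Finset.mem_range,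
        Finset.mem_filter, Finset.card_range] at hst
      obtain ⟨hs, ht, hd⟩ := hst
      simp only [hT, Finset.mem_coe, Finset.mem_filter, Finset.mem_range]
      refine ⟨?_, ?_⟩
      · have h2 : p * (s + 1) ≤ p * (L / p) := Nat.mul_le_mul_left _ hs
        have h3 : p * (L / p) ≤ L := Nat.mul_div_le L p
        have h4 : p * (s + 1) = p * s + p := by ring
        omega
      · have h2 : (p : ℤ) ∣ (c + ((p * s + t : ℕ) : ℤ)) - (c + (t : ℤ)) := by
          push_cast
          exact ⟨s, by ring⟩
        have h3 := h2.trans (Polynomial.sub_dvd_eval_sub _ _ Q)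
        exact (dvd_sub_left hd).1 h3
    · rintro ⟨s, t⟩ hst ⟨s', t'⟩ hst' heq
      simp only [Finset.coe_product, Set.mem_prod, Finset.mem_coe, Finset.mem_range,
        Finset.mem_filter, Finset.card_range] at hst hst'
      have heq : p * s + t = p * s' + t' := heq
      have h2 : t = t' := by
        have := congrArg (· % p) heq
        simp only [Nat.mul_add_mod, Nat.mod_eq_of_lt hst.2.1, Nat.mod_eq_of_lt hst'.2.1] at this
        exact this
      have h3 : s = s' := by
        rw [h2] at heq
        exact Nat.eq_of_mul_eq_mul_left hp.pos (by omega)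
      rw [h2, h3]
  refine h1.trans ?_
  rw [← padicValNat_dvd_iff_le (Int.natAbs_ne_zero.2 hW), ← Int.natCast_dvd]
  push_cast
  have h2 : (p : ℤ) ^ T.card = ∏ _t ∈ T, (p : ℤ) := by rw [Finset.prod_const]
  rw [h2]
  refine (Finset.prod_dvd_prod_of_dvd _ _ fun t ht => (Finset.mem_filter.1 ht).2).trans ?_
  exact Finset.prod_dvd_prod_of_subset _ _ _ (Finset.filter_subset _ _)

/-- the classes of the Chern roots for the large primes -/
theorem classes (h : Above v p) {N r : ℕ} {P : ℤ[X]} (hP : P.Monic) (hr : P.natDegree = r)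
    (hT : AllInt N (rootsOf P)) (hrp : r < p) (hpN : p + 2 * r ≤ N + 1)
    (hpd : ¬ p ∣ (P.coeff 0).natAbs) (c : ℤ) :
    ∀ β ∈ rootsOf P, ∃ t < p, v (β - (c + (t : ℕ))) < 1 := by
  intro β hβ
  have hp := h.prime
  have : NeZero p := ⟨hp.ne_zero⟩
  have hroot : aeval β P = 0 := by
    have := (Polynomial.mem_roots (hP.map (Int.castRingHom ℂ)).ne_zero).1 hβ
    rw [Polynomial.IsRoot.def, eval_map] at this
    rw [aeval_def]
    exact this
  have hβ1 := val_root h hP hroot
  obtain ⟨x, hx⟩ := FIN.loc t_KOS t_LSP N r P hP hr _ rfl (fun t => hT 0 t) (fun t => by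
    obtain ⟨z, hz⟩ := hT 1 t
    exact ⟨z, hz⟩) p hp hrp hpN (by
      intro hd
      apply hpd
      have h1 := Int.natAbs_dvd_natAbs.2 hd
      rw [Int.natAbs_natCast, Int.natAbs_mul, Int.natAbs_pow, Int.natAbs_neg, Int.natAbs_one,
        one_pow, one_mul] at h1
      exact h1)
  -- a lift
  set A : ℤ[X] := ∏ i, (X - C (((x i).val : ℕ) : ℤ)) with hA
  have hmap : (P - A).map (Int.castRingHom (ZMod p)) = 0 := by
    rw [Polynomial.map_sub, hx, hA, Polynomial.map_prod, sub_eq_zero]
    refine Finset.prod_congr rfl fun i _ => ?_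
    rw [Polynomial.map_sub, map_X, map_C, eq_intCast, Int.cast_natCast, ZMod.natCast_zmod_val]
  have hdvd : ∀ j, (p : ℤ) ∣ (P - A).coeff j := by
    intro j
    rw [← ZMod.intCast_zmod_eq_zero_iff_dvd]
    have := congrArg (fun f => f.coeff j) hmap
    simp only [coeff_map, coeff_zero] at this
    exact this
  have hval : v (aeval β (P - A)) ≤ v (p : ℂ) := by
    rw [aeval_eq_sum_range]
    refine v.map_sum_le fun j _ => ?_
    rw [zsmul_eq_mul, map_mul, map_pow]
    refine (mul_le_mul' (h.le_of_dvd (hdvd j)) (pow_le_one' hβ1 j)).trans ?_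
    rw [mul_one]
  rw [map_sub, hroot, zero_sub, Valuation.map_neg] at hval
  have hA2 : aeval β A = ∏ i, (β - ((x i).val : ℕ)) := by
    rw [hA, map_prod]
    refine Finset.prod_congr rfl fun i _ => ?_
    rw [map_sub, aeval_X, aeval_C]
    simp only [algebraMap_int_eq, eq_intCast, Int.cast_natCast]
  rw [hA2, map_prod] at hval
  obtain ⟨i, -, hi⟩ : ∃ i ∈ (univ : Finset (Fin r)), v (β - ((x i).val : ℕ)) < 1 := by
    by_contra hcon
    push Not at hcon
    have h1 : 1 ≤ ∏ i, v (β - ((x i).val : ℕ)) := Finset.one_le_prod' hcon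
    exact absurd (h1.trans hval) (not_le.2 h.lt)
  refine ⟨(((((x i).val : ℤ) - c) % p).toNat), ?_, ?_⟩
  · have h1 := Int.emod_lt_of_pos (((x i).val : ℤ) - c) (by exact_mod_cast hp.pos : (0 : ℤ) < p)
    have h2 := Int.emod_nonneg (((x i).val : ℤ) - c) (by exact_mod_cast hp.ne_zero : (p : ℤ) ≠ 0)
    omega
  · have h2 := Int.emod_nonneg (((x i).val : ℤ) - c) (by exact_mod_cast hp.ne_zero : (p : ℤ) ≠ 0)
    have h3 : ((((((x i).val : ℤ) - c) % p).toNat : ℕ) : ℂ) = (((((x i).val : ℤ) - c) % p : ℤ) : ℂ) := by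
      have : ((((((x i).val : ℤ) - c) % p).toNat : ℕ) : ℤ) = (((x i).val : ℤ) - c) % p :=
        Int.toNat_of_nonneg h2
      exact_mod_cast congrArg (fun z : ℤ => (z : ℂ)) this
    rw [h3]
    have h4 : (p : ℤ) ∣ ((x i).val : ℤ) - c - (((x i).val : ℤ) - c) % p := Int.dvd_self_sub_emod
    have h5 : β - ((c : ℂ) + (((((x i).val : ℤ) - c) % p : ℤ) : ℂ)) = (β - ((x i).val : ℕ)) +
        ((((x i).val : ℤ) - c - (((x i).val : ℤ) - c) % p : ℤ) : ℂ) := by
      push_cast; ring
    rw [h5]
    exact v.map_add_lt hi ((h.le_of_dvd h4).trans_lt h.lt)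

end Pool.Agent.U429.UF
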