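import Mathlib

/-!
# Upper bounds for products of consecutive numbers shifted by a complex number
-/

set_option autoImplicit false

open Finset

namespace Pool.Agent.U429.UF

theorem fact_aux {L a l : ℕ} (h1 : a ≤ l) (h2 : 2 * l ≤ L + 1) (h3 : l ≤ L) :
    l.factorial * (L - l).factorial ≤ a.factorial * (L - a).factorial := by
  induction l, h1 using Nat.le_induction with
  | base => exact le_rfl
  | succ l hl ih =>
    refine le_trans ?_ (ih (by omega) (by omega))
    obtain ⟨k, hk⟩ : ∃ k, L - l = k + 1 := ⟨L - l - 1, by omega⟩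
    have h4 : L - (l + 1) = k := by omega
    rw [h4, hk, Nat.factorial_succ l, Nat.factorial_succ k]
    have h5 : l + 1 ≤ k + 1 := by omega
    calc (l + 1) * l.factorial * k.factorial = (l + 1) * (l.factorial * k.factorial) := by ring
      _ ≤ (k + 1) * (l.factorial * k.factorial) := Nat.mul_le_mul_right _ h5
      _ = _ := by ring

theorem fact_mul_le {L a l : ℕ} (h1 : a ≤ l) (h2 : l + a ≤ L) :
    l.factorial * (L - l).factorial ≤ a.factorial * (L - a).factorial := by
  rcases Nat.lt_or_ge (L + 1) (2 * l) with h | h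
  · have := fact_aux (L := L) (a := a) (l := L - l) (by omega) (by omega) (by omega)
    rw [show L - (L - l) = l by omega, mul_comm] at this
    exact this
  · exact fact_aux h1 h (by omega)

theorem fact_add_le (l V : ℕ) : (l + V).factorial ≤ l.factorial * (l + V) ^ V := by
  induction V with
  | zero => simp
  | succ V ih =>
    rw [← add_assoc, Nat.factorial_succ]
    calc (l + V + 1) * (l + V).factorial ≤ (l + V + 1) * (l.factorial * (l + V) ^ V) :=
          Nat.mul_le_mul_left _ ih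
      _ ≤ (l + V + 1) * (l.factorial * (l + V + 1) ^ V) :=
          Nat.mul_le_mul_left _ (Nat.mul_le_mul_left _ (Nat.pow_le_pow_left (Nat.le_succ _) _))
      _ = _ := by rw [pow_succ]; ring

theorem prod_shift (l V : ℕ) :
    ∏ j ∈ range l, ((j : ℝ) + 1 + V) ≤ (l.factorial : ℝ) * ((l : ℝ) + V) ^ V := by
  have h1 : ∏ j ∈ range l, ((j : ℝ) + 1 + V) = (((V + 1).ascFactorial l : ℕ) : ℝ) := by
    rw [Nat.ascFactorial_eq_prod_range]
    push_cast
    refine Finset.prod_congr rfl fun j _ => ?_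
    ring
  rw [h1]
  have h2 : (V + 1).ascFactorial l ≤ l.factorial * (l + V) ^ V := by
    refine le_trans ?_ (fact_add_le l V)
    have h3 := Nat.factorial_mul_ascFactorial V l
    rw [add_comm l V, ← h3]
    exact Nat.le_mul_of_pos_left _ V.factorial_pos
  exact_mod_cast h2

theorem upper {a M V : ℕ} {β : ℂ} (h1 : 1 ≤ β.re) (h2 : β.re ≤ M) (h3 : |β.im| ≤ V) :
    ‖∏ i ∈ range (M + 2 * a + 1), (β - ((-(a : ℤ) : ℤ) : ℂ) - i)‖ ≤
      (a.factorial : ℝ) * ((M + a + 1).factorial : ℝ) * (((M + 2 * a + 1 + V : ℕ) : ℝ)) ^ (2 * V) := by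
  set L := M + 2 * a + 1 with hL
  set x := β.re + a with hx
  have hx0 : 0 ≤ x := by positivity
  set n := ⌊x⌋₊ with hn
  have hn1 : (n : ℝ) ≤ x := Nat.floor_le hx0
  have hn2 : x < n + 1 := Nat.lt_floor_add_one x
  have hn3 : a + 1 ≤ n := by
    apply Nat.le_floor
    push_cast
    linarith
  have hn4 : n ≤ M + a := by
    have : (n : ℝ) ≤ ((M + a : ℕ) : ℝ) := by push_cast; linarith
    exact_mod_cast this
  have hnorm : ∀ i : ℕ, ‖β - ((-(a : ℤ) : ℤ) : ℂ) - i‖ ≤ |x - i| + V := by
    intro i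
    refine (Complex.norm_le_abs_re_add_abs_im _).trans ?_
    have e1 : (β - ((-(a : ℤ) : ℤ) : ℂ) - i).re = x - i := by
      simp [hx]
    have e2 : (β - ((-(a : ℤ) : ℤ) : ℂ) - i).im = β.im := by
      simp
    rw [e1, e2]
    linarith
  rw [norm_prod]
  have hsplit : L = (n + 1) + (L - (n + 1)) := by omega
  rw [hsplit, Finset.prod_range_add]
  have hA : ∏ i ∈ range (n + 1), ‖β - ((-(a : ℤ) : ℤ) : ℂ) - i‖ ≤
      ((n + 1).factorial : ℝ) * (((n + 1 : ℕ) : ℝ) + V) ^ V := by
    refine le_trans ?_ (prod_shift (n + 1) V)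
    rw [← Finset.prod_range_reflect (fun j : ℕ => ((j : ℝ) + 1 + V))]
    refine Finset.prod_le_prod (fun i _ => norm_nonneg _) fun i hi => ?_
    rw [mem_range] at hi
    refine (hnorm i).trans ?_
    have hi' : (i : ℝ) ≤ n := by exact_mod_cast Nat.lt_succ_iff.1 hi
    rw [abs_of_nonneg (by linarith), show n + 1 - 1 - i = n - i by omega,
      Nat.cast_sub (by omega)]
    linarith
  have hB : ∏ i ∈ range (L - (n + 1)), ‖β - ((-(a : ℤ) : ℤ) : ℂ) - ((n + 1 + i : ℕ) : ℂ)‖ ≤
      ((L - (n + 1)).factorial : ℝ) * (((L - (n + 1) : ℕ) : ℝ) + V) ^ V := by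
    refine le_trans ?_ (prod_shift (L - (n + 1)) V)
    refine Finset.prod_le_prod (fun i _ => norm_nonneg _) fun i _ => ?_
    refine (hnorm (n + 1 + i)).trans ?_
    have hi0 : (0 : ℝ) ≤ i := Nat.cast_nonneg i
    rw [abs_of_nonpos (by push_cast; linarith)]
    push_cast
    linarith
  have hfac : (n + 1).factorial * (L - (n + 1)).factorial ≤ a.factorial * (L - a).factorial :=
    fact_mul_le (by omega) (by omega)
  have hLa : L - a = M + a + 1 := by omega
  rw [hLa] at hfac
  have hfac' : ((n + 1).factorial : ℝ) * ((L - (n + 1)).factorial : ℝ) ≤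
      (a.factorial : ℝ) * ((M + a + 1).factorial : ℝ) := by exact_mod_cast hfac
  have hb1 : (((n + 1 : ℕ) : ℝ) + V) ^ V ≤ (((L + V : ℕ) : ℝ)) ^ V := by
    apply pow_le_pow_left₀ (by positivity)
    have : n + 1 + V ≤ L + V := by omega
    exact_mod_cast this
  have hb2 : (((L - (n + 1) : ℕ) : ℝ) + V) ^ V ≤ (((L + V : ℕ) : ℝ)) ^ V := by
    apply pow_le_pow_left₀ (by positivity)
    have : L - (n + 1) + V ≤ L + V := by omega
    exact_mod_cast this
  calc (∏ i ∈ range (n + 1), ‖β - ((-(a : ℤ) : ℤ) : ℂ) - i‖) *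
        ∏ i ∈ range (L - (n + 1)), ‖β - ((-(a : ℤ) : ℤ) : ℂ) - ((n + 1 + i : ℕ) : ℂ)‖ ≤
      (((n + 1).factorial : ℝ) * (((n + 1 : ℕ) : ℝ) + V) ^ V) *
        (((L - (n + 1)).factorial : ℝ) * (((L - (n + 1) : ℕ) : ℝ) + V) ^ V) :=
        mul_le_mul hA hB (Finset.prod_nonneg fun i _ => norm_nonneg _) (by positivity)
    _ = (((n + 1).factorial : ℝ) * ((L - (n + 1)).factorial : ℝ)) *
        ((((n + 1 : ℕ) : ℝ) + V) ^ V * (((L - (n + 1) : ℕ) : ℝ) + V) ^ V) := by ring
    _ ≤ ((a.factorial : ℝ) * ((M + a + 1).factorial : ℝ)) *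
        ((((L + V : ℕ) : ℝ)) ^ V * (((L + V : ℕ) : ℝ)) ^ V) := by gcongr
    _ = _ := by
        rw [← pow_add, two_mul]
        congr 3
        omega

theorem log_fact_le {n : ℕ} (hn : 1 ≤ n) :
    Real.log (n.factorial : ℝ) ≤ n * Real.log n - n + Real.log n + 1 := by
  induction n, hn using Nat.le_induction with
  | base => simp
  | succ n hn ih =>
    have hn0 : (0 : ℝ) < n := by exact_mod_cast hn
    have h1 : Real.log ((n + 1).factorial : ℝ) = Real.log ((n : ℝ) + 1) + Real.log (n.factorial : ℝ) := by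
      rw [Nat.factorial_succ, Nat.cast_mul, Real.log_mul (by positivity)
        (by exact_mod_cast n.factorial_ne_zero)]
      push_cast
      rfl
    have h2 : 1 / ((n : ℝ) + 1) ≤ Real.log ((n : ℝ) + 1) - Real.log n := by
      rw [← Real.log_div (by positivity) hn0.ne']
      have h3 := Real.one_sub_inv_le_log_of_pos (x := ((n : ℝ) + 1) / n) (by positivity)
      refine le_trans (le_of_eq ?_) h3
      field_simp
      ring
    have h4 : 1 ≤ ((n : ℝ) + 1) * (Real.log ((n : ℝ) + 1) - Real.log n) := by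
      have := mul_le_mul_of_nonneg_left h2 (by positivity : (0 : ℝ) ≤ (n : ℝ) + 1)
      rwa [mul_one_div_cancel (by positivity)] at this
    rw [h1]
    push_cast
    nlinarith

/-- the gain -/
theorem gain {a b : ℕ} (ha : 1 ≤ a) (hb : 1 ≤ b) :
    a * Real.log (((a : ℝ) + b) / a) + b * Real.log (((a : ℝ) + b) / b) - Real.log a -
      Real.log b - 2 ≤ Real.log ((a + b).factorial : ℝ) - Real.log (a.factorial : ℝ) -
        Real.log (b.factorial : ℝ) := by
  have ha0 : (0 : ℝ) < a := by exact_mod_cast ha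
  have hb0 : (0 : ℝ) < b := by exact_mod_cast hb
  have h1 := log_fact_le ha
  have h2 := log_fact_le hb
  have h3 := Stirling.le_log_factorial_stirling (n := a + b) (by omega)
  have h4 : 0 ≤ Real.log ((a + b : ℕ) : ℝ) := Real.log_natCast_nonneg _
  have h5 : 0 ≤ Real.log (2 * Real.pi) := by
    apply Real.log_nonneg
    have := Real.pi_gt_three
    linarith
  rw [Real.log_div (by positivity) ha0.ne', Real.log_div (by positivity) hb0.ne']
  push_cast at h3 h4
  nlinarith

end Pool.Agent.U429.UF
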