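import Pool.Agent.U429.UF.Roots
import Pool.Agent.U429.UF.Large
import Pool.Agent.U429.UF.Upper
import Pool.Agent.U429.UF.Arith
import Pool.Agent.U429.VV.Main

/-!
# The main inequality for an irreducible factor
-/

set_option autoImplicit false

open Finset Polynomial

namespace Pool.Agent.U429.UF

open Pool.Agent.N17.HC Pool.Agent.N17.CK

theorem Above.int_eq {Γ : Type} [LinearOrderedCommGroupWithZero Γ] {v : Valuation ℂ Γ} {p : ℕ}
    (h : Above v p) {z : ℤ} (hz : z ≠ 0) : v (z : ℂ) = v (p : ℂ) ^ padicValNat p z.natAbs := by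
  have h1 : v (z : ℂ) = v ((z.natAbs : ℕ) : ℂ) := by
    rcases Int.natAbs_eq z with h0 | h0
    · conv_lhs => rw [h0]
      simp
    · conv_lhs => rw [h0]
      simp [Valuation.map_neg]
  rw [h1, h.nat_eq (Int.natAbs_ne_zero.2 hz)]

/-- an irreducible factor of degree at least two has no integral roots -/
theorem eval_ne {Q : ℤ[X]} (hQ : Q.Monic) (hQi : Irreducible Q) (hm : 2 ≤ Q.natDegree) (z : ℤ) :
    Q.eval z ≠ 0 := by
  intro h0
  obtain ⟨R, hR⟩ := Polynomial.dvd_iff_isRoot.2 (show Q.IsRoot z from h0)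
  have hRm : R.Monic := (Polynomial.monic_X_sub_C z).of_mul_monic_left (by rw [← hR]; exact hQ)
  have hRd : R.natDegree ≠ 0 := by
    intro h1
    have h2 := congrArg natDegree hR
    rw [(Polynomial.monic_X_sub_C z).natDegree_mul hRm, natDegree_X_sub_C, h1] at h2
    omega
  exact MAIN.not_irr z R hRm hRd (by rw [← hR]; exact hQi)

/-- an enumeration of the roots -/
theorem enum {Q : ℤ[X]} (hQ : Q.Monic) : ∃ x : Fin Q.natDegree → ℂ,
    rootsOf Q = Finset.univ.val.map x ∧ Q.map (Int.castRingHom ℂ) = ∏ i, (X - C (x i)) := by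
  obtain ⟨r, f, hf⟩ : ∃ (r : ℕ) (f : Fin r → ℂ), rootsOf Q = Finset.univ.val.map f := by
    induction rootsOf Q using Quotient.inductionOn with
    | _ l =>
      refine ⟨l.length, l.get, ?_⟩
      rw [Fin.univ_val_map, List.ofFn_get]
      rfl
  have hr : r = Q.natDegree := by
    rw [← FIN.card_rootsOf, hf]; simp
  subst hr
  refine ⟨f, hf, ?_⟩
  have h1 := (IsAlgClosed.splits (Q.map (Int.castRingHom ℂ))).eq_prod_roots_of_monic
    (hQ.map (Int.castRingHom ℂ))
  rw [h1]
  change (Multiset.map (fun a => X - C a) (rootsOf Q)).prod = _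
  rw [hf, Multiset.map_map]
  rfl

theorem aeval_prod {Q : ℤ[X]} {m : ℕ} {x : Fin m → ℂ}
    (hx : Q.map (Int.castRingHom ℂ) = ∏ i, (X - C (x i))) (y : ℂ) :
    aeval y Q = ∏ i, (y - x i) := by
  have h1 : aeval y Q = (Q.map (Int.castRingHom ℂ)).eval y := by
    rw [eval_map]; rfl
  rw [h1, hx, eval_prod]
  simp

theorem cast_eval {Q : ℤ[X]} (z : ℤ) : ((Q.eval z : ℤ) : ℂ) = aeval (z : ℂ) Q := by
  have := Polynomial.aeval_algebraMap_apply ℂ z Q
  simp only [algebraMap_int_eq, eq_intCast] at this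
  rw [coe_aeval_eq_eval] at this
  exact this.symm

/-- the discriminant -/
theorem exists_disc {Q : ℤ[X]} (hQ : Q.Monic) (hQi : Irreducible Q) {x : Fin Q.natDegree → ℂ}
    (hx1 : rootsOf Q = Finset.univ.val.map x)
    (hx2 : Q.map (Int.castRingHom ℂ) = ∏ i, (X - C (x i))) :
    ∃ D : ℤ, D ≠ 0 ∧ (D : ℂ) = ∏ i, aeval (x i) (derivative Q) := by
  have hder : ∀ y : ℂ, aeval y (derivative Q) =
      ((derivative Q).map (Int.castRingHom ℂ)).eval y := by
    intro y
    rw [eval_map]; rfl
  have h1 : ((resultant Q (derivative Q) (Q.map (Int.castRingHom ℂ)).natDegree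
      (derivative Q).natDegree : ℤ) : ℂ) = ∏ i, aeval (x i) (derivative Q) := by
    have h2 := resultant_map_map Q (derivative Q) (Q.map (Int.castRingHom ℂ)).natDegree
      (derivative Q).natDegree (Int.castRingHom ℂ)
    rw [resultant_eq_prod_eval _ _ _ natDegree_map_le (IsAlgClosed.splits _),
      (hQ.map (Int.castRingHom ℂ)).leadingCoeff, one_pow, one_mul] at h2
    rw [← eq_intCast (Int.castRingHom ℂ), ← h2]
    change (Multiset.map _ (rootsOf Q)).prod = _
    rw [hx1, Multiset.map_map]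
    exact Finset.prod_congr rfl fun i _ => (hder (x i)).symm
  refine ⟨_, ?_, h1⟩
  intro h0
  rw [h0, Int.cast_zero] at h1
  obtain ⟨i, -, hi⟩ := Finset.prod_eq_zero_iff.1 h1.symm
  have hirr : Irreducible (Q.map (algebraMap ℤ ℚ)) :=
    (hQ.irreducible_iff_irreducible_map_fraction_map (K := ℚ)).1 hQi
  have hsep := hirr.separable
  have hx0 : aeval (x i) (Q.map (algebraMap ℤ ℚ)) = 0 := by
    rw [aeval_map_algebraMap, aeval_prod hx2]
    exact Finset.prod_eq_zero (Finset.mem_univ i) (sub_self _)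
  apply hsep.aeval_derivative_ne_zero hx0
  rw [derivative_map, aeval_map_algebraMap]
  exact hi

theorem disc_norm {Q : ℤ[X]} {x : Fin Q.natDegree → ℂ}
    (hx1 : rootsOf Q = Finset.univ.val.map x)
    (hx2 : Q.map (Int.castRingHom ℂ) = ∏ i, (X - C (x i))) {B : ℝ} (hB : 1 ≤ B)
    (hdist : ∀ i j, ‖x i - x j‖ ≤ B) {D : ℤ}
    (hD : (D : ℂ) = ∏ i, aeval (x i) (derivative Q)) :
    (D.natAbs : ℝ) ≤ (B ^ Q.natDegree) ^ Q.natDegree := by
  classical
  have h1 : ((D.natAbs : ℕ) : ℝ) = ‖(D : ℂ)‖ := by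
    rw [Complex.norm_intCast, Nat.cast_natAbs, Int.cast_abs]
  rw [h1, hD, norm_prod]
  have h2 : ∀ i, ‖aeval (x i) (derivative Q)‖ ≤ B ^ Q.natDegree := by
    intro i
    have h3 : aeval (x i) (derivative Q) =
        (((rootsOf Q).erase (x i)).map fun a => x i - a).prod := by
      rw [← eval_multiset_prod_X_sub_C_derivative (by
        rw [hx1]; exact Multiset.mem_map_of_mem _ (Finset.mem_univ i))]
      have h4 : (Multiset.map (fun a => X - C a) (rootsOf Q)).prod =
          Q.map (Int.castRingHom ℂ) := by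
        rw [hx2, hx1, Multiset.map_map]; rfl
      rw [h4, derivative_map, eval_map]
      rfl
    rw [h3]
    refine (Pool.Agent.U429.VV.norm_prod_le _ B (by linarith) ?_).trans ?_
    · intro y hy
      obtain ⟨z, hz, rfl⟩ := Multiset.mem_map.1 hy
      have hz' := Multiset.mem_of_mem_erase hz
      rw [hx1] at hz'
      obtain ⟨j, -, rfl⟩ := Multiset.mem_map.1 hz'
      exact hdist i j
    · apply pow_le_pow_right₀ hB
      rw [Multiset.card_map]
      refine (Multiset.card_le_card (Multiset.erase_le _ _)).trans ?_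
      rw [FIN.card_rootsOf]
  refine (Finset.prod_le_prod (fun i _ => norm_nonneg _) fun i _ => h2 i).trans ?_
  rw [Finset.prod_const, Finset.card_univ, Fintype.card_fin]

/-- the product of the values -/
theorem cast_W {Q : ℤ[X]} {m : ℕ} {x : Fin m → ℂ}
    (hx2 : Q.map (Int.castRingHom ℂ) = ∏ i, (X - C (x i))) (c : ℤ) (L : ℕ) :
    ((∏ t ∈ range L, Q.eval (c + (t : ℤ)) : ℤ) : ℂ) =
      ∏ i, ∏ t ∈ range L, (-1) * (x i - c - t) := by
  rw [Finset.prod_comm]
  push_cast
  refine Finset.prod_congr rfl fun t _ => ?_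
  have h1 := cast_eval (Q := Q) (c + (t : ℤ))
  rw [h1, aeval_prod hx2]
  refine Finset.prod_congr rfl fun i _ => ?_
  push_cast
  ring

theorem legendre {p L : ℕ} (hp : p.Prime) (h : L < p ^ 2) : padicValNat p L.factorial = L / p := by
  have : Fact p.Prime := ⟨hp⟩
  rcases Nat.eq_zero_or_pos L with h0 | h0
  · subst h0; simp
  · rw [padicValNat_factorial (b := 2) ((Nat.log_lt_iff_lt_pow hp.one_lt (by omega)).2 h)]
    simp

theorem factor_ineq {N r a M V y N' : ℕ} {P Q : ℤ[X]} (s : ℤ) (hr1 : 1 ≤ r) (hP : P.Monic)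
    (hr : P.natDegree = r) (hT : AllInt N (rootsOf P))
    (hprod : (rootsOf P).prod = (((P.coeff 0).natAbs : ℕ) : ℂ)) (hd0 : 0 < (P.coeff 0).natAbs)
    (hroots : ∀ β ∈ rootsOf Q, s + 1 ≤ β.re ∧ β.re ≤ s + M ∧ |β.im| ≤ V)
    (hQ : Q.Monic) (hQi : Irreducible Q) (hQP : Q ∣ P) (hm : 2 ≤ Q.natDegree)
    (hN' : N' + 2 * r = N + 1) (hrN : r ≤ N) (hL1 : M + 2 * a + 1 ≤ 2 * (N - r))
    (hL2 : M + 2 * a + 1 < 2 * (N' + 1)) (hL3 : N' ≤ M + 2 * a + 1) (hy1 : r ≤ y)
    (hy2 : M + 2 * a + 1 < (y + 1) ^ 2) (hM : 1 ≤ M) :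
    Real.log ((M + 2 * a + 1).factorial : ℝ) - Real.log (a.factorial : ℝ) -
        Real.log ((M + a + 1).factorial : ℝ) ≤
      2 * V * Real.log ((M + 2 * a + 1 + V : ℕ) : ℝ) +
      8 * r * (Chebyshev.theta (y : ℝ) + 2 * Real.log (P.coeff 0).natAbs) +
      (((M + 2 * a + 1 : ℕ) : ℝ) / y) * (r * Real.log ((M + 2 * V : ℕ) : ℝ)) +
      (Chebyshev.theta ((M + 2 * a + 1 : ℕ) : ℝ) - Chebyshev.theta (N' : ℝ)) := by
  classical
  set L := M + 2 * a + 1 with hL
  set m := Q.natDegree with hmdef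
  set c : ℤ := s - (a : ℤ) with hc
  obtain ⟨x, hx1, hx2⟩ := enum hQ
  obtain ⟨D, hD0, hD⟩ := exists_disc hQ hQi hx1 hx2
  have hxQ : ∀ i, x i ∈ rootsOf Q := fun i => by
    rw [hx1]; exact Multiset.mem_map_of_mem _ (Finset.mem_univ i)
  have hxP : ∀ i, x i ∈ rootsOf P := fun i => MAIN.rootsOf_sub hP hQP _ (hxQ i)
  have hm0 : (0 : ℝ) < m := by
    have : 0 < m := by omega
    exact_mod_cast this
  set W : ℤ := ∏ t ∈ range L, Q.eval (c + (t : ℤ)) with hW
  have hW0 : W ≠ 0 := Finset.prod_ne_zero_iff.2 fun t _ => eval_ne hQ hQi hm _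
  have hWc := cast_W hx2 c L
  rw [← hW] at hWc
  -- the norm of the discriminant
  have hB1 : (1 : ℝ) ≤ ((M + 2 * V : ℕ) : ℝ) := by
    have : 1 ≤ M + 2 * V := by omega
    exact_mod_cast this
  have hdist : ∀ i j, ‖x i - x j‖ ≤ ((M + 2 * V : ℕ) : ℝ) := by
    intro i j
    obtain ⟨i1, i2, i3⟩ := hroots _ (hxQ i)
    obtain ⟨j1, j2, j3⟩ := hroots _ (hxQ j)
    refine (Complex.norm_le_abs_re_add_abs_im _).trans ?_
    rw [Complex.sub_re, Complex.sub_im]
    have e1 : |(x i).re - (x j).re| ≤ M := by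
      rw [abs_le]; constructor <;> linarith
    have e2 : |(x i).im - (x j).im| ≤ 2 * V := by
      rw [abs_le] at i3 j3 ⊢
      constructor <;> linarith
    push_cast
    linarith
  have hDn := disc_norm hx1 hx2 hB1 hdist hD
  have hDlog : Real.log D.natAbs ≤ m * (r * Real.log ((M + 2 * V : ℕ) : ℝ)) := by
    have h1 : (0 : ℝ) < D.natAbs := by exact_mod_cast Int.natAbs_pos.2 hD0
    have h2 := Real.log_le_log h1 hDn
    rw [Real.log_pow, Real.log_pow] at h2
    refine h2.trans ?_
    have h3 : (m : ℝ) ≤ r := by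
      rw [hmdef, ← hr]
      exact_mod_cast natDegree_le_of_dvd hQP hP.ne_zero
    have h4 : 0 ≤ Real.log ((M + 2 * V : ℕ) : ℝ) := Real.log_nonneg hB1
    exact mul_le_mul_of_nonneg_left (mul_le_mul_of_nonneg_right h3 h4) hm0.le
  -- the norm of the product
  have hWlog : Real.log W.natAbs ≤ m * (Real.log (a.factorial : ℝ) +
      Real.log ((M + a + 1).factorial : ℝ) + 2 * V * Real.log ((L + V : ℕ) : ℝ)) := by
    have h1 : ((W.natAbs : ℕ) : ℝ) = ‖(W : ℂ)‖ := by
      rw [Complex.norm_intCast, Nat.cast_natAbs, Int.cast_abs]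
    set U : ℝ := (a.factorial : ℝ) * ((M + a + 1).factorial : ℝ) *
      (((L + V : ℕ) : ℝ)) ^ (2 * V) with hU
    have h2 : ((W.natAbs : ℕ) : ℝ) ≤ U ^ m := by
      rw [h1, hWc, norm_prod]
      have h3 : ∀ i, ‖∏ t ∈ range L, (-1) * (x i - c - t)‖ ≤ U := by
        intro i
        rw [Finset.prod_mul_distrib, norm_mul, norm_prod]
        simp only [norm_neg, norm_one, Finset.prod_const_one, one_mul]
        obtain ⟨i1, i2, i3⟩ := hroots _ (hxQ i)
        have hup := upper (a := a) (M := M) (V := V) (β := x i - (s : ℂ))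
          (by rw [Complex.sub_re, Complex.intCast_re]; linarith)
          (by rw [Complex.sub_re, Complex.intCast_re]; linarith)
          (by rw [Complex.sub_im, Complex.intCast_im, sub_zero]; exact i3)
        refine le_trans (le_of_eq ?_) hup
        congr 1
        refine Finset.prod_congr rfl fun t _ => ?_
        rw [hc]
        push_cast
        ring
      refine (Finset.prod_le_prod (fun i _ => norm_nonneg _) fun i _ => h3 i).trans ?_
      rw [Finset.prod_const, Finset.card_univ, Fintype.card_fin]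
    have h3 : (0 : ℝ) < W.natAbs := by exact_mod_cast Int.natAbs_pos.2 hW0
    have h4 := Real.log_le_log h3 h2
    have f1 : (a.factorial : ℝ) ≠ 0 := by exact_mod_cast a.factorial_ne_zero
    have f2 : ((M + a + 1).factorial : ℝ) ≠ 0 := by exact_mod_cast (M + a + 1).factorial_ne_zero
    have f3 : ((L + V : ℕ) : ℝ) ≠ 0 := by
      have : L + V ≠ 0 := by omega
      exact_mod_cast this
    rw [Real.log_pow, hU, Real.log_mul (mul_ne_zero f1 f2) (pow_ne_zero _ f3),
      Real.log_mul f1 f2, Real.log_pow] at h4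
    refine h4.trans (le_of_eq ?_)
    push_cast
    ring
  -- the lower bound
  have hlow := lower (N' := N') (r := r) (L := L) (y := y) (m := m)
    (d := (P.coeff 0).natAbs) (D := D.natAbs) (W := W.natAbs) (by omega) hd0.ne'
    (Int.natAbs_ne_zero.2 hD0) (Int.natAbs_ne_zero.2 hW0) hL3 hL2 ?_ ?_ ?_
  · have hy0 : (0 : ℝ) < y := by
      have : 0 < y := by omega
      exact_mod_cast this
    have h1 : ((L : ℝ) / y) * Real.log D.natAbs ≤
        ((L : ℝ) / y) * (m * (r * Real.log ((M + 2 * V : ℕ) : ℝ))) :=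
      mul_le_mul_of_nonneg_left hDlog (by positivity)
    have h3 : (m : ℝ) * (Real.log (L.factorial : ℝ) - Real.log (a.factorial : ℝ) -
        Real.log ((M + a + 1).factorial : ℝ)) ≤
        m * (2 * V * Real.log ((L + V : ℕ) : ℝ) +
        8 * r * (Chebyshev.theta (y : ℝ) + 2 * Real.log (P.coeff 0).natAbs) +
        ((L : ℝ) / y) * (r * Real.log ((M + 2 * V : ℕ) : ℝ)) +
        (Chebyshev.theta (L : ℝ) - Chebyshev.theta (N' : ℝ))) := by
      linarith
    exact le_of_mul_le_mul_left h3 hm0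
  · -- all the primes
    intro p hp
    obtain ⟨Γ, _, v, h⟩ := exists_above hp
    have hint : ∀ β ∈ rootsOf P, v β ≤ 1 := by
      intro β hβ
      have hroot : aeval β P = 0 := by
        have := (Polynomial.mem_roots (hP.map (Int.castRingHom ℂ)).ne_zero).1 hβ
        rw [Polynomial.IsRoot.def, eval_map] at this
        rw [aeval_def]
        exact this
      exact val_root h hP hroot
    have hcard : Multiset.card (rootsOf P) = r := by rw [FIN.card_rootsOf, hr]
    set w := padicValNat p (P.coeff 0).natAbs with hw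
    have h1 : ∀ i, v (∏ t ∈ range L, (-1) * (x i - c - t)) ^ (p - 1) *
        v (p : ℂ) ^ (8 * (p - 1) * r * (w + 1)) ≤
        v (p : ℂ) ^ ((p - 1) * padicValNat p L.factorial) := by
      intro i
      have h2 := root_val h hT hprod hd0 (le_refl w) (by rw [hcard]; exact hr1)
        (by rw [hcard]; exact hrN) hint L (by rw [hcard]; exact hL1) c (x i) (hxP i)
      rw [hcard] at h2
      rw [Finset.prod_mul_distrib, map_mul, map_prod]
      simp only [Valuation.map_neg, map_one, Finset.prod_const_one, one_mul]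
      exact h2
    have h2 : v (W : ℂ) ^ (p - 1) * (v (p : ℂ) ^ (8 * (p - 1) * r * (w + 1))) ^ m ≤
        (v (p : ℂ) ^ ((p - 1) * padicValNat p L.factorial)) ^ m := by
      rw [hWc, map_prod, ← Finset.prod_pow]
      have h3 : (v (p : ℂ) ^ (8 * (p - 1) * r * (w + 1))) ^ m =
          ∏ _i : Fin m, v (p : ℂ) ^ (8 * (p - 1) * r * (w + 1)) := by simp
      rw [h3, ← Finset.prod_mul_distrib]
      refine (Finset.prod_le_prod' fun i _ => h1 i).trans (le_of_eq ?_)
      rw [Finset.prod_const, Finset.card_univ, Fintype.card_fin]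
    rw [h.int_eq hW0, ← pow_mul, ← pow_mul, ← pow_mul, ← pow_add] at h2
    have h3 := h.le_of_pow h2
    have hp1 : 0 < p - 1 := by have := hp.one_lt; omega
    have h4 : (p - 1) * (m * padicValNat p L.factorial) ≤
        (p - 1) * (padicValNat p W.natAbs + 8 * r * (w + 1) * m) := by
      calc (p - 1) * (m * padicValNat p L.factorial) =
          (p - 1) * padicValNat p L.factorial * m := by ring
        _ ≤ padicValNat p W.natAbs * (p - 1) + 8 * (p - 1) * r * (w + 1) * m := h3
        _ = _ := by ring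
    exact Nat.le_of_mul_le_mul_left h4 hp1
  · -- the large primes
    intro p hp hpy hpN' hpd
    obtain ⟨Γ, _, v, h⟩ := exists_above hp
    have hcl := classes h hP hr hT (by omega) (by omega) hpd c
    choose! cl hcl1 hcl2 using hcl
    have hint : ∀ i, v (x i) ≤ 1 := by
      intro i
      have hroot : aeval (x i) P = 0 := by
        have := (Polynomial.mem_roots (hP.map (Int.castRingHom ℂ)).ne_zero).1 (hxP i)
        rw [Polynomial.IsRoot.def, eval_map] at this
        rw [aeval_def]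
        exact this
      exact val_root h hP hroot
    have h1 := disc_val h x Q hx2 hint c (fun i => cl (x i)) (fun i => hcl1 _ (hxP i))
      (fun i => hcl2 _ (hxP i))
    rw [← hD, h.int_eq hD0] at h1
    have h2 := h.le_of_pow h1
    have h3 := count_val hp Q c L hW0
    rw [← hW] at h3
    have h4 : m ≤ ncl p Q c + padicValNat p D.natAbs := by omega
    calc m * (L / p) ≤ (ncl p Q c + padicValNat p D.natAbs) * (L / p) :=
          Nat.mul_le_mul_right _ h4
      _ = ncl p Q c * (L / p) + padicValNat p D.natAbs * (L / p) := by ring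
      _ ≤ _ := Nat.add_le_add_right h3 _
  · intro p hp hpy
    apply legendre hp
    refine hy2.trans_le (Nat.pow_le_pow_left (by omega) 2)

end Pool.Agent.U429.UF
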