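import Pool.Agent.U429.UF.Upper

/-!
# The numerical contradiction
-/

set_option autoImplicit false

open Finset

namespace Pool.Agent.U429.UF

theorem log_628 : (1.837 : ℝ) ≤ Real.log 6.28 := by
  have h2 := Real.log_two_gt_d9
  have h1 : (0.451 : ℝ) ≤ Real.log 1.57 := by
    have h := Real.sum_range_le_log_div (x := 57 / 257) (by norm_num) (by norm_num) 3
    have e : ((1 : ℝ) + 57 / 257) / (1 - 57 / 257) = 1.57 := by norm_num
    rw [e] at h
    norm_num [Finset.sum_range_succ] at h ⊢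
    linarith
  have e : Real.log 6.28 = 2 * Real.log 2 + Real.log 1.57 := by
    rw [show (6.28 : ℝ) = 2 ^ 2 * 1.57 by norm_num, Real.log_mul (by norm_num) (by norm_num),
      Real.log_pow]
    norm_num
  rw [e]
  linarith

theorem log_1189 : (0.173 : ℝ) ≤ Real.log 1.189 := by
  have h := Real.sum_range_le_log_div (x := 189 / 2189) (by norm_num) (by norm_num) 2
  have e : ((1 : ℝ) + 189 / 2189) / (1 - 189 / 2189) = 1.189 := by norm_num
  rw [e] at h
  norm_num [Finset.sum_range_succ] at h ⊢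
  linarith

/-- all the estimates -/
theorem numeric {N r a M V y N' : ℕ} {ld : ℝ} (hr : 1 ≤ r) (h0 : 1 ≤ Real.log N)
    (h1 : (r : ℝ) ^ 2 * Real.log N ≤ 1e-9 * N) (h2 : Real.log N ≤ 1e-6 * N)
    (ha1 : (a : ℝ) ≤ 7 / 25 * N) (ha2 : 7 / 25 * N - 1 ≤ (a : ℝ))
    (hM1 : (M : ℝ) ≤ 6 / 5 * N + 3) (hM2 : 6 / 5 * N - 1 ≤ (M : ℝ))
    (hy1 : (y : ℝ) * r ≤ N / 5000) (hy2 : (N : ℝ) / 10000 ≤ y * r)
    (hV : (V : ℝ) * Real.log N ≤ 2e-6 * N) (hN' : N' + 2 * r = N + 1) (hd : (r : ℝ) * ld ≤ 1e-6 * N)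
    (hth1 : Chebyshev.theta ((M + 2 * a + 1 : ℕ) : ℝ) ≤ 1.001 * ((M + 2 * a + 1 : ℕ) : ℝ))
    (hth2 : 0.999 * (N' : ℝ) ≤ Chebyshev.theta (N' : ℝ)) :
    2 * V * Real.log ((M + 2 * a + 1 + V : ℕ) : ℝ) +
      8 * r * (Chebyshev.theta (y : ℝ) + 2 * ld) +
      (((M + 2 * a + 1 : ℕ) : ℝ) / y) * (r * Real.log ((M + 2 * V : ℕ) : ℝ)) +
      (Chebyshev.theta ((M + 2 * a + 1 : ℕ) : ℝ) - Chebyshev.theta (N' : ℝ)) <
    Real.log ((M + 2 * a + 1).factorial : ℝ) - Real.log (a.factorial : ℝ) -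
        Real.log ((M + a + 1).factorial : ℝ) := by
  set n : ℝ := (N : ℝ) with hn
  have hn6 : (1e6 : ℝ) ≤ n := by linarith
  have hn0 : 0 < n := by linarith
  have hnn : 1e6 * n ≤ n ^ 2 := by
    have := mul_le_mul_of_nonneg_right hn6 hn0.le
    rw [sq]; exact this
  have hr' : (1 : ℝ) ≤ r := by exact_mod_cast hr
  set R : ℝ := (r : ℝ) ^ 2 with hR
  have hR1 : 1 ≤ R := by rw [hR]; exact one_le_pow₀ hr'
  have hrR : (r : ℝ) ≤ R := by
    rw [hR, sq]
    exact le_mul_of_one_le_left (by linarith) hr'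
  have hRn : R ≤ 1e-9 * n := by
    have : R * 1 ≤ R * Real.log n := mul_le_mul_of_nonneg_left h0 (by linarith)
    linarith
  have hVn : (V : ℝ) ≤ 2e-6 * n := by
    have : (V : ℝ) * 1 ≤ V * Real.log n := mul_le_mul_of_nonneg_left h0 (Nat.cast_nonneg V)
    linarith
  have hV0 : (0 : ℝ) ≤ V := Nat.cast_nonneg V
  have hLr : ((M + 2 * a + 1 : ℕ) : ℝ) = M + 2 * a + 1 := by push_cast; ring
  -- T1
  have e1 : Real.log ((M + 2 * a + 1 + V : ℕ) : ℝ) ≤ 2 * Real.log n := by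
    have : ((M + 2 * a + 1 + V : ℕ) : ℝ) ≤ n ^ 2 := by
      push_cast
      linarith
    calc Real.log ((M + 2 * a + 1 + V : ℕ) : ℝ) ≤ Real.log (n ^ 2) := by
          apply Real.log_le_log _ this
          have : 0 < M + 2 * a + 1 + V := by omega
          exact_mod_cast this
      _ = _ := by rw [Real.log_pow]; norm_num
  have t1 : 2 * V * Real.log ((M + 2 * a + 1 + V : ℕ) : ℝ) ≤ 8e-6 * n := by
    have := mul_le_mul_of_nonneg_left e1 (by positivity : 0 ≤ 2 * (V : ℝ))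
    linarith
  -- T2
  have e2 : Chebyshev.theta (y : ℝ) ≤ 1.3863 * y := by
    have h3 := Chebyshev.theta_le_log4_mul_x (x := (y : ℝ)) (Nat.cast_nonneg y)
    have h4 : Real.log 4 ≤ 1.3863 := by
      have := Real.log_two_lt_d9
      rw [show (4 : ℝ) = 2 ^ 2 by norm_num, Real.log_pow]
      push_cast
      linarith
    exact h3.trans (mul_le_mul_of_nonneg_right h4 (Nat.cast_nonneg y))
  have t2 : 8 * r * (Chebyshev.theta (y : ℝ) + 2 * ld) ≤
      0.0024 * n := by
    have h3 : 8 * (r : ℝ) * Chebyshev.theta (y : ℝ) ≤ 8 * r * (1.3863 * y) :=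
      mul_le_mul_of_nonneg_left e2 (by positivity)
    have h6 : 8 * (r : ℝ) * (1.3863 * y) = 11.0904 * (y * r) := by ring
    have h7 : 8 * (r : ℝ) * (Chebyshev.theta (y : ℝ) + 2 * ld) =
        8 * r * Chebyshev.theta (y : ℝ) + 16 * (r * ld) := by ring
    rw [h7]
    linarith
  -- T3
  have hy0 : (0 : ℝ) < y := by
    by_contra hcon
    have : (y : ℝ) = 0 := le_antisymm (not_lt.1 hcon) (Nat.cast_nonneg y)
    rw [this, zero_mul] at hy2
    linarith
  have e3 : Real.log ((M + 2 * V : ℕ) : ℝ) ≤ 2 * Real.log n := by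
    have : ((M + 2 * V : ℕ) : ℝ) ≤ n ^ 2 := by
      push_cast
      linarith
    calc Real.log ((M + 2 * V : ℕ) : ℝ) ≤ Real.log (n ^ 2) := by
          apply Real.log_le_log _ this
          push_cast
          linarith
      _ = _ := by rw [Real.log_pow]; norm_num
  have t3 : (((M + 2 * a + 1 : ℕ) : ℝ) / y) * (r * Real.log ((M + 2 * V : ℕ) : ℝ)) ≤
      40000 * (R * Real.log n) := by
    have h3 : (((M + 2 * a + 1 : ℕ) : ℝ) / y) ≤ 20000 * r := by
      rw [div_le_iff₀ hy0, hLr]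
      linarith
    calc (((M + 2 * a + 1 : ℕ) : ℝ) / y) * (r * Real.log ((M + 2 * V : ℕ) : ℝ)) ≤
        (20000 * r) * (r * (2 * Real.log n)) := by
          apply mul_le_mul h3 _ _ (by positivity)
          · exact mul_le_mul_of_nonneg_left e3 (by positivity)
          · exact mul_nonneg (by positivity) (Real.log_natCast_nonneg _)
      _ = _ := by rw [hR]; ring
  -- T4
  have hN'r : (N' : ℝ) = n + 1 - 2 * r := by
    have : ((N' + 2 * r : ℕ) : ℝ) = ((N + 1 : ℕ) : ℝ) := by rw [hN']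
    push_cast at this
    linarith
  have t4 : Chebyshev.theta ((M + 2 * a + 1 : ℕ) : ℝ) - Chebyshev.theta (N' : ℝ) ≤
      0.76276 * n + 2 * r + 4 := by
    rw [hLr] at hth1 ⊢
    rw [hN'r] at hth2 ⊢
    linarith
  -- the gain
  have hapos : 1 ≤ a := by
    have : (0 : ℝ) < a := by linarith
    exact_mod_cast this
  have hg := gain (a := a) (b := M + a + 1) hapos (by omega)
  rw [show a + (M + a + 1) = M + 2 * a + 1 by ring] at hg
  have hbr : ((M + a + 1 : ℕ) : ℝ) = M + a + 1 := by push_cast; ring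
  rw [hbr] at hg
  have ha0 : (0 : ℝ) < a := by exact_mod_cast hapos
  have hM0 : (0 : ℝ) < M := by linarith
  have g1 : (1.837 : ℝ) ≤ Real.log (((a : ℝ) + (M + a + 1)) / a) := by
    refine log_628.trans (Real.log_le_log (by norm_num) ?_)
    rw [le_div_iff₀ ha0]
    linarith
  have g2 : (0.173 : ℝ) ≤ Real.log (((a : ℝ) + (M + a + 1)) / (M + a + 1)) := by
    refine log_1189.trans (Real.log_le_log (by norm_num) ?_)
    rw [le_div_iff₀ (by positivity)]
    linarith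
  have g3 : Real.log a ≤ Real.log n := Real.log_le_log ha0 (by linarith)
  have g4 : Real.log ((M : ℝ) + a + 1) ≤ 2 * Real.log n := by
    have : (M : ℝ) + a + 1 ≤ n ^ 2 := by linarith
    calc Real.log ((M : ℝ) + a + 1) ≤ Real.log (n ^ 2) := Real.log_le_log (by positivity) this
      _ = _ := by rw [Real.log_pow]; norm_num
  have g5 : (a : ℝ) * 1.837 ≤ a * Real.log (((a : ℝ) + (M + a + 1)) / a) :=
    mul_le_mul_of_nonneg_left g1 ha0.le
  have g6 : ((M : ℝ) + a + 1) * 0.173 ≤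
      ((M : ℝ) + a + 1) * Real.log (((a : ℝ) + (M + a + 1)) / (M + a + 1)) :=
    mul_le_mul_of_nonneg_left g2 (by positivity)
  have hRl : R * Real.log n ≤ 1e-9 * n := h1
  linarith

end Pool.Agent.U429.UF
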