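import Pool.Agent.U429.UF.Fac
import Pool.Agent.U429.UF.Numeric
import Pool.Agent.Cov.PNT

/-!
# The main theorem
-/

set_option autoImplicit false

open Finset Polynomial Filter

namespace Pool.Agent.U429.UF

open Pool.Agent.N17.HC Pool.Agent.N17.CK

/-- the arithmetic conditions -/
structure CondU (N r : ℕ) (P : ℤ[X]) : Prop where
  monic : P.Monic
  deg : P.natDegree = r
  nonneg : ∀ i ≤ r, 0 ≤ chern r P i
  minors : ∀ m : ℕ, m * r + r ≤ N → MinorsNonneg r m P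
  allInt : AllInt N (rootsOf P)

theorem pnt_bounds : ∃ X₀ : ℝ, ∀ x : ℝ, X₀ ≤ x →
    0.999 * x ≤ Chebyshev.theta x ∧ Chebyshev.theta x ≤ 1.001 * x := by
  have h := Metric.tendsto_atTop.1 Pool.Agent.Cov.PNT.theta_div_tendsto 0.001 (by norm_num)
  obtain ⟨X, hX⟩ := h
  refine ⟨max X 1, fun x hx => ?_⟩
  have hx0 : (0 : ℝ) < x := lt_of_lt_of_le one_pos ((le_max_right _ _).trans hx)
  have h1 := hX x ((le_max_left _ _).trans hx)
  rw [Real.dist_eq, abs_lt] at h1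
  obtain ⟨h2, h3⟩ := h1
  constructor
  · rw [← le_div_iff₀ hx0]; linarith
  · rw [← div_le_iff₀ hx0]; linarith

theorem exists_N0 : ∃ N₀ : ℕ, ∀ N : ℕ, N₀ ≤ N → 1 ≤ Real.log N ∧ Real.log N ≤ 1e-6 * N ∧
    ∀ x : ℝ, (N : ℝ) / 2 ≤ x → 0.999 * x ≤ Chebyshev.theta x ∧ Chebyshev.theta x ≤ 1.001 * x := by
  obtain ⟨X₀, hX⟩ := pnt_bounds
  have h1 : ∀ᶠ N : ℕ in atTop, 1 ≤ Real.log (N : ℝ) :=
    (Real.tendsto_log_atTop.comp tendsto_natCast_atTop_atTop).eventually_ge_atTop 1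
  have h2 : ∀ᶠ N : ℕ in atTop, Real.log (N : ℝ) ≤ 1e-6 * N := by
    have h := (Real.isLittleO_log_id_atTop.bound (show (0 : ℝ) < 1e-6 by norm_num)).filter_mono
      (tendsto_natCast_atTop_atTop (R := ℝ))
    rw [Filter.eventually_map] at h
    filter_upwards [h, h1] with N hN hN1
    have h3 : ‖Real.log (N : ℝ)‖ = Real.log N := by
      rw [Real.norm_eq_abs, abs_of_nonneg (by linarith)]
    rw [h3] at hN
    simpa using hN
  have h3 : ∀ᶠ N : ℕ in atTop, 2 * X₀ ≤ (N : ℝ) :=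
    tendsto_natCast_atTop_atTop.eventually_ge_atTop _
  obtain ⟨N₀, hN₀⟩ := eventually_atTop.1 (h1.and (h2.and h3))
  refine ⟨N₀, fun N hN => ?_⟩
  obtain ⟨a1, a2, a3⟩ := hN₀ N hN
  exact ⟨a1, a2, fun x hx => hX x (by linarith)⟩

theorem root_aeval {P : ℤ[X]} (hP : P.Monic) {β : ℂ} (hβ : β ∈ rootsOf P) : aeval β P = 0 := by
  have := (Polynomial.mem_roots (hP.map (Int.castRingHom ℂ)).ne_zero).1 hβ
  rw [Polynomial.IsRoot.def, eval_map] at this
  rw [aeval_def]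
  exact this

/-- the degree -/
theorem deg_facts {r : ℕ} {P : ℤ[X]} (hP : P.Monic) (hr : P.natDegree = r)
    (hnn : ∀ i ≤ r, 0 ≤ chern r P i) :
    0 < (P.coeff 0).natAbs ∧ (rootsOf P).prod = (((P.coeff 0).natAbs : ℕ) : ℂ) := by
  obtain ⟨hpos, -⟩ := t_POS r P hP hr hnn
  set d : ℕ := (P.coeff 0).natAbs with hd
  have hd0 : 0 < d := by
    rw [hd, Int.natAbs_pos]
    rintro h0
    rw [h0] at hpos
    simp at hpos
  have hdP : (-1) ^ r * P.coeff 0 = (d : ℤ) := by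
    rw [hd, Int.natCast_natAbs]
    rcases neg_one_pow_eq_or ℤ r with h0 | h0
    · rw [h0] at hpos ⊢
      rw [abs_of_pos (by linarith)]
      ring
    · rw [h0] at hpos ⊢
      rw [abs_of_neg (by linarith)]
      ring
  refine ⟨hd0, ?_⟩
  rw [FIN.prod_rootsOf P hP, hr, hdP]
  simp

/-- sizes which follow from `r² log N ≤ c N` -/
structure Sizes (N r : ℕ) : Prop where
  log1 : 1 ≤ Real.log N
  logN : Real.log N ≤ 1e-6 * N
  pnt : ∀ x : ℝ, (N : ℝ) / 2 ≤ x → 0.999 * x ≤ Chebyshev.theta x ∧ Chebyshev.theta x ≤ 1.001 * x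
  le : (r : ℝ) ^ 2 * Real.log N ≤ 1e-9 * N

theorem sizes : ∃ c : ℝ, 0 < c ∧ ∀ (N r : ℕ), 2 ≤ N → 1 ≤ r →
    (r : ℝ) ^ 2 * Real.log N ≤ c * N → Sizes N r := by
  obtain ⟨N₀, hN₀⟩ := exists_N0
  refine ⟨min 1e-9 (Real.log 2 / (N₀ + 1)), by positivity, ?_⟩
  intro N r hN hr hle
  have hN2 : (2 : ℝ) ≤ N := by exact_mod_cast hN
  have hr' : (1 : ℝ) ≤ r := by exact_mod_cast hr
  have hNpos : (0 : ℝ) < N := by linarith
  have hlog2 : Real.log 2 ≤ Real.log N := Real.log_le_log (by norm_num) hN2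
  have hl2 : 0 < Real.log 2 := Real.log_pos (by norm_num)
  have hle1 : (r : ℝ) ^ 2 * Real.log N ≤ 1e-9 * N :=
    hle.trans (mul_le_mul_of_nonneg_right (min_le_left _ _) hNpos.le)
  have hle2 : (r : ℝ) ^ 2 * Real.log N ≤ Real.log 2 / (N₀ + 1) * N :=
    hle.trans (mul_le_mul_of_nonneg_right (min_le_right _ _) hNpos.le)
  have hNN : N₀ ≤ N := by
    have h1 : Real.log 2 ≤ Real.log 2 / (N₀ + 1) * N := by
      refine le_trans ?_ hle2
      have : 1 * Real.log N ≤ (r : ℝ) ^ 2 * Real.log N :=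
        mul_le_mul_of_nonneg_right (one_le_pow₀ hr') (by linarith)
      linarith
    have hN0 : (0 : ℝ) < (N₀ : ℝ) + 1 := by positivity
    rw [div_mul_eq_mul_div, le_div_iff₀ hN0] at h1
    have h2 := le_of_mul_le_mul_left h1 hl2
    have h3 : (N₀ : ℝ) ≤ N := by linarith
    exact_mod_cast h3
  obtain ⟨a1, a2, a3⟩ := hN₀ N hNN
  exact ⟨a1, a2, a3, hle1⟩

theorem Sizes.sq {N r : ℕ} (h : Sizes N r) : (r : ℝ) ^ 2 ≤ 1e-9 * N := by
  have : (r : ℝ) ^ 2 * 1 ≤ (r : ℝ) ^ 2 * Real.log N :=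
    mul_le_mul_of_nonneg_left h.log1 (by positivity)
  linarith [h.le]

theorem Sizes.nat {N r : ℕ} (h : Sizes N r) (hr : 1 ≤ r) : (8 * r + 1) * r ≤ N := by
  have hr' : (1 : ℝ) ≤ r := by exact_mod_cast hr
  have hR := h.sq
  have hrR : (r : ℝ) ≤ (r : ℝ) ^ 2 := by
    rw [_root_.sq]; exact le_mul_of_one_le_left (by linarith) hr'
  have : (((8 * r + 1) * r : ℕ) : ℝ) ≤ N := by
    have e : (((8 * r + 1) * r : ℕ) : ℝ) = 8 * (r : ℝ) ^ 2 + r := by push_cast; ring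
    have hN0 : (0 : ℝ) ≤ N := Nat.cast_nonneg N
    rw [e]; linarith
  exact_mod_cast this

/-- **Main theorem** for the irreducible factors. -/
theorem main_factor {N r : ℕ} (hr : 1 ≤ r) (hs : Sizes N r) {P : ℤ[X]} (h : CondU N r P)
    (hdeg : (r : ℝ) * Real.log (P.coeff 0).natAbs ≤ 1e-6 * N) {Y : ℝ}
    (hY : Y * ((r : ℝ) ^ 2 * Real.log N) ≤ 1e-8 * (N : ℝ) ^ 2) {Q : ℤ[X]} (hQm : Q.Monic)
    (hQi : Irreducible Q) (hQP : Q ∣ P) (hge : 2 ≤ Q.natDegree)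
    (hmax : ∀ β ∈ rootsOf Q, β.re ≤ Y) :
    ∃ β ∈ rootsOf Q, ∃ γ ∈ rootsOf Q, 1 ≤ β.re ∧ β.re + 6 / 5 * (N : ℝ) < γ.re := by
  classical
  have hr' : (1 : ℝ) ≤ r := by exact_mod_cast hr
  have hlog1 := hs.log1
  have hlogN := hs.logN
  have hn6 : (1e6 : ℝ) ≤ N := by linarith
  have hNpos : (0 : ℝ) < N := by linarith
  have hR := hs.sq
  have hrR : (r : ℝ) ≤ (r : ℝ) ^ 2 := by
    rw [_root_.sq]; exact le_mul_of_one_le_left (by linarith) hr'
  have h8 := hs.nat hr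
  -- the Chern roots
  set m := (N - r) / r with hm
  have h2r : 2 * r ≤ N := by
    have : ((2 * r : ℕ) : ℝ) ≤ N := by push_cast; linarith
    exact_mod_cast this
  have hrN : r ≤ N := by omega
  have hm1 : m * r ≤ N - r := Nat.div_mul_le_self _ _
  have hm2 : N - r < (m + 1) * r := by
    have := Nat.lt_mul_div_succ (N - r) hr
    rw [hm, mul_comm]; exact this
  have hm8 : 8 * r ≤ m := by
    rw [hm, Nat.le_div_iff_mul_le hr]
    have : (8 * r + 1) * r = 8 * r * r + r := by ring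
    omega
  have hmr : 0.9 * (N : ℝ) ≤ m * r := by
    have h1 : ((N : ℕ) : ℝ) < (((m + 1) * r + r : ℕ) : ℝ) := by
      have : N < (m + 1) * r + r := by omega
      exact_mod_cast this
    push_cast at h1
    linarith
  have hsec : ∀ β ∈ rootsOf Q, 1 ≤ β.re ∧ |β.im| ≤ 8 * (r : ℝ) / m * (β.re - 1) := by
    intro β hβ
    obtain ⟨b1, b3⟩ := sector hr hm8 h.monic h.deg h.nonneg (h.minors m (by omega)) β
      (MAIN.rootsOf_sub h.monic hQP β hβ)
    rw [Complex.sub_re, Complex.one_re] at b1 b3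
    exact ⟨by linarith, b3⟩
  by_contra hcon
  push Not at hcon
  -- the root with the smallest real part
  have hne : (rootsOf Q).toFinset.Nonempty := by
    rw [Multiset.toFinset_nonempty, ← Multiset.card_pos, FIN.card_rootsOf]
    omega
  obtain ⟨β₀, hβ₀, hmin⟩ := Finset.exists_min_image (rootsOf Q).toFinset (fun β => β.re) hne
  rw [Multiset.mem_toFinset] at hβ₀
  have hmin' : ∀ γ ∈ rootsOf Q, β₀.re ≤ γ.re := fun γ hγ =>
    hmin γ (Multiset.mem_toFinset.2 hγ)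
  have hY1 : 1 ≤ Y := (hsec β₀ hβ₀).1.trans (hmax β₀ hβ₀)
  set s : ℤ := ⌊β₀.re⌋ - 1 with hsdef
  have hs1 : (s : ℝ) + 1 ≤ β₀.re := by
    rw [hsdef]; push_cast
    have := Int.floor_le β₀.re
    linarith
  have hs2 : β₀.re < s + 2 := by
    rw [hsdef]; push_cast
    have := Int.lt_floor_add_one β₀.re
    linarith
  set a : ℕ := ⌊(7 / 25 : ℝ) * N⌋₊ with ha
  set M : ℕ := ⌈(6 / 5 : ℝ) * N⌉₊ + 2 with hM
  set y : ℕ := ⌊(N : ℝ) / (5000 * r)⌋₊ with hy
  set V : ℕ := ⌈9 * (Y * (r : ℝ) ^ 2) / N⌉₊ with hV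
  have ha1 : (a : ℝ) ≤ 7 / 25 * N := Nat.floor_le (by positivity)
  have ha2 : 7 / 25 * N - 1 ≤ (a : ℝ) := by
    have := Nat.lt_floor_add_one ((7 / 25 : ℝ) * N); linarith
  have hM1 : (M : ℝ) ≤ 6 / 5 * N + 3 := by
    have := Nat.ceil_lt_add_one (show (0 : ℝ) ≤ (6 / 5 : ℝ) * N by positivity)
    rw [hM]; push_cast; linarith
  have hM2 : 6 / 5 * N + 2 ≤ (M : ℝ) := by
    have := Nat.le_ceil ((6 / 5 : ℝ) * N)
    rw [hM]; push_cast; linarith
  have hV1 : 9 * (Y * (r : ℝ) ^ 2) / N ≤ V := Nat.le_ceil _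
  have hV2 : (V : ℝ) ≤ 9 * (Y * (r : ℝ) ^ 2) / N + 1 :=
    (Nat.ceil_lt_add_one (by positivity)).le
  have hVlog : (V : ℝ) * Real.log N ≤ 2e-6 * N := by
    have h1 : (V : ℝ) * Real.log N ≤ (9 * (Y * (r : ℝ) ^ 2) / N + 1) * Real.log N :=
      mul_le_mul_of_nonneg_right hV2 (by linarith)
    have h2 : (9 * (Y * (r : ℝ) ^ 2) / N + 1) * Real.log N =
        9 * (Y * ((r : ℝ) ^ 2 * Real.log N)) / N + Real.log N := by ring
    have h3 : 9 * (Y * ((r : ℝ) ^ 2 * Real.log N)) / N ≤ 9e-8 * N := by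
      rw [div_le_iff₀ hNpos]
      have : 9e-8 * (N : ℝ) * N = 9 * (1e-8 * (N : ℝ) ^ 2) := by ring
      rw [this]
      linarith
    rw [h2] at h1
    linarith
  have hy1 : (y : ℝ) ≤ N / (5000 * r) := Nat.floor_le (by positivity)
  have hy2 : (N : ℝ) / (5000 * r) < y + 1 := Nat.lt_floor_add_one _
  have hy1' : (y : ℝ) * r ≤ N / 5000 := by
    rw [le_div_iff₀ (by positivity)] at hy1
    linarith
  have hy2' : (N : ℝ) / 5000 < (y + 1) * r := by
    rw [div_lt_iff₀ (by positivity)] at hy2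
    linarith
  have hy3 : (N : ℝ) / 10000 ≤ y * r := by linarith
  obtain ⟨N', hN'⟩ : ∃ N', N' + 2 * r = N + 1 := ⟨N + 1 - 2 * r, by omega⟩
  have hN'r : (N' : ℝ) = N + 1 - 2 * r := by
    have : ((N' + 2 * r : ℕ) : ℝ) = ((N + 1 : ℕ) : ℝ) := by rw [hN']
    push_cast at this
    linarith
  have hLr : ((M + 2 * a + 1 : ℕ) : ℝ) = M + 2 * a + 1 := by push_cast; ring
  have hMpos : 1 ≤ M := by omega
  have hL1 : M + 2 * a + 1 ≤ 2 * (N - r) := by
    have : ((M + 2 * a + 1 + 2 * r : ℕ) : ℝ) ≤ ((2 * N : ℕ) : ℝ) := by push_cast; linarith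
    have := Nat.cast_le.1 this
    omega
  have hL2 : M + 2 * a + 1 < 2 * (N' + 1) := by
    have : ((M + 2 * a + 1 : ℕ) : ℝ) < ((2 * (N' + 1) : ℕ) : ℝ) := by
      push_cast; rw [hN'r]; linarith
    exact_mod_cast this
  have hL3 : N' ≤ M + 2 * a + 1 := by
    have : (N' : ℝ) ≤ ((M + 2 * a + 1 : ℕ) : ℝ) := by
      push_cast; rw [hN'r]; linarith
    exact_mod_cast this
  have hry : r ≤ y := by
    apply Nat.le_floor
    rw [le_div_iff₀ (by positivity)]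
    have e : (r : ℝ) * (5000 * r) = 5000 * (r : ℝ) ^ 2 := by ring
    rw [e]; linarith
  have hLy : M + 2 * a + 1 < (y + 1) ^ 2 := by
    have h1 : ((M + 2 * a + 1 : ℕ) : ℝ) < (((y + 1) ^ 2 : ℕ) : ℝ) := by
      push_cast
      have h2 : ((N : ℝ) / 5000) ^ 2 ≤ ((y + 1) * r) ^ 2 :=
        pow_le_pow_left₀ (by positivity) hy2'.le 2
      have h3 : (((y : ℝ) + 1) * r) ^ 2 = ((y : ℝ) + 1) ^ 2 * (r : ℝ) ^ 2 := by ring
      rw [h3] at h2
      have h4 : ((y : ℝ) + 1) ^ 2 * (r : ℝ) ^ 2 ≤ ((y : ℝ) + 1) ^ 2 * (1e-9 * N) :=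
        mul_le_mul_of_nonneg_left hR (by positivity)
      have h5 : 40 * (N : ℝ) * (1e-9 * N) ≤ ((N : ℝ) / 5000) ^ 2 := by
        have e1 : 40 * (N : ℝ) * (1e-9 * N) = 4e-8 * (N : ℝ) ^ 2 := by ring
        have e2 : ((N : ℝ) / 5000) ^ 2 = 4e-8 * (N : ℝ) ^ 2 := by ring
        rw [e1, e2]
      have h6 : 40 * (N : ℝ) ≤ ((y : ℝ) + 1) ^ 2 :=
        le_of_mul_le_mul_right ((h5.trans h2).trans h4) (by positivity)
      linarith
    exact_mod_cast h1
  have hroots : ∀ β ∈ rootsOf Q, (s : ℝ) + 1 ≤ β.re ∧ β.re ≤ s + M ∧ |β.im| ≤ V := by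
    intro β hβ
    obtain ⟨b1, b3⟩ := hsec β hβ
    have hb0 := hcon β₀ hβ₀ β hβ (hsec β₀ hβ₀).1
    have hb1 := hmin' β hβ
    have hb2 := hmax β hβ
    refine ⟨by linarith, by linarith, b3.trans (le_trans ?_ hV1)⟩
    have hm0 : (0 : ℝ) < m := by
      have : 0 < m := by omega
      exact_mod_cast this
    have h1 : 8 * (r : ℝ) / m * (β.re - 1) ≤ 8 * (r : ℝ) / m * Y :=
      mul_le_mul_of_nonneg_left (by linarith) (by positivity)
    refine h1.trans ?_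
    rw [div_mul_eq_mul_div, div_le_iff₀ hm0, div_mul_eq_mul_div, le_div_iff₀ hNpos]
    have h3 : 0 ≤ (r : ℝ) * Y := by positivity
    have h4 : (r : ℝ) * Y * (0.9 * N) ≤ r * Y * (m * r) := mul_le_mul_of_nonneg_left hmr h3
    have h5 : 0 ≤ (r : ℝ) * Y * N := by positivity
    have h6 : 8 * (r : ℝ) * Y * N = 8 * (r * Y * N) := by ring
    have h7 : 9 * (Y * (r : ℝ) ^ 2) * m = 9 * (r * Y * (m * r)) := by ring
    rw [h6, h7]
    linarith
  obtain ⟨hd0, hprod⟩ := deg_facts h.monic h.deg h.nonneg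
  have h1 := factor_ineq (a := a) (M := M) (V := V) (y := y) (N' := N') s hr h.monic h.deg
    h.allInt hprod hd0 hroots hQm hQi hQP hge hN' hrN hL1 hL2 hL3 hry hLy hMpos
  have h2 := numeric (ld := Real.log ((P.coeff 0).natAbs : ℝ)) (a := a) (M := M) (V := V)
    (y := y) (N' := N')
    hr hlog1 hs.le hlogN ha1 ha2 hM1 (by linarith) hy1' hy3 hVlog hN' hdeg
    (hs.pnt _ (by rw [hLr]; linarith)).2 (hs.pnt _ (by rw [hN'r]; linarith)).1
  exact absurd h1 (not_le.2 h2)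

/-- the irreducible factors of degree one -/
theorem linear_factor {r : ℕ} {P Q : ℤ[X]} (hP : P.Monic) (hr : P.natDegree = r)
    (hnn : ∀ i ≤ r, 0 ≤ chern r P i) (hQm : Q.Monic) (hQi : Irreducible Q) (hQP : Q ∣ P)
    (hlt : Q.natDegree < 2) : ∃ a : ℤ, 1 ≤ a ∧ Q = X - C a := by
  have h0 : Q.natDegree ≠ 0 := by
    intro h0
    have h1 : Q = 1 := Polynomial.eq_one_of_monic_natDegree_zero hQm h0
    exact hQi.not_isUnit (by rw [h1]; exact isUnit_one)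
  have h1 : Q.natDegree = 1 := by omega
  have h2 : Q = X - C (-Q.coeff 0) := by
    have h3 := hQm.eq_X_add_C h1
    rw [h3]
    simp
  refine ⟨-Q.coeff 0, ?_, h2⟩
  exact (t_POS r P hP hr hnn).2 _ (by rw [← h2]; exact hQP)

theorem one_add_sum_le (s : Multiset ℂ) (hs : ∀ β ∈ s, 1 ≤ β.re) :
    1 + (s.map fun β => β.re - 1).sum ≤ ‖s.prod‖ ∧ 0 ≤ (s.map fun β => β.re - 1).sum := by
  induction s using Multiset.induction_on with
  | empty => simp
  | cons b s ih =>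
    obtain ⟨h1, h2⟩ := ih fun y hy => hs y (Multiset.mem_cons_of_mem hy)
    have hb := hs b (Multiset.mem_cons_self b s)
    rw [Multiset.map_cons, Multiset.sum_cons, Multiset.prod_cons, norm_mul]
    have h3 : b.re ≤ ‖b‖ := Complex.re_le_norm b
    refine ⟨?_, by linarith⟩
    have h4 : b.re * (1 + (s.map fun β => β.re - 1).sum) ≤ ‖b‖ * ‖s.prod‖ :=
      mul_le_mul h3 h1 (by linarith) (norm_nonneg _)
    nlinarith

theorem sum_re {r : ℕ} (hr1 : 1 ≤ r) {P : ℤ[X]} (hP : P.Monic) (hr : P.natDegree = r) :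
    (((rootsOf P).map fun β => β.re - 1).sum : ℝ) = ((chern r P 1 : ℤ) : ℝ) := by
  have h1 : (rootsOf P).sum = -((P.coeff (r - 1) : ℤ) : ℂ) := by
    have h2 := (IsAlgClosed.splits (P.map (Int.castRingHom ℂ))).nextCoeff_eq_neg_sum_roots_of_monic
      (hP.map (Int.castRingHom ℂ))
    have h3 : (P.map (Int.castRingHom ℂ)).nextCoeff = ((P.coeff (r - 1) : ℤ) : ℂ) := by
      rw [nextCoeff_of_natDegree_pos (by rw [hP.natDegree_map, hr]; omega), hP.natDegree_map,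
        hr, coeff_map]
      rfl
    rw [h3] at h2
    rw [h2]
    unfold rootsOf
    ring
  have h4 : ((rootsOf P).map fun β => β.re - 1).sum =
      ((rootsOf P).map fun β => β - 1).sum.re := by
    have h5 := map_multiset_sum Complex.reAddGroupHom ((rootsOf P).map fun β => β - 1)
    rw [Multiset.map_map] at h5
    refine Eq.trans ?_ h5.symm
    congr 1
  rw [h4, Multiset.sum_map_sub, Multiset.map_id', h1]
  simp only [Multiset.map_const', Multiset.sum_replicate, FIN.card_rootsOf, hr, nsmul_eq_mul,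
    mul_one]
  rw [MAIN.chern_one r hr1 P hP hr]
  simp

/-- the Chern roots have real part at least one -/
theorem one_le_re {N r : ℕ} {P : ℤ[X]} (hr1 : 1 ≤ r) (h : CondU N r P)
    (hN : (8 * r + 1) * r ≤ N) : ∀ β ∈ rootsOf P, 1 ≤ β.re := by
  have hm1 : (N - r) / r * r ≤ N - r := Nat.div_mul_le_self _ _
  have hrN : r ≤ N := by nlinarith
  have hm8 : 8 * r ≤ (N - r) / r := by
    rw [Nat.le_div_iff_mul_le hr1]
    have : (8 * r + 1) * r = 8 * r * r + r := by ring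
    omega
  exact fun β hβ => (near_real hr1 hm8 h.monic h.deg h.nonneg (h.minors _ (by omega)) β hβ).1

/-- the real parts are at most `c₁` -/
theorem re_le {N r : ℕ} {P : ℤ[X]} (hr1 : 1 ≤ r) (h : CondU N r P)
    (hN : (8 * r + 1) * r ≤ N) : ∀ β ∈ rootsOf P, β.re ≤ 1 + ((chern r P 1 : ℤ) : ℝ) ∧
      |β.im| ≤ ((chern r P 1 : ℤ) : ℝ) := by
  have hm1 : (N - r) / r * r ≤ N - r := Nat.div_mul_le_self _ _
  have hrN : r ≤ N := by nlinarith
  have hm8 : 8 * r ≤ (N - r) / r := by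
    rw [Nat.le_div_iff_mul_le hr1]
    have : (8 * r + 1) * r = 8 * r * r + r := by ring
    omega
  intro β hβ
  obtain ⟨b1, b2, b3⟩ := near_real hr1 hm8 h.monic h.deg h.nonneg (h.minors _ (by omega)) β hβ
  refine ⟨b2, b3.trans ?_⟩
  have h0 : (0 : ℝ) ≤ ((chern r P 1 : ℤ) : ℝ) := by linarith
  have h1 : 8 * (r : ℝ) / (((N - r) / r : ℕ) : ℝ) ≤ 1 := by
    have h2 : (0 : ℝ) < (((N - r) / r : ℕ) : ℝ) := by
      have : 0 < (N - r) / r := by omega
      exact_mod_cast this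
    rw [div_le_one h2]
    exact_mod_cast hm8
  calc _ ≤ 1 * ((chern r P 1 : ℤ) : ℝ) := mul_le_mul_of_nonneg_right h1 h0
    _ = _ := one_mul _

/-- **The irreducible factors of the Chern polynomial.** -/
theorem main_gap {N r : ℕ} (hr : 1 ≤ r) (hs : Sizes N r) {P : ℤ[X]} (h : CondU N r P) {B : ℝ}
    (hB : 1 ≤ B) (hBr : B * (r : ℝ) ^ 2 * Real.log N ≤ 1e-9 * N)
    (hc1 : ((-P.coeff (r - 1) : ℤ) : ℝ) ≤ B * N) {Q : ℤ[X]} (hQm : Q.Monic)
    (hQi : Irreducible Q) (hQP : Q ∣ P) : (∃ a : ℤ, 1 ≤ a ∧ Q = X - C a) ∨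
      ∃ β ∈ rootsOf Q, ∃ γ ∈ rootsOf Q, 1 ≤ β.re ∧ β.re + 6 / 5 * (N : ℝ) < γ.re ∧
        γ.re ≤ ((-P.coeff (r - 1) : ℤ) : ℝ) := by
  have hr' : (1 : ℝ) ≤ r := by exact_mod_cast hr
  have hlog1 := hs.log1
  have hn6 : (1e6 : ℝ) ≤ N := by linarith [hs.logN]
  have hNpos : (0 : ℝ) < N := by linarith
  set S : ℤ := -P.coeff (r - 1) with hSdef
  have hchern : chern r P 1 = S - r := by
    rw [MAIN.chern_one r hr P h.monic h.deg, hSdef]
  have hchern' : ((chern r P 1 : ℤ) : ℝ) = S - r := by rw [hchern]; push_cast; ring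
  have hre := re_le hr h (hs.nat hr)
  rw [hchern'] at hre
  have h1re := one_le_re hr h (hs.nat hr)
  have hre' : ∀ β ∈ rootsOf P, β.re ≤ S ∧ |β.im| ≤ S := by
    intro β hβ
    obtain ⟨b2, b3⟩ := hre β hβ
    exact ⟨by linarith, by linarith⟩
  have hBN : B ≤ 1e-9 * N := by
    have h1 : 1 ≤ (r : ℝ) ^ 2 * Real.log N := by
      have := one_le_pow₀ hr' (n := 2)
      nlinarith
    have h2 : B * 1 ≤ B * ((r : ℝ) ^ 2 * Real.log N) :=
      mul_le_mul_of_nonneg_left h1 (by linarith)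
    linarith
  have hSN : 2 * (S : ℝ) ≤ (N : ℝ) ^ 2 := by
    have h1 : B * N ≤ 1e-9 * N * N := mul_le_mul_of_nonneg_right hBN hNpos.le
    have h2 : 0 ≤ (N : ℝ) * N := by positivity
    rw [_root_.sq]
    linarith
  obtain ⟨hd0, hprod⟩ := deg_facts h.monic h.deg h.nonneg
  have hdle : ((P.coeff 0).natAbs : ℝ) ≤ ((N : ℝ) ^ 2) ^ r := by
    have e1 : ((P.coeff 0).natAbs : ℝ) = ‖(rootsOf P).prod‖ := by
      rw [hprod, Complex.norm_natCast]
    rw [e1]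
    have e2 := Pool.Agent.U429.VV.norm_prod_le (rootsOf P) ((N : ℝ) ^ 2) (by positivity) (by
      intro β hβ
      obtain ⟨b2, b3⟩ := hre' β hβ
      refine (Complex.norm_le_abs_re_add_abs_im _).trans ?_
      rw [abs_of_nonneg (by linarith [h1re β hβ])]
      linarith)
    rw [FIN.card_rootsOf, h.deg] at e2
    exact e2
  have hlogd : Real.log ((P.coeff 0).natAbs : ℝ) ≤ 2 * r * Real.log N := by
    have e1 : (0 : ℝ) < ((P.coeff 0).natAbs : ℝ) := by exact_mod_cast hd0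
    have := Real.log_le_log e1 hdle
    rw [Real.log_pow, Real.log_pow] at this
    push_cast at this
    linarith
  have hdeg : (r : ℝ) * Real.log ((P.coeff 0).natAbs : ℝ) ≤ 1e-6 * N := by
    have h1 := mul_le_mul_of_nonneg_left hlogd (by linarith : (0 : ℝ) ≤ r)
    have h2 : (r : ℝ) * (2 * r * Real.log N) = 2 * ((r : ℝ) ^ 2 * Real.log N) := by ring
    rw [h2] at h1
    linarith [hs.le]
  rcases Nat.lt_or_ge Q.natDegree 2 with hlt | hge
  · exact Or.inl (linear_factor h.monic h.deg h.nonneg hQm hQi hQP hlt)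
  · right
    have hY : B * N * ((r : ℝ) ^ 2 * Real.log N) ≤ 1e-8 * (N : ℝ) ^ 2 := by
      have h1 : B * (r : ℝ) ^ 2 * Real.log N * N ≤ 1e-9 * N * N :=
        mul_le_mul_of_nonneg_right hBr hNpos.le
      have h2 : 0 ≤ (N : ℝ) * N := by positivity
      have h3 : B * N * ((r : ℝ) ^ 2 * Real.log N) = B * (r : ℝ) ^ 2 * Real.log N * N := by ring
      rw [h3, _root_.sq]
      linarith
    obtain ⟨β, hβ, γ, hγ, h1, h2⟩ := main_factor hr hs h hdeg hY hQm hQi hQP hge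
      (fun β hβ => (hre' β (MAIN.rootsOf_sub h.monic hQP β hβ)).1.trans hc1)
    exact ⟨β, hβ, γ, hγ, h1, h2, (hre' γ (MAIN.rootsOf_sub h.monic hQP γ hγ)).1⟩

end Pool.Agent.U429.UF
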