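import Pool.Agent.U429.UF.Val

/-!
# Valuations of the products of consecutive translates of the Chern roots
-/

set_option autoImplicit false

open Finset Polynomial

namespace Pool.Agent.U429.UF

open Pool.Agent.N17.HC Pool.Agent.N17.HC.KOS
open Pool.Agent.R920.CH (IsIntegerValued aeval_bin natDegree_bin bin_int intVal_comp intVal_mul)

variable {Γ : Type} [LinearOrderedCommGroupWithZero Γ] {v : Valuation ℂ Γ} {p : ℕ}

/-- Newton's identities -/
theorem esymm_val (h : Above v p) {r : ℕ} (x : Fin r → ℂ)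
    (hx : ∀ t, 1 ≤ t → t ≤ r → v (∑ i, x i ^ t) ≤ 1) (t : ℕ) (ht : t ≤ r) :
    v ((t.factorial : ℂ) * MvPolynomial.aeval x (MvPolynomial.esymm (Fin r) ℂ t)) ≤ 1 := by
  induction t using Nat.strong_induction_on with
  | _ t ih =>
    rcases Nat.eq_zero_or_pos t with h0 | h0
    · subst h0
      simp
    obtain ⟨t, rfl⟩ : ∃ u, t = u + 1 := ⟨t - 1, by omega⟩
    have h1 := congrArg (MvPolynomial.aeval x) (MvPolynomial.mul_esymm_eq_sum (Fin r) ℂ (t + 1))
    rw [map_mul, map_natCast, map_mul, map_pow, map_neg, map_one, map_sum] at h1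
    have h2 : (((t + 1).factorial : ℕ) : ℂ) *
        MvPolynomial.aeval x (MvPolynomial.esymm (Fin r) ℂ (t + 1)) =
        (t.factorial : ℂ) * (((t + 1 : ℕ) : ℂ) *
          MvPolynomial.aeval x (MvPolynomial.esymm (Fin r) ℂ (t + 1))) := by
      rw [Nat.factorial_succ]; push_cast; ring
    rw [h2, h1, ← mul_assoc, Finset.mul_sum]
    refine v.map_sum_le fun a ha => ?_
    rw [Finset.mem_filter] at ha
    obtain ⟨ha1, ha2⟩ := ha
    have ha1 := Finset.HasAntidiagonal.mem_antidiagonal.1 ha1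
    have h3 : a.1 ≤ t := by omega
    obtain ⟨m, hm⟩ := Nat.factorial_dvd_factorial h3
    have h4 : MvPolynomial.aeval x (MvPolynomial.psum (Fin r) ℂ a.2) = ∑ i, x i ^ a.2 := by
      rw [MvPolynomial.psum, map_sum]
      refine Finset.sum_congr rfl fun i _ => ?_
      rw [map_pow, MvPolynomial.aeval_X]
    have e0 : MvPolynomial.aeval x ((-1) ^ a.1 * MvPolynomial.esymm (Fin r) ℂ a.1 *
        MvPolynomial.psum (Fin r) ℂ a.2) = (-1) ^ a.1 *
        MvPolynomial.aeval x (MvPolynomial.esymm (Fin r) ℂ a.1) * ∑ i, x i ^ a.2 := by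
      rw [map_mul, map_mul, map_pow, map_neg, map_one, h4]
    rw [e0, hm]
    have h5 : (((a.1.factorial * m : ℕ) : ℂ) * (-1) ^ (t + 1 + 1)) * ((-1) ^ a.1 *
        MvPolynomial.aeval x (MvPolynomial.esymm (Fin r) ℂ a.1) * ∑ i, x i ^ a.2) =
        (-1) ^ (t + 1 + 1 + a.1) * ((m : ℂ) * ((a.1.factorial : ℂ) *
          MvPolynomial.aeval x (MvPolynomial.esymm (Fin r) ℂ a.1)) * ∑ i, x i ^ a.2) := by
      push_cast; ring
    rw [h5, map_mul, map_pow, Valuation.map_neg, map_one, one_pow, one_mul, map_mul, map_mul]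
    exact mul_le_one' (mul_le_one' (h.nat_le m) (ih a.1 (by omega) (by omega)))
      (hx a.2 (by omega) (by omega))

theorem newton_bound (h : Above v p) (s : Multiset ℂ)
    (hs : ∀ t, 1 ≤ t → t ≤ Multiset.card s → v ((s.map (· ^ t)).sum) ≤ 1) :
    ∀ x ∈ s, v x ^ (p - 1) * v (p : ℂ) ≤ 1 := by
  intro x hxs
  by_contra hcon
  push Not at hcon
  have : Fact p.Prime := ⟨h.prime⟩
  have hp1 : p - 1 ≠ 0 := by have := h.prime.one_lt; omega
  -- the indexed family
  obtain ⟨r, f, hf⟩ : ∃ (r : ℕ) (f : Fin r → ℂ), s = Finset.univ.val.map f := by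
    induction s using Quotient.inductionOn with
    | _ l =>
      refine ⟨l.length, l.get, ?_⟩
      rw [Fin.univ_val_map, List.ofFn_get]
      rfl
  have hr : Multiset.card s = r := by rw [hf]; simp
  have he : ∀ j ≤ r, v ((j.factorial : ℂ) * s.esymm j) ≤ 1 := by
    intro j hj
    have h1 := esymm_val h f (fun t ht1 ht2 => by
      have := hs t ht1 (by rw [hr]; exact ht2)
      rw [hf, Multiset.map_map] at this
      exact this) j hj
    rw [MvPolynomial.aeval_esymm_eq_multiset_esymm, ← hf] at h1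
    exact h1
  have he2 : ∀ j ≤ r, v (s.esymm j) ^ (p - 1) * v (p : ℂ) ^ j ≤ 1 := by
    intro j hj
    have h1 := he j hj
    rw [map_mul, h.nat_eq j.factorial_ne_zero] at h1
    have h2 : (p - 1) * padicValNat p j.factorial ≤ j := by
      rw [sub_one_mul_padicValNat_factorial]
      exact Nat.sub_le _ _
    calc v (s.esymm j) ^ (p - 1) * v (p : ℂ) ^ j ≤
        v (s.esymm j) ^ (p - 1) * v (p : ℂ) ^ ((p - 1) * padicValNat p j.factorial) :=
          mul_le_mul' le_rfl (h.pow_le h2)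
      _ = (v (p : ℂ) ^ padicValNat p j.factorial * v (s.esymm j)) ^ (p - 1) := by
          rw [mul_pow, ← pow_mul, mul_comm (p - 1), mul_comm]
      _ ≤ 1 := pow_le_one' h1 _
  have hlt : ∀ j, 1 ≤ j → j ≤ r → v (s.esymm j) < v x ^ j := by
    intro j hj1 hj
    have h1 : 1 < (v x ^ (p - 1) * v (p : ℂ)) ^ j := one_lt_pow₀ hcon (by omega)
    have h2 := (he2 j hj).trans_lt h1
    rw [mul_pow] at h2
    have h3 : v (s.esymm j) ^ (p - 1) < (v x ^ (p - 1)) ^ j := by
      have h4 : 0 < v (p : ℂ) ^ j := pow_pos h.pos j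
      exact (mul_lt_mul_iff_left₀ h4).1 h2
    rw [← pow_mul, mul_comm, pow_mul] at h3
    exact lt_of_pow_lt_pow_left' (p - 1) h3
  have hx0 : v x ≠ 0 := by
    intro h0
    rw [h0, zero_pow hp1, zero_mul] at hcon
    exact absurd hcon (not_lt.2 zero_le_one)
  -- the polynomial
  have h1 := congrArg (Polynomial.eval x) (Multiset.prod_X_sub_X_eq_sum_esymm s)
  have h2 : Polynomial.eval x (Multiset.map (fun t => X - C t) s).prod = 0 := by
    rw [Polynomial.eval_multiset_prod, Multiset.map_map]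
    apply Multiset.prod_eq_zero
    rw [Multiset.mem_map]
    exact ⟨x, hxs, by simp⟩
  rw [h2, Polynomial.eval_finsetSum, Finset.sum_range_succ', hr] at h1
  have he0 : s.esymm 0 = 1 := by simp [Multiset.esymm]
  simp only [pow_zero, he0, map_one, one_mul, Nat.sub_zero, eval_pow, eval_X] at h1
  have h3 : x ^ r = -∑ k ∈ range r, eval x ((-1) ^ (k + 1) * (C (s.esymm (k + 1)) *
      X ^ (r - (k + 1)))) := by
    linear_combination -h1
  have h4 : v (x ^ r) < v (x ^ r) := by
    conv_lhs => rw [h3]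
    rw [Valuation.map_neg]
    refine v.map_sum_lt ?_ fun k hk => ?_
    · rw [map_pow]; exact pow_ne_zero _ hx0
    · rw [mem_range] at hk
      rw [eval_mul, eval_pow, eval_neg, eval_one, eval_mul, eval_C, eval_pow, eval_X, map_mul,
        map_pow, Valuation.map_neg, map_one, one_pow, one_mul, map_mul, map_pow, map_pow]
      have h5 := hlt (k + 1) (by omega) (by omega)
      have h6 : v x ^ r = v x ^ (k + 1) * v x ^ (r - (k + 1)) := by
        rw [← pow_add]; congr 1; omega
      rw [h6]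
      exact (mul_lt_mul_iff_left₀ (pow_pos (zero_lt_iff.2 hx0) _)).2 h5
  exact lt_irrefl _ h4

/-- the values of the binomial polynomials -/
theorem bin_val (h : Above v p) {N : ℕ} {s : Multiset ℂ} (hT : AllInt N s) {d : ℕ}
    (hd : s.prod = d) (hd0 : 0 < d) {w K : ℕ} (hw : padicValNat p d ≤ w)
    (hK : (w + 1) * K + Multiset.card s ≤ N) (q : ℕ) (hq : Multiset.card s * q ≤ K) (c : ℤ) :
    ∀ β ∈ s, v (∏ i ∈ range q, (β - c - i)) ^ (p - 1) * v (p : ℂ) ≤
      v (q.factorial : ℂ) ^ (p - 1) := by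
  intro β hβ
  set f : ℚ[X] := (Pool.Agent.R920.CH.bin q).comp (X + C ((-c : ℤ) : ℚ)) with hf
  have hf1 : IsIntegerValued f := intVal_comp (bin_int q) _
  have hf2 : f.natDegree ≤ q := by
    rw [hf, natDegree_comp]
    have : (X + C ((-c : ℤ) : ℚ)).natDegree = 1 := natDegree_X_add_C _
    rw [this, mul_one]
    exact natDegree_bin q
  have hfv : ∀ x : ℂ, aeval x f = (q.factorial : ℂ)⁻¹ * ∏ i ∈ range q, (x - c - i) := by
    intro x
    rw [hf, aeval_comp]
    have : aeval x (X + C ((-c : ℤ) : ℚ)) = x - c := by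
      rw [map_add, aeval_X, aeval_C]
      push_cast
      simp [sub_eq_add_neg]
    rw [this, aeval_bin]
  have hpow : ∀ t, IsIntegerValued (f ^ t) := by
    intro t
    induction t with
    | zero => intro m; exact ⟨1, by simp⟩
    | succ t ih => rw [pow_succ]; exact intVal_mul ih hf1
  have h1 := newton_bound h (s.map fun x => aeval x f) (by
    intro t ht1 ht2
    rw [Multiset.card_map] at ht2
    rw [Multiset.map_map]
    have := int_val hT hd hd0 h hw hK (f ^ t) (hpow t) (by
      refine natDegree_pow_le.trans ?_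
      calc t * f.natDegree ≤ Multiset.card s * q := Nat.mul_le_mul ht2 hf2
        _ ≤ K := hq)
    simp only [map_pow] at this
    exact this) (aeval β f) (Multiset.mem_map_of_mem _ hβ)
  rw [hfv, map_mul, map_inv₀, mul_pow, inv_pow] at h1
  have h2 : 0 < v (q.factorial : ℂ) ^ (p - 1) := by
    apply pow_pos
    rw [zero_lt_iff, Valuation.ne_zero_iff]
    exact_mod_cast q.factorial_ne_zero
  calc v (∏ i ∈ range q, (β - c - i)) ^ (p - 1) * v (p : ℂ) =
      v (q.factorial : ℂ) ^ (p - 1) * ((v (q.factorial : ℂ) ^ (p - 1))⁻¹ *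
        v (∏ i ∈ range q, (β - c - i)) ^ (p - 1) * v (p : ℂ)) := by
        rw [← mul_assoc, ← mul_assoc, mul_inv_cancel₀ h2.ne', one_mul]
    _ ≤ v (q.factorial : ℂ) ^ (p - 1) * 1 := mul_le_mul' le_rfl h1
    _ = _ := mul_one _

/-- the division into blocks -/
theorem block_val (h : Above v p) (j : ℕ) {β : ℂ}
    (H : ∀ k ≤ p ^ j, ∀ c : ℤ, v (∏ i ∈ range k, (β - c - i)) ^ (p - 1) * v (p : ℂ) ≤
      v (k.factorial : ℂ) ^ (p - 1)) (L : ℕ) (c : ℤ) :
    v (∏ i ∈ range L, (β - c - i)) ^ (p - 1) * v (p : ℂ) ^ (2 * (L / p ^ j) + 1) ≤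
      v (p : ℂ) ^ ((p - 1) * padicValNat p L.factorial) := by
  have hq : 0 < p ^ j := pow_pos h.prime.pos j
  have key : ∀ (u : ℕ) (k' : ℕ), k' < p ^ j → ∀ c : ℤ,
      v (∏ i ∈ range (u * p ^ j + k'), (β - c - i)) ^ (p - 1) * v (p : ℂ) ^ (u + 1) ≤
        v (p : ℂ) ^ (u * ((p - 1) * padicValNat p (p ^ j).factorial) +
          (p - 1) * padicValNat p k'.factorial) := by
    intro u
    induction u with
    | zero =>
      intro k' hk' c
      rw [zero_mul, zero_add, zero_mul, zero_add, zero_add, pow_one]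
      refine (H k' hk'.le c).trans (le_of_eq ?_)
      rw [h.nat_eq k'.factorial_ne_zero, ← pow_mul, mul_comm]
    | succ u ih =>
      intro k' hk' c
      have e1 : (u + 1) * p ^ j + k' = p ^ j + (u * p ^ j + k') := by ring
      rw [e1, Finset.prod_range_add]
      have e2 : ∏ i ∈ range (u * p ^ j + k'), (β - c - ((p ^ j + i : ℕ) : ℂ)) =
          ∏ i ∈ range (u * p ^ j + k'), (β - ((c + p ^ j : ℤ) : ℂ) - i) := by
        refine Finset.prod_congr rfl fun i _ => ?_
        push_cast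
        ring
      rw [e2, map_mul, mul_pow]
      have h1 := H (p ^ j) le_rfl c
      have h2 := ih k' hk' (c + p ^ j)
      rw [h.nat_eq (p ^ j).factorial_ne_zero, ← pow_mul, mul_comm (padicValNat _ _)] at h1
      calc v (∏ i ∈ range (p ^ j), (β - c - i)) ^ (p - 1) *
            v (∏ i ∈ range (u * p ^ j + k'), (β - ((c + p ^ j : ℤ) : ℂ) - i)) ^ (p - 1) *
            v (p : ℂ) ^ (u + 1 + 1) =
          (v (∏ i ∈ range (p ^ j), (β - c - i)) ^ (p - 1) * v (p : ℂ)) *
          (v (∏ i ∈ range (u * p ^ j + k'), (β - ((c + p ^ j : ℤ) : ℂ) - i)) ^ (p - 1) *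
            v (p : ℂ) ^ (u + 1)) := by
            rw [pow_succ (v (p : ℂ)) (u + 1)]
            ac_rfl
        _ ≤ v (p : ℂ) ^ ((p - 1) * padicValNat p (p ^ j).factorial) *
            v (p : ℂ) ^ (u * ((p - 1) * padicValNat p (p ^ j).factorial) +
              (p - 1) * padicValNat p k'.factorial) := mul_le_mul' h1 h2
        _ = _ := by
            rw [← pow_add]
            congr 1
            ring
  have h1 := key (L / p ^ j) (L % p ^ j) (Nat.mod_lt _ hq) c
  rw [mul_comm (L / p ^ j) (p ^ j), Nat.div_add_mod] at h1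
  have h2 := leg h.prime j L
  calc v (∏ i ∈ range L, (β - c - i)) ^ (p - 1) * v (p : ℂ) ^ (2 * (L / p ^ j) + 1) =
      v (∏ i ∈ range L, (β - c - i)) ^ (p - 1) * v (p : ℂ) ^ (L / p ^ j + 1) *
        v (p : ℂ) ^ (L / p ^ j) := by
        rw [mul_assoc, ← pow_add]
        congr 2
        ring
    _ ≤ v (p : ℂ) ^ (L / p ^ j * ((p - 1) * padicValNat p (p ^ j).factorial) +
          (p - 1) * padicValNat p (L % p ^ j).factorial) * v (p : ℂ) ^ (L / p ^ j) :=
        mul_le_mul' h1 le_rfl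
    _ ≤ _ := by
        rw [← pow_add]
        exact h.pow_le h2

/-- algebraic integers -/
theorem val_root (h : Above v p) {P : ℤ[X]} (hP : P.Monic) {β : ℂ} (hβ : aeval β P = 0) :
    v β ≤ 1 := by
  by_contra hcon
  push Not at hcon
  have h0 : 0 < v β := lt_trans zero_lt_one hcon
  rw [aeval_eq_sum_range, Finset.sum_range_succ] at hβ
  have h1 : P.coeff P.natDegree = 1 := hP.coeff_natDegree
  rw [h1, one_smul] at hβ
  have h2 : β ^ P.natDegree = -∑ i ∈ range P.natDegree, P.coeff i • β ^ i := by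
    linear_combination hβ
  have h4 : v (β ^ P.natDegree) < v (β ^ P.natDegree) := by
    conv_lhs => rw [h2]
    rw [Valuation.map_neg]
    refine v.map_sum_lt ?_ fun k hk => ?_
    · rw [map_pow]; exact pow_ne_zero _ h0.ne'
    · rw [mem_range] at hk
      rw [zsmul_eq_mul, map_mul, map_pow, map_pow]
      calc v (P.coeff k : ℂ) * v β ^ k ≤ 1 * v β ^ k := mul_le_mul' (h.le _) le_rfl
        _ = v β ^ k := one_mul _
        _ < v β ^ P.natDegree := pow_lt_pow_right₀ hcon hk
  exact lt_irrefl _ h4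

/-- the valuation of `∏ (β - c - i)`, `i < L`, for the Chern roots `β` -/
theorem root_val (h : Above v p) {N : ℕ} {s : Multiset ℂ} (hT : AllInt N s) {d : ℕ}
    (hd : s.prod = d) (hd0 : 0 < d) {w : ℕ} (hw : padicValNat p d ≤ w)
    (hs1 : 1 ≤ Multiset.card s) (hsN : Multiset.card s ≤ N) (hint : ∀ β ∈ s, v β ≤ 1)
    (L : ℕ) (hL : L ≤ 2 * (N - Multiset.card s)) (c : ℤ) :
    ∀ β ∈ s, v (∏ i ∈ range L, (β - c - i)) ^ (p - 1) *
        v (p : ℂ) ^ (8 * (p - 1) * Multiset.card s * (w + 1)) ≤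
      v (p : ℂ) ^ ((p - 1) * padicValNat p L.factorial) := by
  intro β hβ
  set r := Multiset.card s with hr
  have hp := h.prime.two_le
  set K := (N - r) / (w + 1) with hKdef
  set j := Nat.log p (K / r) with hj
  have hKN : (w + 1) * K + r ≤ N := by
    have : (w + 1) * K ≤ N - r := Nat.mul_div_le (N - r) (w + 1)
    omega
  -- the first hypothesis
  have H : ∀ k ≤ p ^ j, ∀ c : ℤ, v (∏ i ∈ range k, (β - c - i)) ^ (p - 1) * v (p : ℂ) ≤
      v (k.factorial : ℂ) ^ (p - 1) := by
    rcases Nat.eq_zero_or_pos (K / r) with h0 | h0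
    · have hj0 : j = 0 := by rw [hj, h0]; simp
      rw [hj0, pow_zero]
      intro k hk c
      have hk1 : k.factorial = 1 := by
        interval_cases k <;> rfl
      rw [hk1, Nat.cast_one, map_one, one_pow]
      refine mul_le_one' (pow_le_one' ?_ _) h.lt.le
      rw [map_prod]
      refine Finset.prod_le_one' fun i _ => ?_
      refine (v.map_sub _ _).trans (max_le ((v.map_sub _ _).trans (max_le (hint β hβ) (h.le c))) ?_)
      exact h.nat_le i
    · intro k hk c
      refine bin_val h hT hd hd0 hw hKN k ?_ c β hβ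
      have h1 : p ^ j ≤ K / r := Nat.pow_log_le_self p h0.ne'
      calc r * k ≤ r * (K / r) := Nat.mul_le_mul_left _ (hk.trans h1)
        _ ≤ K := Nat.mul_div_le K r
  have h1 := block_val h j H L c
  refine le_trans (mul_le_mul' le_rfl (h.pow_le ?_)) h1
  -- the size of the exponent
  have h2 : K / r < p ^ (j + 1) := Nat.lt_pow_succ_log_self h.prime.one_lt _
  have h3 : K < r * p ^ (j + 1) := by
    have h4 : K < r * (K / r + 1) := Nat.lt_mul_div_succ K hs1
    exact h4.trans_le (Nat.mul_le_mul_left _ h2)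
  have h5 : N - r < (w + 1) * (K + 1) := Nat.lt_mul_div_succ (N - r) (by omega)
  have h6 : N - r < (w + 1) * (r * p ^ (j + 1)) :=
    h5.trans_le (Nat.mul_le_mul_left _ h3)
  have h7 : L < p ^ j * (2 * p * r * (w + 1)) := by
    calc L ≤ 2 * (N - r) := hL
      _ < 2 * ((w + 1) * (r * p ^ (j + 1))) := by omega
      _ = _ := by rw [pow_succ]; ring
  have h8 : L / p ^ j < 2 * p * r * (w + 1) := Nat.div_lt_of_lt_mul h7
  have h9 : 2 * (L / p ^ j) + 1 ≤ 2 * (2 * p * r * (w + 1)) := by omega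
  refine h9.trans ?_
  have h10 : p ≤ 2 * (p - 1) := by omega
  calc 2 * (2 * p * r * (w + 1)) = 4 * p * (r * (w + 1)) := by ring
    _ ≤ 4 * (2 * (p - 1)) * (r * (w + 1)) := by gcongr
    _ = _ := by ring

end Pool.Agent.U429.UF
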