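import Pool.Agent.U429.UF.Sector
import Pool.Agent.N17.HC.FIN
import Pool.Agent.N17.CK.MAIN

/-!
# The Chern roots are nearly real
-/

set_option autoImplicit false

open Matrix Finset Polynomial

namespace Pool.Agent.U429.UF

open Pool.Agent.N17.HC Pool.Agent.N17.CK

/-- the Chern numbers of `N_X(-1)` as real numbers -/
noncomputable def cr (r : ℕ) (P : ℤ[X]) (i : ℕ) : ℝ := if i ≤ r then ((chern r P i : ℤ) : ℝ) else 0

theorem cr_zero {r : ℕ} {P : ℤ[X]} (hP : P.Monic) (hr : P.natDegree = r) : cr r P 0 = 1 := by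
  have h1 : (P.comp (X + 1)).Monic := by
    have : (X + 1 : ℤ[X]) = X + C 1 := by simp
    rw [this]
    exact hP.comp_X_add_C 1
  have h2 : (P.comp (X + 1)).natDegree = r := by
    have : (X + 1 : ℤ[X]) = X + C 1 := by simp
    rw [natDegree_comp, this, natDegree_X_add_C, mul_one, hr]
  have h3 : (P.comp (X + 1)).coeff r = 1 := by rw [← h2]; exact h1.coeff_natDegree
  simp [cr, chern, h3]

theorem eval_zero {r : ℕ} {P : ℤ[X]} (hr : P.natDegree = r) {γ : ℂ}
    (hγ0 : γ ≠ 0) (hγ : aeval (γ + 1) P = 0) :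
    ∑ i ∈ range (r + 1), (cr r P i : ℂ) * (-γ⁻¹) ^ i = 0 := by
  have h2 : (P.comp (X + 1)).natDegree = r := by
    have : (X + 1 : ℤ[X]) = X + C 1 := by simp
    rw [natDegree_comp, this, natDegree_X_add_C, mul_one, hr]
  have h1 : aeval γ (P.comp (X + 1)) = 0 := by
    rw [aeval_comp]
    simpa using hγ
  rw [aeval_eq_sum_range, h2] at h1
  have h3 : ∀ i ∈ range (r + 1), (cr r P i : ℂ) * (-γ⁻¹) ^ i =
      (γ ^ r)⁻¹ * (((P.comp (X + 1)).coeff (r - i)) • γ ^ (r - i)) := by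
    intro i hi
    rw [mem_range] at hi
    rw [cr, if_pos (by omega), chern, zsmul_eq_mul]
    push_cast
    rw [neg_pow (γ⁻¹), inv_pow]
    have e1 : γ ^ r = γ ^ (r - i) * γ ^ i := by rw [← pow_add]; congr 1; omega
    have e2 : ((-1 : ℂ) ^ i) * (-1) ^ i = 1 := by
      rw [← mul_pow]; norm_num
    rw [e1, mul_inv]
    have h5 : γ ^ (r - i) ≠ 0 := pow_ne_zero _ hγ0
    calc (-1 : ℂ) ^ i * ((P.comp (X + 1)).coeff (r - i) : ℂ) * ((-1) ^ i * (γ ^ i)⁻¹) =
        ((-1 : ℂ) ^ i * (-1) ^ i) * (((P.comp (X + 1)).coeff (r - i) : ℂ) * (γ ^ i)⁻¹) := by ring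
      _ = ((P.comp (X + 1)).coeff (r - i) : ℂ) * (γ ^ i)⁻¹ := by rw [e2, one_mul]
      _ = _ := by field_simp
  rw [Finset.sum_congr rfl h3, ← Finset.mul_sum, Finset.sum_range_reflect' h1]
  simp
where
  Finset.sum_range_reflect' {r : ℕ} {P : ℤ[X]} {γ : ℂ}
      (h1 : ∑ i ∈ range (r + 1), (P.comp (X + 1)).coeff i • γ ^ i = 0) :
      ∑ i ∈ range (r + 1), (P.comp (X + 1)).coeff (r - i) • γ ^ (r - i) = 0 := by
    have := Finset.sum_range_reflect (fun i => (P.comp (X + 1)).coeff i • γ ^ i) (r + 1)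
    simp only [Nat.add_sub_cancel] at this
    rw [← h1, ← this]

/-- all the Toeplitz minors of order `m` -/
def MinorsNonneg (r m : ℕ) (P : ℤ[X]) : Prop :=
  ∀ a : Fin m → ℕ, StrictMono a → (∀ i, a i < r + m) →
    0 ≤ (Matrix.of fun i j : Fin m => toep (cr r P) (a i) j).det

theorem arg_le {r m : ℕ} (hr1 : 1 ≤ r) (hm : 2 ≤ m) {P : ℤ[X]} (hP : P.Monic)
    (hr : P.natDegree = r) (hnn : ∀ i ≤ r, 0 ≤ chern r P i) (hpos : MinorsNonneg r m P) {γ : ℂ}
    (hγ0 : γ ≠ 0) (hγ : aeval (γ + 1) P = 0) :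
    |Complex.arg γ| ≤ Real.pi * r / (r + m - 1) := by
  by_contra hcon
  push Not at hcon
  have hm' : (2 : ℝ) ≤ m := by exact_mod_cast hm
  have hr' : (1 : ℝ) ≤ r := by exact_mod_cast hr1
  have hpi := Real.pi_pos
  set θ := Complex.arg γ with hθ
  have hθ2 : |θ| ≤ Real.pi := Complex.abs_arg_le_pi γ
  set ψ : ℝ := Real.pi - |θ| with hψ
  have hψ0 : 0 ≤ ψ := by rw [hψ]; linarith
  set ρ : ℝ := ‖γ‖⁻¹ with hρ
  have hρ0 : 0 < ρ := inv_pos.2 (norm_pos_iff.2 hγ0)
  set CC : ℂ → ℂ := fun y => ∑ i ∈ range (r + 1), (cr r P i : ℂ) * y ^ i with hCC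
  have hzero : CC (-γ⁻¹) = 0 := eval_zero hr hγ0 hγ
  have hconj : ∀ y, CC (starRingEnd ℂ y) = starRingEnd ℂ (CC y) := by
    intro y
    simp only [hCC, map_sum, map_mul, map_pow, Complex.conj_ofReal]
  have hγe : γ = ‖γ‖ * Complex.exp (θ * Complex.I) := (Complex.norm_mul_exp_arg_mul_I γ).symm
  have hz : CC (ρ * Complex.exp (ψ * Complex.I)) = 0 := by
    have hinv : -γ⁻¹ = ρ * Complex.exp ((Real.pi - θ : ℝ) * Complex.I) := by
      rw [hγe, mul_inv, ← Complex.exp_neg, hρ]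
      push_cast
      rw [sub_mul, Complex.exp_sub, Complex.exp_pi_mul_I]
      have : Complex.exp (-(θ * Complex.I)) = (Complex.exp (θ * Complex.I))⁻¹ := Complex.exp_neg _
      rw [this]
      ring
    rcases le_total 0 θ with h | h
    · rw [hψ, abs_of_nonneg h, ← hinv]
      exact hzero
    · have h1 : ρ * Complex.exp (ψ * Complex.I) = starRingEnd ℂ (-γ⁻¹) := by
        rw [hinv, map_mul, Complex.conj_ofReal, ← Complex.exp_conj, map_mul, Complex.conj_ofReal,
          Complex.conj_I, hψ, abs_of_nonpos h]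
        congr 1
        have e1 : ((Real.pi - θ : ℝ) : ℂ) * -Complex.I =
            ((Real.pi - -θ : ℝ) : ℂ) * Complex.I - 2 * Real.pi * Complex.I := by
          push_cast; ring
        rw [e1, Complex.exp_sub, Complex.exp_two_pi_mul_I, div_one]
      rw [h1, hconj, hzero, map_zero]
  rcases hψ0.eq_or_lt with h0 | h0
  · -- on the real axis
    rw [← h0] at hz
    simp only [Complex.ofReal_zero, zero_mul, Complex.exp_zero, mul_one, hCC] at hz
    have h1 : (0 : ℝ) < ∑ i ∈ range (r + 1), cr r P i * ρ ^ i := by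
      refine Finset.sum_pos' (fun i hi => ?_) ⟨0, by simp, ?_⟩
      · rw [mem_range] at hi
        refine mul_nonneg ?_ (pow_nonneg hρ0.le _)
        rw [cr, if_pos (by omega)]
        exact_mod_cast hnn i (by omega)
      · rw [cr_zero hP hr]; simp
    have h2 : ((∑ i ∈ range (r + 1), cr r P i * ρ ^ i : ℝ) : ℂ) = 0 := by
      rw [← hz]
      push_cast
      rfl
    have h3 : (∑ i ∈ range (r + 1), cr r P i * ρ ^ i) = 0 := by exact_mod_cast h2
    linarith
  · have hm1 : (0 : ℝ) < (m : ℝ) - 1 := by linarith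
    have hrm : (0 : ℝ) < (r : ℝ) + m - 1 := by linarith
    set φ : ℝ := 2 * ψ / (m - 1) with hφ
    have hφ0 : 0 < φ := by positivity
    have hφ1 : φ * ((r : ℝ) + m - 1) / 2 < Real.pi := by
      have e1 : φ * ((r : ℝ) + m - 1) / 2 = ψ * (r + m - 1) / (m - 1) := by
        rw [hφ]; field_simp
      rw [e1, div_lt_iff₀ hm1]
      rw [div_lt_iff₀ hrm] at hcon
      rw [hψ]
      nlinarith
    have h1 := no_zero r m φ ρ (by omega) (cr r P) (cr_zero hP hr)
      (fun i hi => by rw [cr, if_neg (by omega)]) hpos hφ0 hφ1 hρ0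
    apply h1
    have h2 : Complex.exp (φ / 2 * Complex.I) ^ (m - 1) = Complex.exp (ψ * Complex.I) := by
      rw [← Complex.exp_nat_mul]
      congr 1
      rw [Nat.cast_sub (by omega), hφ]
      push_cast
      have : ((m : ℂ) - 1) ≠ 0 := by
        have : (((m : ℝ) - 1 : ℝ) : ℂ) ≠ 0 := by exact_mod_cast hm1.ne'
        push_cast at this
        exact this
      field_simp
    rw [h2]
    exact hz

/-- **The Chern roots lie in a small sector.** -/
theorem sector {r m : ℕ} (hr1 : 1 ≤ r) (hm : 8 * r ≤ m) {P : ℤ[X]} (hP : P.Monic)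
    (hr : P.natDegree = r) (hnn : ∀ i ≤ r, 0 ≤ chern r P i) (hpos : MinorsNonneg r m P) :
    ∀ β ∈ rootsOf P, 0 ≤ (β - 1).re ∧ |β.im| ≤ 8 * r / m * (β - 1).re := by
  have hm' : (8 : ℝ) * r ≤ m := by exact_mod_cast hm
  have hr' : (1 : ℝ) ≤ r := by exact_mod_cast hr1
  have hm0 : (0 : ℝ) < m := by linarith
  have hrm : (0 : ℝ) < (r : ℝ) + m - 1 := by linarith
  have hpi := Real.pi_lt_four
  have hpi3 : Real.pi < 3.15 := Real.pi_lt_d2
  have hα : Real.pi * r / (r + m - 1) ≤ 4 * r / m := by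
    rw [div_le_div_iff₀ hrm hm0]
    have : Real.pi * r * m ≤ 4 * r * m := by
      have : 0 ≤ (r : ℝ) * m := by positivity
      nlinarith
    have h2 : (0 : ℝ) ≤ 4 * r * (r - 1) := by
      have : (0 : ℝ) ≤ (r : ℝ) - 1 := by linarith
      positivity
    nlinarith
  have hα2 : 4 * (r : ℝ) / m ≤ 1 / 2 := by
    rw [div_le_iff₀ hm0]; linarith
  intro β hβ
  have hroot : aeval β P = 0 := by
    have := (Polynomial.mem_roots (hP.map (Int.castRingHom ℂ)).ne_zero).1 hβ
    rw [Polynomial.IsRoot.def, eval_map] at this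
    rw [aeval_def]
    exact this
  by_cases h0 : β - 1 = 0
  · have h1 : β.im = 0 := by
      have := congrArg Complex.im h0
      simpa using this
    rw [h0, h1]
    simp
  · have h1 := arg_le hr1 (by omega) hP hr hnn hpos h0 (by rw [sub_add_cancel]; exact hroot)
    set γ := β - 1 with hγ
    have hθ : |Complex.arg γ| ≤ 4 * r / m := h1.trans hα
    have hn : 0 ≤ ‖γ‖ := norm_nonneg _
    have hre : γ.re = ‖γ‖ * Real.cos (Complex.arg γ) := by
      rw [Complex.norm_mul_cos_arg]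
    have him : γ.im = ‖γ‖ * Real.sin (Complex.arg γ) := by
      rw [Complex.norm_mul_sin_arg]
    have hcos : 1 / 2 ≤ Real.cos (Complex.arg γ) := by
      have e1 := Real.one_sub_sq_div_two_le_cos (x := Complex.arg γ)
      have e2 : |Complex.arg γ| ≤ 1 / 2 := hθ.trans hα2
      have e3 : Complex.arg γ ^ 2 ≤ 1 / 4 := by
        rw [← sq_abs]
        nlinarith [abs_nonneg (Complex.arg γ)]
      linarith
    have hsin : |Real.sin (Complex.arg γ)| ≤ 4 * r / m := Real.abs_sin_le_abs.trans hθ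
    have him2 : β.im = γ.im := by rw [hγ]; simp
    refine ⟨?_, ?_⟩
    · rw [hre]; positivity
    · rw [him2, him, abs_mul, abs_of_nonneg hn, hre]
      have e1 : ‖γ‖ * |Real.sin (Complex.arg γ)| ≤ ‖γ‖ * (4 * r / m) :=
        mul_le_mul_of_nonneg_left hsin hn
      have e2 : 8 * (r : ℝ) / m * (‖γ‖ * (1 / 2)) ≤
          8 * r / m * (‖γ‖ * Real.cos (Complex.arg γ)) := by
        refine mul_le_mul_of_nonneg_left (mul_le_mul_of_nonneg_left hcos hn) (by positivity)
      calc ‖γ‖ * |Real.sin (Complex.arg γ)| ≤ ‖γ‖ * (4 * r / m) := e1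
        _ = 8 * (r : ℝ) / m * (‖γ‖ * (1 / 2)) := by ring
        _ ≤ _ := e2

/-- **The Chern roots are nearly real.** -/
theorem near_real {r m : ℕ} (hr1 : 1 ≤ r) (hm : 8 * r ≤ m) {P : ℤ[X]} (hP : P.Monic)
    (hr : P.natDegree = r) (hnn : ∀ i ≤ r, 0 ≤ chern r P i) (hpos : MinorsNonneg r m P) :
    ∀ β ∈ rootsOf P, 1 ≤ β.re ∧ β.re ≤ 1 + ((chern r P 1 : ℤ) : ℝ) ∧
      |β.im| ≤ 8 * r / m * ((chern r P 1 : ℤ) : ℝ) := by
  have key := sector hr1 hm hP hr hnn hpos
  -- the sum of the roots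
  have hsum : (((rootsOf P).map fun β => (β - 1).re).sum : ℝ) = ((chern r P 1 : ℤ) : ℝ) := by
    have h1 : (rootsOf P).sum = -((P.coeff (r - 1) : ℤ) : ℂ) := by
      have h2 := (IsAlgClosed.splits (P.map (Int.castRingHom ℂ))).nextCoeff_eq_neg_sum_roots_of_monic
        (hP.map (Int.castRingHom ℂ))
      have h3 : (P.map (Int.castRingHom ℂ)).nextCoeff = ((P.coeff (r - 1) : ℤ) : ℂ) := by
        rw [nextCoeff_of_natDegree_pos (by rw [hP.natDegree_map, hr]; omega), hP.natDegree_map,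
          hr, coeff_map]
        rfl
      rw [h3] at h2
      rw [h2]
      unfold rootsOf
      ring
    have h4 : ((rootsOf P).map fun β => (β - 1).re).sum = ((rootsOf P).map fun β => β - 1).sum.re := by
      have : (((rootsOf P).map fun β => β - 1).sum).re =
          ((rootsOf P).map fun β => (β - 1).re).sum := by
        have h5 := map_multiset_sum Complex.reAddGroupHom ((rootsOf P).map fun β => β - 1)
        rw [Multiset.map_map] at h5
        exact h5
      exact this.symm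
    rw [h4, Multiset.sum_map_sub, Multiset.map_id', h1]
    simp only [Multiset.map_const', Multiset.sum_replicate, FIN.card_rootsOf, hr, nsmul_eq_mul,
      mul_one]
    rw [MAIN.chern_one r hr1 P hP hr]
    simp
  intro β hβ
  obtain ⟨h1, h2⟩ := key β hβ
  have h3 : (β - 1).re ≤ ((chern r P 1 : ℤ) : ℝ) := by
    rw [← hsum]
    refine Multiset.single_le_sum ?_ _ (Multiset.mem_map_of_mem _ hβ)
    intro x hx
    obtain ⟨β', hβ', rfl⟩ := Multiset.mem_map.1 hx
    exact (key β' hβ').1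
  have h4 : (β - 1).re = β.re - 1 := by simp
  refine ⟨by linarith, by linarith, h2.trans ?_⟩
  exact mul_le_mul_of_nonneg_left h3 (by positivity)

end Pool.Agent.U429.UF
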