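import Mathlib

/-!
# Totally positive sequences and zero-free sectors (Schoenberg)
-/

set_option autoImplicit false

open Matrix Finset

namespace Pool.Agent.U429.UF

theorem cb_aux {m : ℕ} {ι : Type*} [Fintype ι] [DecidableEq ι] (P : Matrix (Fin m) ι ℂ)
    (Q : Matrix ι (Fin m) ℂ) :
    (P * Q).det = ∑ a : Fin m → ι, (P.submatrix id a).det * ∏ i, Q (a i) i := by
  rw [det_apply']
  have h1 : ∀ σ : Equiv.Perm (Fin m), ∏ i, (P * Q) (σ i) i =
      ∑ a : Fin m → ι, (∏ i, P (σ i) (a i)) * ∏ i, Q (a i) i := by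
    intro σ
    simp only [Matrix.mul_apply]
    rw [Finset.prod_univ_sum, Fintype.piFinset_univ]
    apply Finset.sum_congr rfl
    intro a _
    rw [Finset.prod_mul_distrib]
  simp only [h1, Finset.mul_sum]
  rw [Finset.sum_comm]
  apply Finset.sum_congr rfl
  intro a _
  rw [det_apply', Finset.sum_mul]
  apply Finset.sum_congr rfl
  intro σ _
  simp only [submatrix_apply, id]
  ring

/-- Cauchy-Binet with ordered tuples. -/
theorem cauchyBinet {m : ℕ} {ι : Type*} [Fintype ι] [DecidableEq ι] (P : Matrix (Fin m) ι ℂ)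
    (Q : Matrix ι (Fin m) ℂ) :
    (m.factorial : ℂ) * (P * Q).det =
      ∑ a : Fin m → ι, (P.submatrix id a).det * (Q.submatrix a id).det := by
  have h1 : ∀ τ : Equiv.Perm (Fin m), (P * Q).det =
      ∑ a : Fin m → ι, (P.submatrix id a).det *
        (((Equiv.Perm.sign τ : ℤ) : ℂ) * ∏ i, Q (a (τ i)) i) := by
    intro τ
    rw [cb_aux, ← Equiv.sum_comp (Equiv.arrowCongr τ.symm (Equiv.refl ι))]
    apply Finset.sum_congr rfl
    intro a _
    have e : (Equiv.arrowCongr τ.symm (Equiv.refl ι)) a = a ∘ τ := by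
      ext i
      simp [Equiv.arrowCongr]
    rw [e]
    have e2 : P.submatrix id (a ∘ τ) = (P.submatrix id a).submatrix id τ := rfl
    rw [e2, Matrix.det_permute']
    simp only [Function.comp_apply]
    ring
  calc (m.factorial : ℂ) * (P * Q).det = ∑ τ : Equiv.Perm (Fin m), (P * Q).det := by
        rw [Finset.sum_const, Finset.card_univ, Fintype.card_perm, Fintype.card_fin, nsmul_eq_mul]
    _ = ∑ τ : Equiv.Perm (Fin m), ∑ a : Fin m → ι, (P.submatrix id a).det *
      (((Equiv.Perm.sign τ : ℤ) : ℂ) * ∏ i, Q (a (τ i)) i) :=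
        Finset.sum_congr rfl (fun τ _ => h1 τ)
    _ = _ := by
        rw [Finset.sum_comm]
        apply Finset.sum_congr rfl
        intro a _
        rw [← Finset.mul_sum, det_apply' (Q.submatrix a id)]
        rfl

/-- the entries of the Toeplitz matrix -/
def toep (c : ℕ → ℝ) (k l : ℕ) : ℝ := if l ≤ k then c (k - l) else 0

theorem prod_pairs {m : ℕ} (x : Fin m → ℂ) :
    ∏ i, ∏ j ∈ Ioi i, (x i * x j) = (∏ i, x i) ^ (m - 1) := by
  have h1 : ∏ i, ∏ j ∈ Ioi i, (x i * x j) =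
      (∏ i, ∏ _j ∈ Ioi i, x i) * ∏ i, ∏ j ∈ Ioi i, x j := by
    rw [← Finset.prod_mul_distrib]
    exact Finset.prod_congr rfl fun i _ => Finset.prod_mul_distrib
  have h2 : ∏ i : Fin m, ∏ j ∈ Ioi i, x j = ∏ j : Fin m, ∏ _i ∈ Iio j, x j := by
    refine Finset.prod_comm' ?_
    intro i j
    simp only [mem_univ, mem_Ioi, mem_Iio, and_true, true_and]
  rw [h1, h2, ← Finset.prod_mul_distrib, ← Finset.prod_pow]
  refine Finset.prod_congr rfl fun i _ => ?_
  rw [Finset.prod_const, Finset.prod_const, Fin.card_Ioi, Fin.card_Iio, ← pow_add]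
  congr 1
  have := i.2
  omega

theorem exp_sub_exp (φ : ℝ) {a b : ℕ} (h : a ≤ b) :
    Complex.exp (φ * Complex.I) ^ b - Complex.exp (φ * Complex.I) ^ a =
      (Complex.exp (φ / 2 * Complex.I) ^ a * Complex.exp (φ / 2 * Complex.I) ^ b) *
        (2 * Complex.I * (Real.sin (φ * ((b : ℝ) - a) / 2) : ℝ)) := by
  rw [← Complex.exp_nat_mul, ← Complex.exp_nat_mul, ← Complex.exp_nat_mul, ← Complex.exp_nat_mul,
    ← Complex.exp_add, Complex.ofReal_sin, Complex.sin]
  have h1 : 2 * Complex.I * ((Complex.exp (-((φ * ((b : ℝ) - a) / 2 : ℝ) : ℂ) * Complex.I) -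
      Complex.exp (((φ * ((b : ℝ) - a) / 2 : ℝ) : ℂ) * Complex.I)) * Complex.I / 2) =
      Complex.exp (((φ * ((b : ℝ) - a) / 2 : ℝ) : ℂ) * Complex.I) -
      Complex.exp (-((φ * ((b : ℝ) - a) / 2 : ℝ) : ℂ) * Complex.I) := by
    linear_combination (Complex.exp (-((φ * ((b : ℝ) - a) / 2 : ℝ) : ℂ) * Complex.I) -
      Complex.exp (((φ * ((b : ℝ) - a) / 2 : ℝ) : ℂ) * Complex.I)) * Complex.I_mul_I
  rw [h1, mul_sub, ← Complex.exp_add, ← Complex.exp_add]
  congr 2
  · push_cast; ring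
  · push_cast; ring

section main

variable (r m : ℕ) (φ ρ : ℝ)

/-- the points -/
noncomputable def pt (j : ℕ) : ℂ :=
  (ρ * (Complex.exp (φ / 2 * Complex.I))⁻¹ ^ (m - 1)) * Complex.exp (φ * Complex.I) ^ j

theorem det_pts (a : Fin m → ℕ) (ha : StrictMono a) :
    (Matrix.of fun j l : Fin m => pt m φ ρ j ^ a l).det =
      (∏ _i : Fin m, ∏ _j ∈ Ioi _i, (2 * Complex.I)) *
        ((ρ ^ (∑ l, a l) * ∏ i, ∏ j ∈ Ioi i, Real.sin (φ * ((a j : ℝ) - a i) / 2) : ℝ) : ℂ) := by
  set E : ℂ := Complex.exp (φ / 2 * Complex.I) with hE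
  have hE0 : E ≠ 0 := Complex.exp_ne_zero _
  set ω : ℂ := Complex.exp (φ * Complex.I) with hω
  set t : ℂ := ρ * E⁻¹ ^ (m - 1) with ht
  have h1 : (Matrix.of fun j l : Fin m => pt m φ ρ j ^ a l) =
      Matrix.of fun j l : Fin m => t ^ a l * (Matrix.vandermonde fun l : Fin m => ω ^ a l)ᵀ j l := by
    ext j l
    simp only [Matrix.of_apply, Matrix.transpose_apply, Matrix.vandermonde_apply, pt]
    rw [mul_pow, ← pow_mul, ← pow_mul, mul_comm (j : ℕ)]
  rw [h1, Matrix.det_mul_row, Matrix.det_transpose, Matrix.det_vandermonde]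
  have h2 : ∏ i : Fin m, ∏ j ∈ Ioi i, (ω ^ a j - ω ^ a i) =
      ∏ i : Fin m, ∏ j ∈ Ioi i, ((E ^ a i * E ^ a j) *
        (2 * Complex.I * (Real.sin (φ * ((a j : ℝ) - a i) / 2) : ℝ))) := by
    refine Finset.prod_congr rfl fun i _ => Finset.prod_congr rfl fun j hj => ?_
    rw [mem_Ioi] at hj
    exact exp_sub_exp φ (ha hj).le
  rw [h2]
  have h3 : ∏ i : Fin m, ∏ j ∈ Ioi i, ((E ^ a i * E ^ a j) *
        (2 * Complex.I * (Real.sin (φ * ((a j : ℝ) - a i) / 2) : ℝ))) =
      (∏ i : Fin m, ∏ j ∈ Ioi i, (E ^ a i * E ^ a j)) *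
        ((∏ i : Fin m, ∏ j ∈ Ioi i, (2 * Complex.I)) *
          ∏ i : Fin m, ∏ j ∈ Ioi i, ((Real.sin (φ * ((a j : ℝ) - a i) / 2) : ℝ) : ℂ)) := by
    rw [← Finset.prod_mul_distrib, ← Finset.prod_mul_distrib]
    refine Finset.prod_congr rfl fun i _ => ?_
    rw [← Finset.prod_mul_distrib, ← Finset.prod_mul_distrib]
  rw [h3, prod_pairs]
  have h4 : (∏ l, t ^ a l) * (∏ i, E ^ a i) ^ (m - 1) = (ρ : ℂ) ^ (∑ l, a l) := by
    rw [Finset.prod_pow_eq_pow_sum, Finset.prod_pow_eq_pow_sum, ht, mul_pow, mul_assoc,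
      ← pow_mul, ← pow_mul, mul_comm (m - 1), ← mul_pow, inv_mul_cancel₀ hE0, one_pow, mul_one]
  push_cast
  rw [← h4]
  ring

theorem sin_pos' {r m : ℕ} {φ : ℝ} (hφ0 : 0 < φ) (hφ : φ * ((r : ℝ) + m - 1) / 2 < Real.pi)
    {a b : ℕ} (hab : a < b) (hb : b < r + m) : 0 < Real.sin (φ * ((b : ℝ) - a) / 2) := by
  have h1 : (a : ℝ) + 1 ≤ b := by exact_mod_cast hab
  have h2 : (b : ℝ) + 1 ≤ r + m := by exact_mod_cast hb
  have h3 : (0 : ℝ) ≤ a := Nat.cast_nonneg a
  apply Real.sin_pos_of_pos_of_lt_pi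
  · have : 0 < (b : ℝ) - a := by linarith
    positivity
  · refine lt_of_le_of_lt ?_ hφ
    have : (b : ℝ) - a ≤ r + m - 1 := by linarith
    have := mul_le_mul_of_nonneg_left this hφ0.le
    linarith

theorem no_zero (hm : 1 ≤ m) (c : ℕ → ℝ) (hc0 : c 0 = 1) (hcr : ∀ i, r < i → c i = 0)
    (hpos : ∀ a : Fin m → ℕ, StrictMono a → (∀ i, a i < r + m) →
      0 ≤ (Matrix.of fun i j : Fin m => toep c (a i) j).det)
    (hφ0 : 0 < φ) (hφ : φ * ((r : ℝ) + m - 1) / 2 < Real.pi) (hρ : 0 < ρ) :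
    ∑ i ∈ range (r + 1), (c i : ℂ) * (ρ * Complex.exp (φ / 2 * Complex.I) ^ (m - 1)) ^ i ≠ 0 := by
  classical
  set n := r + m with hn
  set CC : ℂ → ℂ := fun y => ∑ i ∈ range (r + 1), (c i : ℂ) * y ^ i with hCC
  set Y : Matrix (Fin m) (Fin n) ℂ := Matrix.of fun j k => pt m φ ρ j ^ (k : ℕ) with hY
  set T : Matrix (Fin n) (Fin m) ℂ := Matrix.of fun k l => ((toep c k l : ℝ) : ℂ) with hT
  set Kc : ℂ := ∏ _i : Fin m, ∏ _j ∈ Ioi _i, (2 * Complex.I) with hKc
  have hKc0 : Kc ≠ 0 := by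
    rw [hKc]
    refine Finset.prod_ne_zero_iff.2 fun i _ => Finset.prod_ne_zero_iff.2 fun j _ => ?_
    exact mul_ne_zero two_ne_zero Complex.I_ne_zero
  -- the product matrix
  have hYT : Y * T = Matrix.of fun j l : Fin m => CC (pt m φ ρ j) * pt m φ ρ j ^ (l : ℕ) := by
    ext j l
    rw [Matrix.mul_apply, Matrix.of_apply]
    simp only [hY, hT, Matrix.of_apply]
    rw [Fin.sum_univ_eq_sum_range (fun k => pt m φ ρ j ^ k * ((toep c k l : ℝ) : ℂ)) n]
    have hl := l.2
    have e1 : ∑ k ∈ range n, pt m φ ρ j ^ k * ((toep c k l : ℝ) : ℂ) =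
        ∑ k ∈ Ico (l : ℕ) (l + (r + 1)), pt m φ ρ j ^ k * ((toep c k l : ℝ) : ℂ) := by
      symm
      refine Finset.sum_subset ?_ ?_
      · intro k hk
        rw [mem_Ico] at hk
        rw [mem_range]
        omega
      · intro k _ hk
        rw [mem_Ico] at hk
        rw [toep]
        split_ifs with h
        · rw [hcr (k - l) (by omega)]
          simp
        · simp
    rw [e1, Finset.sum_Ico_eq_sum_range, show (l : ℕ) + (r + 1) - l = r + 1 by omega, hCC]
    simp only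
    rw [Finset.sum_mul]
    refine Finset.sum_congr rfl fun i _ => ?_
    rw [toep, if_pos (by omega), show (l : ℕ) + i - l = i by omega, pow_add]
    ring
  have hdet : (Y * T).det = (∏ j : Fin m, CC (pt m φ ρ j)) *
      (Matrix.of fun j l : Fin m => pt m φ ρ j ^ (l : ℕ)).det := by
    rw [hYT]
    exact Matrix.det_mul_column (fun j : Fin m => CC (pt m φ ρ j))
      (Matrix.of fun j l : Fin m => pt m φ ρ j ^ (l : ℕ))
  -- the real numbers
  set Rr : (Fin m → ℕ) → ℝ := fun a =>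
    ρ ^ (∑ l, a l) * ∏ i, ∏ j ∈ Ioi i, Real.sin (φ * ((a j : ℝ) - a i) / 2) with hRr
  have hRpos : ∀ a : Fin m → ℕ, StrictMono a → (∀ i, a i < n) → 0 < Rr a := by
    intro a ha han
    rw [hRr]
    refine mul_pos (pow_pos hρ _) (Finset.prod_pos fun i _ => Finset.prod_pos fun j hj => ?_)
    rw [mem_Ioi] at hj
    exact sin_pos' hφ0 hφ (ha hj) (han j)
  -- the terms
  have hmono : ∀ a : Fin m → Fin n, StrictMono a →
      (Y.submatrix id a).det * (T.submatrix a id).det =
        Kc * ((Rr (fun i => a i) *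
          (Matrix.of fun i j : Fin m => toep c (a i) j).det : ℝ) : ℂ) := by
    intro a ha
    have e1 : Y.submatrix id a = Matrix.of fun j l : Fin m => pt m φ ρ j ^ ((fun i => (a i : ℕ)) l) := by
      ext j l; rfl
    have e2 : (T.submatrix a id).det =
        (((Matrix.of fun i j : Fin m => toep c (a i) j).det : ℝ) : ℂ) := by
      have := RingHom.map_det Complex.ofRealHom (Matrix.of fun i j : Fin m => toep c (a i) j)
      rw [Complex.ofRealHom_eq_coe] at this
      rw [this]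
      congr 1
    have ha' : StrictMono (fun i => (a i : ℕ)) := fun i j hij => ha hij
    have e4 : (Y.submatrix id a).det = Kc * ((Rr (fun i => (a i : ℕ)) : ℝ) : ℂ) := by
      rw [e1]
      exact det_pts m φ ρ _ ha'
    have e5 : ((Rr (fun i => (a i : ℕ)) *
        (Matrix.of fun i j : Fin m => toep c (a i) j).det : ℝ) : ℂ) =
        ((Rr (fun i => (a i : ℕ)) : ℝ) : ℂ) *
        (((Matrix.of fun i j : Fin m => toep c (a i) j).det : ℝ) : ℂ) := Complex.ofReal_mul _ _
    rw [e4, e2, e5, mul_assoc]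
  have hterm : ∀ a : Fin m → Fin n, ∃ R : ℝ, 0 ≤ R ∧
      (Y.submatrix id a).det * (T.submatrix a id).det = Kc * (R : ℂ) := by
    intro a
    by_cases hinj : Function.Injective a
    · set σ := Tuple.sort a with hσ
      have hs : StrictMono (a ∘ σ) :=
        (Tuple.monotone_sort a).strictMono_of_injective (hinj.comp σ.injective)
      have h1 := hmono (a ∘ σ) hs
      refine ⟨(Rr fun i => ((a ∘ σ) i : ℕ)) *
        (Matrix.of fun i j : Fin m => toep c ((a ∘ σ) i : ℕ) j).det, ?_, ?_⟩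
      rotate_left
      · refine Eq.trans ?_ h1
        have e1 : Y.submatrix id (a ∘ σ) = (Y.submatrix id a).submatrix id σ := rfl
        have e2 : T.submatrix (a ∘ σ) id = (T.submatrix a id).submatrix σ id := rfl
        rw [e1, e2, Matrix.det_permute', Matrix.det_permute]
        have e3 : (((Equiv.Perm.sign σ : ℤ) : ℂ)) * ((Equiv.Perm.sign σ : ℤ) : ℂ) = 1 := by
          rw [← Int.cast_mul, ← sq, ← Units.val_pow_eq_pow_val, Int.units_sq]
          simp
        calc (Y.submatrix id a).det * (T.submatrix a id).det =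
            ((((Equiv.Perm.sign σ : ℤ) : ℂ)) * ((Equiv.Perm.sign σ : ℤ) : ℂ)) *
              ((Y.submatrix id a).det * (T.submatrix a id).det) := by rw [e3, one_mul]
          _ = _ := by ring
      · have hs' : StrictMono (fun i => ((a ∘ σ) i : ℕ)) := fun i j hij => hs hij
        exact mul_nonneg (hRpos _ hs' fun i => ((a ∘ σ) i).2).le
          (hpos _ hs' fun i => ((a ∘ σ) i).2)
    · refine ⟨0, le_rfl, ?_⟩
      rw [Function.Injective] at hinj
      push Not at hinj
      obtain ⟨i, j, hij, hne⟩ := hinj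
      rw [Matrix.det_zero_of_column_eq hne (fun k => by simp [hij])]
      simp
  choose R hR0 hR using hterm
  -- the identity tuple
  set a₀ : Fin m → Fin n := Fin.castLE (by omega) with ha₀
  have ha₀m : StrictMono a₀ := Fin.strictMono_castLE _
  have hT0 : (Matrix.of fun i j : Fin m => toep c (a₀ i) j).det = 1 := by
    have : (Matrix.of fun i j : Fin m => toep c (a₀ i) j).BlockTriangular OrderDual.toDual := by
      intro i j hij
      have : (i : ℕ) < j := hij
      simp only [Matrix.of_apply, toep]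
      rw [if_neg]
      simp only [ha₀, Fin.val_castLE]
      omega
    rw [Matrix.det_of_isLowerTriangular _ this]
    refine Finset.prod_eq_one fun i _ => ?_
    simp [toep, ha₀, hc0]
  have hRa0 : R a₀ = Rr (fun i : Fin m => (i : ℕ)) := by
    have h1 := hR a₀
    rw [hmono a₀ ha₀m, hT0, mul_one] at h1
    have h2 := mul_left_cancel₀ hKc0 h1
    exact_mod_cast h2.symm
  have hid : StrictMono (fun i : Fin m => (i : ℕ)) := fun i j hij => hij
  have hR0pos : 0 < Rr (fun i : Fin m => (i : ℕ)) := hRpos _ hid fun i => by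
    have := i.2
    omega
  have hsum : 0 < ∑ a, R a :=
    Finset.sum_pos' (fun a _ => hR0 a) ⟨a₀, mem_univ _, by rw [hRa0]; exact hR0pos⟩
  have hcb := cauchyBinet Y T
  rw [hdet, Finset.sum_congr rfl fun a _ => hR a, ← Finset.mul_sum] at hcb
  intro hzero
  have hpt : pt m φ ρ ((⟨m - 1, by omega⟩ : Fin m) : ℕ) =
      ρ * Complex.exp (φ / 2 * Complex.I) ^ (m - 1) := by
    rw [pt]
    have e1 : Complex.exp (φ * Complex.I) = Complex.exp (φ / 2 * Complex.I) *
        Complex.exp (φ / 2 * Complex.I) := by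
      rw [← Complex.exp_add]; congr 1; ring
    have hE0 : Complex.exp (φ / 2 * Complex.I) ≠ 0 := Complex.exp_ne_zero _
    show (ρ * (Complex.exp (φ / 2 * Complex.I))⁻¹ ^ (m - 1)) * Complex.exp (φ * Complex.I) ^ (m - 1) = _
    rw [e1, mul_assoc, ← mul_pow, inv_mul_cancel_left₀ hE0]
  have hprod : ∏ j : Fin m, CC (pt m φ ρ j) = 0 := by
    refine Finset.prod_eq_zero (mem_univ (⟨m - 1, by omega⟩ : Fin m)) ?_
    rw [hpt]
    exact hzero
  rw [hprod, zero_mul, mul_zero] at hcb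
  have h5 : (∑ a, (R a : ℂ)) = ((∑ a, R a : ℝ) : ℂ) := by push_cast; rfl
  rw [h5] at hcb
  have h6 := (mul_eq_zero.1 hcb.symm).resolve_left hKc0
  have h7 : (∑ a, R a) = 0 := by exact_mod_cast h6
  linarith

end main

end Pool.Agent.U429.UF
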