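import Pool.Agent.N17.HC.KOS
import Pool.Agent.N17.HC.LSP
import Pool.Agent.N17.HC.FIN

/-!
# Integrality of the values of binomial polynomials at the Chern roots, for one prime
-/

set_option autoImplicit false

open Finset Polynomial

namespace Pool.Agent.U429.UF

open Pool.Agent.N17.HC Pool.Agent.N17.HC.KOS
open Pool.Agent.R920.CH (IsIntegerValued aeval_bin natDegree_bin bin_int intVal_comp intVal_mul)

/-! ### digit sums -/

theorem digit_sum_succ {p : ℕ} (hp : 1 < p) (n : ℕ) :
    (p.digits n).sum = n % p + (p.digits (n / p)).sum := by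
  rcases Nat.eq_zero_or_pos n with h | h
  · subst h; simp
  · rw [Nat.digits_def' hp h, List.sum_cons]

theorem digit_sum_mod {p : ℕ} (hp : 1 < p) (j n : ℕ) :
    (p.digits (n % p ^ j)).sum ≤ (p.digits n).sum := by
  induction j generalizing n with
  | zero => simp [Nat.mod_one]
  | succ j ih =>
    rw [digit_sum_succ hp (n % p ^ (j + 1)), digit_sum_succ hp n]
    have h1 : n % p ^ (j + 1) % p = n % p := by
      rw [Nat.mod_mod_of_dvd]
      exact dvd_pow_self p (by omega)
    have h2 : n % p ^ (j + 1) / p = (n / p) % p ^ j := by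
      rw [pow_succ, mul_comm, Nat.mod_mul_right_div_self]
    rw [h1, h2]
    have := ih (n / p)
    omega

theorem digit_sum_pow {p : ℕ} (hp : 1 < p) (j : ℕ) : (p.digits (p ^ j)).sum = 1 := by
  induction j with
  | zero => rw [pow_zero, Nat.digits_def' hp one_pos, Nat.mod_eq_of_lt hp, Nat.div_eq_of_lt hp]; simp
  | succ j ih =>
    rw [digit_sum_succ hp, pow_succ, Nat.mul_mod_left, Nat.mul_div_cancel _ (by omega), ih]

theorem leg {p : ℕ} (hp : p.Prime) (j k : ℕ) :
    (p - 1) * padicValNat p k.factorial ≤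
      (k / p ^ j) * ((p - 1) * padicValNat p (p ^ j).factorial) +
        (p - 1) * padicValNat p (k % p ^ j).factorial + k / p ^ j := by
  have : Fact p.Prime := ⟨hp⟩
  rw [sub_one_mul_padicValNat_factorial, sub_one_mul_padicValNat_factorial,
    sub_one_mul_padicValNat_factorial, digit_sum_pow hp.one_lt]
  have h1 := digit_sum_mod hp.one_lt j k
  have h2 := Nat.div_add_mod k (p ^ j)
  have h3 := Nat.digit_sum_le p (k % p ^ j)
  have h4 : 1 ≤ p ^ j := Nat.one_le_pow _ _ hp.pos
  have h5 : (k / p ^ j) * (p ^ j - 1) + k / p ^ j = p ^ j * (k / p ^ j) := by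
    obtain ⟨q, hq⟩ : ∃ q, p ^ j = q + 1 := ⟨p ^ j - 1, by omega⟩
    rw [hq, Nat.add_sub_cancel]
    ring
  omega

/-! ### valuations -/

/-- `v` is a valuation of `ℂ` above the prime number `p` -/
structure Above {Γ : Type} [LinearOrderedCommGroupWithZero Γ] (v : Valuation ℂ Γ) (p : ℕ) :
    Prop where
  lt : v (p : ℂ) < 1
  le : ∀ z : ℤ, v (z : ℂ) ≤ 1
  prime : p.Prime

theorem exists_above {p : ℕ} (hp : p.Prime) :
    ∃ (Γ : Type) (_ : LinearOrderedCommGroupWithZero Γ) (v : Valuation ℂ Γ), Above v p := by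
  set A : Subring ℂ := (Int.castRingHom ℂ).range with hA
  have hpA : (p : ℂ) ∈ A := ⟨(p : ℤ), by simp⟩
  set I : Ideal A := Ideal.span {(⟨(p : ℂ), hpA⟩ : A)} with hI
  have hItop : I ≠ ⊤ := by
    intro h
    rw [hI, Ideal.span_singleton_eq_top] at h
    obtain ⟨u, hu⟩ := h
    have h1 : (u : A) * ((u⁻¹ : Aˣ) : A) = 1 := by simp
    rw [hu] at h1
    obtain ⟨z, hz⟩ := ((u⁻¹ : Aˣ) : A).2
    have h2 : (p : ℂ) * (z : ℂ) = 1 := by
      have := congrArg (fun x : A => (x : ℂ)) h1
      simp only [MulMemClass.mk_mul_mk, Subring.coe_mul, Subring.coe_one] at this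
      rw [← hz] at this
      simpa using this
    have h3 : (p : ℤ) * z = 1 := by exact_mod_cast h2
    have h4 : (p : ℤ) ∣ 1 := ⟨z, h3.symm⟩
    have h5 := Int.natCast_dvd_natCast.1 (by simpa using h4 : (p : ℤ) ∣ ((1 : ℕ) : ℤ))
    exact hp.one_lt.ne' (Nat.dvd_one.1 h5)
  obtain ⟨B, hAB, hIB⟩ := Ideal.image_subset_nonunits_valuationSubring I hItop
  refine ⟨B.ValueGroup, inferInstance, B.valuation, ?_, ?_, hp⟩
  · rw [← ValuationSubring.mem_nonunits_iff]
    apply hIB
    exact ⟨⟨(p : ℂ), hpA⟩, Ideal.subset_span rfl, rfl⟩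
  · intro z
    rw [ValuationSubring.valuation_le_one_iff]
    exact hAB ⟨z, by simp⟩

section vals

variable {Γ : Type} [LinearOrderedCommGroupWithZero Γ] {v : Valuation ℂ Γ} {p : ℕ}

theorem Above.pos (h : Above v p) : 0 < v (p : ℂ) := by
  rw [zero_lt_iff, Valuation.ne_zero_iff]
  exact_mod_cast h.prime.ne_zero

theorem Above.nat_le (h : Above v p) (n : ℕ) : v (n : ℂ) ≤ 1 := by
  have := h.le (n : ℤ)
  simpa using this

theorem Above.eq_one (h : Above v p) {n : ℕ} (hn : ¬ p ∣ n) : v (n : ℂ) = 1 := by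
  have hc : IsCoprime (n : ℤ) (p : ℤ) :=
    Nat.isCoprime_iff_coprime.2 ((h.prime.coprime_iff_not_dvd.2 hn).symm)
  obtain ⟨a, b, hab⟩ := hc
  have h1 : (a : ℂ) * n + b * p = 1 := by exact_mod_cast hab
  have h2 : v ((b : ℂ) * p) < 1 := by
    rw [map_mul]
    refine lt_of_le_of_lt (mul_le_mul' (h.le b) le_rfl) ?_
    rw [one_mul]; exact h.lt
  by_contra hne
  have h3 : v (n : ℂ) < 1 := lt_of_le_of_ne (h.nat_le n) hne
  have h4 : v ((a : ℂ) * n) < 1 := by
    rw [map_mul]
    refine lt_of_le_of_lt (mul_le_mul' (h.le a) le_rfl) ?_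
    rw [one_mul]; exact h3
  have h5 := v.map_add_lt h4 h2
  rw [h1, map_one] at h5
  exact lt_irrefl _ h5

theorem Above.nat_eq (h : Above v p) {n : ℕ} (hn : n ≠ 0) :
    v (n : ℂ) = v (p : ℂ) ^ padicValNat p n := by
  have : Fact p.Prime := ⟨h.prime⟩
  obtain ⟨m, hm1, hm2⟩ : ∃ m, n = p ^ padicValNat p n * m ∧ ¬ p ∣ m := by
    obtain ⟨m, hm⟩ := pow_padicValNat_dvd (p := p) (n := n)
    refine ⟨m, hm, fun hd => ?_⟩
    apply pow_succ_padicValNat_not_dvd hn (p := p)
    rw [pow_succ]
    nth_rewrite 2 [hm]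
    exact mul_dvd_mul_left _ hd
  conv_lhs => rw [hm1]
  push_cast
  rw [map_mul, map_pow, h.eq_one hm2, mul_one]

theorem Above.pow_le (h : Above v p) {a b : ℕ} (hab : a ≤ b) : v (p : ℂ) ^ b ≤ v (p : ℂ) ^ a :=
  pow_le_pow_right_of_le_one' h.lt.le hab

theorem Above.le_of_pow (h : Above v p) {a b : ℕ} (hab : v (p : ℂ) ^ b ≤ v (p : ℂ) ^ a) : a ≤ b := by
  by_contra hcon
  push Not at hcon
  have h1 : v (p : ℂ) ^ a < v (p : ℂ) ^ b := by
    obtain ⟨c, rfl⟩ : ∃ c, a = b + (c + 1) := ⟨a - b - 1, by omega⟩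
    rw [pow_add]
    have h2 : v (p : ℂ) ^ (c + 1) < 1 := pow_lt_one₀ zero_le h.lt (by omega)
    have h3 : 0 < v (p : ℂ) ^ b := pow_pos h.pos b
    calc v (p : ℂ) ^ b * v (p : ℂ) ^ (c + 1) < v (p : ℂ) ^ b * 1 := by
          exact (mul_lt_mul_iff_right₀ h3).2 h2
      _ = _ := mul_one _
  exact absurd hab (not_le.2 h1)

theorem Above.rat_gap (h : Above v p) {d n : ℕ} (hd : 0 < d) {x : ℂ} {z : ℤ}
    (hx : (d : ℂ) ^ n * x = z) : v x ≤ 1 ∨ 1 ≤ v x * v (p : ℂ) := by
  have hd1 : v ((d : ℂ) ^ n) = v (p : ℂ) ^ (padicValNat p d * n) := by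
    rw [map_pow, h.nat_eq hd.ne', pow_mul]
  rcases eq_or_ne z 0 with hz | hz
  · left
    have hd0 : (d : ℂ) ≠ 0 := by exact_mod_cast hd.ne'
    have : x = 0 := by
      rw [hz, Int.cast_zero] at hx
      exact (mul_eq_zero.1 hx).resolve_left (pow_ne_zero _ hd0)
    rw [this, map_zero]
    exact zero_le_one
  have hz1 : v (z : ℂ) = v (p : ℂ) ^ padicValNat p z.natAbs := by
    have h1 : v (z : ℂ) = v ((z.natAbs : ℕ) : ℂ) := by
      rcases Int.natAbs_eq z with h0 | h0
      · conv_lhs => rw [h0]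
        simp
      · conv_lhs => rw [h0]
        simp [Valuation.map_neg]
    rw [h1, h.nat_eq (Int.natAbs_ne_zero.2 hz)]
  have hkey : v (p : ℂ) ^ (padicValNat p d * n) * v x = v (p : ℂ) ^ padicValNat p z.natAbs := by
    rw [← hd1, ← hz1, ← map_mul, hx]
  set b := padicValNat p d * n
  set a := padicValNat p z.natAbs
  have hb0 : 0 < v (p : ℂ) ^ b := pow_pos h.pos b
  rcases le_or_gt b a with hab | hab
  · left
    have h1 : v (p : ℂ) ^ b * v x ≤ v (p : ℂ) ^ b * 1 := by
      rw [hkey, mul_one]; exact h.pow_le hab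
    exact (mul_le_mul_iff_right₀ hb0).1 h1
  · right
    have h1 : v (p : ℂ) ^ b * 1 ≤ v (p : ℂ) ^ b * (v x * v (p : ℂ)) := by
      rw [← mul_assoc, hkey, mul_one, ← pow_succ]
      exact h.pow_le (by omega)
    exact (mul_le_mul_iff_right₀ hb0).1 h1

/-! ### the first pole -/

/-- the Euler characteristics of the tensor powers of the conormal bundle -/
noncomputable def tens (k : ℕ) (s : Multiset ℂ) : ℕ → ℂ → ℂ
  | 0, x => kos k s x
  | (M + 1), x => (s.map fun b => tens k s M (x - b)).sum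

theorem tens_pascal (n : ℕ) (s : Multiset ℂ) (M : ℕ) (x : ℂ) :
    tens (n + 1) s M x - tens (n + 1) s M (x - 1) = tens n s M (x - 1) := by
  induction M generalizing x with
  | zero => exact kos_pascal n s x
  | succ M ih =>
    simp only [tens]
    rw [← Multiset.sum_map_sub]
    congr 1
    refine Multiset.map_congr rfl fun b _ => ?_
    rw [show x - 1 - b = x - b - 1 by ring, ih]

/-- the sum of the `(1 + w) ^ (-b)` -/
noncomputable def pw (s : Multiset ℂ) : PowerSeries ℂ := (s.map fun b => u (-b)).sum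

theorem coeff_tens (s : Multiset ℂ) (k M : ℕ) (y : ℂ) :
    PowerSeries.coeff k (u y * (pw s ^ M * (s.map fun b => 1 - u (-b)).prod)) = tens k s M y := by
  induction M generalizing y with
  | zero =>
    rw [pow_zero, one_mul]
    exact coeff_prod s y k
  | succ M ih =>
    have h1 : u y * (pw s ^ (M + 1) * (s.map fun b => 1 - u (-b)).prod) =
        (s.map fun b => u (y - b) * (pw s ^ M * (s.map fun b => 1 - u (-b)).prod)).sum := by
      rw [Multiset.sum_map_mul_right]
      have h2 : (s.map fun b => u (y - b)).sum = u y * pw s := by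
        rw [pw, ← Multiset.sum_map_mul_left]
        congr 1
        refine Multiset.map_congr rfl fun b _ => ?_
        rw [sub_eq_add_neg, u_add]
      rw [h2, pow_succ]
      ring
    rw [h1, map_multiset_sum, Multiset.map_map]
    simp only [tens]
    congr 1
    refine Multiset.map_congr rfl fun b _ => ?_
    exact ih _

theorem coeff_pw (s : Multiset ℂ) (k : ℕ) :
    PowerSeries.coeff k (pw s) = (s.map fun b => bin k (-b)).sum := by
  rw [pw, map_multiset_sum, Multiset.map_map]
  congr 1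
  refine Multiset.map_congr rfl fun b _ => ?_
  rw [Function.comp_apply, u, PowerSeries.coeff_mk]

/-- all the Euler characteristics are integers -/
def AllInt (N : ℕ) (s : Multiset ℂ) : Prop :=
  ∀ (M : ℕ) (t : ℤ), ∃ z : ℤ, tens N s M (N + t) = z

theorem coeff_int {N : ℕ} {s : Multiset ℂ} (hT : AllInt N s) (M k : ℕ)
    (hk : k + Multiset.card s ≤ N) :
    PowerSeries.coeff k (pw s ^ M * (s.map g).prod) ∈ Z := by
  have h1 : ∀ k ≤ N, ∀ t : ℤ, tens k s M t ∈ Z := fun k hk =>
    descent N (fun k x => tens k s M x) (fun n x => tens_pascal n s M x)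
      (fun t => mem_Z.2 (hT M t)) k hk
  have h2 := coeff_tens s (k + Multiset.card s) M 0
  rw [u_zero, one_mul, prod_one_sub, show pw s ^ M * (PowerSeries.X ^ Multiset.card s *
    (s.map g).prod) = PowerSeries.X ^ Multiset.card s * (pw s ^ M * (s.map g).prod) by ring,
    PowerSeries.coeff_X_pow_mul] at h2
  rw [h2]
  have := h1 (k + Multiset.card s) hk 0
  simpa using this

theorem val_coeff_mul {A B : PowerSeries ℂ} {n : ℕ}
    (hA : ∀ i ≤ n, v (PowerSeries.coeff i A) ≤ 1) (hB : ∀ i ≤ n, v (PowerSeries.coeff i B) ≤ 1) :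
    ∀ i ≤ n, v (PowerSeries.coeff i (A * B)) ≤ 1 := by
  intro i hi
  rw [PowerSeries.coeff_mul]
  refine v.map_sum_le fun ij hij => ?_
  have hij := Finset.HasAntidiagonal.mem_antidiagonal.1 hij
  rw [map_mul]
  exact mul_le_one' (hA _ (by omega)) (hB _ (by omega))

theorem val_coeff_pow {A : PowerSeries ℂ} {n : ℕ}
    (hA : ∀ i ≤ n, v (PowerSeries.coeff i A) ≤ 1) (M : ℕ) :
    ∀ i ≤ n, v (PowerSeries.coeff i (A ^ M)) ≤ 1 := by
  induction M with
  | zero =>
    intro i _
    rw [pow_zero, PowerSeries.coeff_one]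
    split_ifs
    · rw [map_one]
    · rw [map_zero]; exact zero_le_one
  | succ M ih =>
    rw [pow_succ]
    exact val_coeff_mul ih hA

theorem first_pole {N : ℕ} {s : Multiset ℂ} (hT : AllInt N s) {d : ℕ} (hd : s.prod = d)
    (hd0 : 0 < d) (h : Above v p) {w : ℕ} (hw : padicValNat p d ≤ w) (k : ℕ)
    (hk : (w + 1) * k + Multiset.card s ≤ N) : v (PowerSeries.coeff k (pw s)) ≤ 1 := by
  induction k using Nat.strong_induction_on with
  | _ k ih =>
    set x := PowerSeries.coeff k (pw s) with hx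
    by_contra hcon
    have hkN : k + Multiset.card s ≤ N := by
      have : 1 * k ≤ (w + 1) * k := Nat.mul_le_mul_right _ (by omega)
      omega
    -- the truncation
    set A : PowerSeries ℂ := PowerSeries.mk fun i => if i < k then PowerSeries.coeff i (pw s) else 0
      with hA
    have hAv : ∀ i ≤ (w + 1) * k, v (PowerSeries.coeff i A) ≤ 1 := by
      intro i _
      rw [hA, PowerSeries.coeff_mk]
      split_ifs with hik
      · refine ih i hik ?_
        have : (w + 1) * i ≤ (w + 1) * k := Nat.mul_le_mul_left _ hik.le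
        omega
      · rw [map_zero]; exact zero_le_one
    set B' : PowerSeries ℂ := PowerSeries.mk fun i => PowerSeries.coeff (i + k) (pw s) with hB'
    have hB : pw s - A = PowerSeries.X ^ k * B' := by
      ext i
      rw [map_sub, hA, PowerSeries.coeff_mk, PowerSeries.coeff_X_pow_mul']
      split_ifs with h1 h2 h2
      · omega
      · ring
      · rw [hB', PowerSeries.coeff_mk, Nat.sub_add_cancel h2]; ring
      · omega
    have h1 : PowerSeries.coeff ((w + 1) * k) ((pw s - A) ^ (w + 1) * (s.map g).prod) =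
        x ^ (w + 1) * d := by
      rw [hB, mul_pow, ← pow_mul, mul_comm k, mul_assoc]
      have := PowerSeries.coeff_X_pow_mul (B' ^ (w + 1) * (s.map g).prod) ((w + 1) * k) 0
      rw [zero_add] at this
      rw [this, PowerSeries.coeff_zero_eq_constantCoeff_apply, map_mul, map_pow,
        ← PowerSeries.coeff_zero_eq_constantCoeff_apply,
        ← PowerSeries.coeff_zero_eq_constantCoeff_apply, coeff_prod_g_zero, hd, hB',
        PowerSeries.coeff_mk, zero_add]
    have h2 : v (PowerSeries.coeff ((w + 1) * k) ((pw s - A) ^ (w + 1) * (s.map g).prod)) ≤ 1 := by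
      rw [sub_eq_add_neg, add_pow, Finset.sum_mul, map_sum]
      refine v.map_sum_le fun j _ => ?_
      have e1 : pw s ^ j * (-A) ^ (w + 1 - j) * ((w + 1).choose j : PowerSeries ℂ) *
          (s.map g).prod = (pw s ^ j * (s.map g).prod) *
          ((-A) ^ (w + 1 - j) * PowerSeries.C (((w + 1).choose j : ℕ) : ℂ)) := by
        rw [map_natCast]; ring
      rw [e1]
      refine val_coeff_mul (n := (w + 1) * k) ?_ ?_ _ le_rfl
      · intro i hi
        obtain ⟨z, hz⟩ := mem_Z.1 (coeff_int hT j i (by omega))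
        rw [hz]
        exact h.le z
      · refine val_coeff_mul (val_coeff_pow ?_ _) ?_
        · intro i hi
          rw [map_neg, Valuation.map_neg]
          exact hAv i hi
        · intro i _
          rw [PowerSeries.coeff_C]
          split_ifs
          · exact h.nat_le _
          · rw [map_zero]; exact zero_le_one
    rw [h1, map_mul, map_pow] at h2
    -- rationality
    obtain ⟨z, hz⟩ := t_KOS N s (d : ℤ) (by rw [hd]; simp)
      (fun t => hT 0 t) (fun t => by
        obtain ⟨z, hz⟩ := hT 1 t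
        exact ⟨z, hz⟩) k hkN
    rw [← coeff_pw] at hz
    have hz' : (d : ℂ) ^ (k + 1) * x = z := by
      push_cast at hz
      exact hz
    have h3 := (h.rat_gap hd0 hz').resolve_left hcon
    have h4 : v (p : ℂ) ^ w ≤ v (d : ℂ) := by
      rw [h.nat_eq hd0.ne']
      exact h.pow_le hw
    have h5 : (v x * v (p : ℂ)) ^ (w + 1) ≤ v (p : ℂ) := by
      rw [mul_pow, pow_succ (v (p : ℂ))]
      calc v x ^ (w + 1) * (v (p : ℂ) ^ w * v (p : ℂ)) =
            (v x ^ (w + 1) * v (p : ℂ) ^ w) * v (p : ℂ) := by rw [mul_assoc]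
        _ ≤ (v x ^ (w + 1) * v (d : ℂ)) * v (p : ℂ) := by
            gcongr
        _ ≤ 1 * v (p : ℂ) := by
            gcongr
        _ = _ := one_mul _
    have h6 : 1 ≤ (v x * v (p : ℂ)) ^ (w + 1) := one_le_pow₀ h3
    exact absurd (h6.trans h5) (not_le.2 h.lt)

/-- the integrality for integer valued polynomials -/
theorem int_val {N : ℕ} {s : Multiset ℂ} (hT : AllInt N s) {d : ℕ} (hd : s.prod = d)
    (hd0 : 0 < d) (h : Above v p) {w K : ℕ} (hw : padicValNat p d ≤ w)
    (hK : (w + 1) * K + Multiset.card s ≤ N) (f : ℚ[X]) (hf : IsIntegerValued f)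
    (hfK : f.natDegree ≤ K) : v ((s.map fun b => aeval b f).sum) ≤ 1 := by
  obtain ⟨a, ha⟩ := LSP.newton K (f.comp (-X)) (by
    intro m
    obtain ⟨z, hz⟩ := hf (-m)
    refine ⟨z, ?_⟩
    rw [← hz, eval_comp]
    simp) (by
    refine natDegree_comp_le.trans ?_
    rw [natDegree_neg, natDegree_X, mul_one]
    exact hfK)
  have h1 : ∀ b : ℂ, aeval b f = ∑ k ∈ Finset.range (K + 1), (a k : ℂ) * bin k (-b) := by
    intro b
    have h2 : aeval b f = aeval (-b) (f.comp (-X)) := by
      rw [aeval_comp]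
      simp
    rw [h2, ha, map_sum]
    refine Finset.sum_congr rfl fun k _ => ?_
    rw [map_mul, aeval_C, aeval_bin, bin]
    rw [map_intCast]
    ring
  have h3 : (s.map fun b => aeval b f).sum =
      ∑ k ∈ Finset.range (K + 1), (a k : ℂ) * (s.map fun b => bin k (-b)).sum := by
    simp only [h1]
    show (s.map fun b => ((Finset.range (K + 1)).val.map
      fun k => (a k : ℂ) * bin k (-b)).sum).sum = _
    rw [Multiset.sum_map_sum_map]
    refine Finset.sum_congr rfl fun k _ => ?_
    rw [Multiset.sum_map_mul_left]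
  rw [h3]
  refine v.map_sum_le fun k hk => ?_
  rw [Finset.mem_range] at hk
  rw [map_mul, ← coeff_pw]
  refine mul_le_one' (h.le _) (first_pole hT hd hd0 h hw k ?_)
  have : (w + 1) * k ≤ (w + 1) * K := Nat.mul_le_mul_left _ (by omega)
  omega

end vals

end Pool.Agent.U429.UF
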